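import Pool.Agent.KS6_99.LY.Lat
import Pool.Graph.R_pool_sql_team_seeded_ab47071d.Results.MP_953b23_mp.PolynomialScaling

/-!
The family of the Lee-Yang Hamiltonians on the tori.
-/

set_option autoImplicit false
set_option linter.unusedSectionVars false

open scoped BigOperators Matrix
open Finset Pool.Agent.TH235.PP Pool.Agent.Results.MP_953b23_mp.OverlapBoosting
  Pool.Agent.Results.MP_953b23_mp.ThermalCriterion

namespace Pool.Agent.KS6_99.LY

section relabel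

variable {X Y : Type*} [Fintype X] [Fintype Y]

theorem normSq_comp (c : X ≃ Y) (ψ : Y → ℂ) : normSq (ψ ∘ c) = normSq ψ := by
  unfold normSq
  exact c.sum_comp fun y => ‖ψ y‖ ^ 2

theorem mulVec_comp (c : X ≃ Y) (A : Matrix Y Y ℂ) (ψ : Y → ℂ) :
    (A.submatrix c c) *ᵥ (ψ ∘ c) = (A *ᵥ ψ) ∘ c := by
  funext x
  unfold Matrix.mulVec dotProduct
  simp only [Matrix.submatrix_apply, Function.comp_apply]
  exact c.sum_comp fun y => A (c x) y * ψ y

theorem gapped_comp (c : X ≃ Y) (A : Matrix Y Y ℂ) (Δ : ℝ) (ψ : Y → ℂ)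
    (h : IsGappedGround A Δ ψ) : IsGappedGround (A.submatrix c c) Δ (ψ ∘ c) := by
  obtain ⟨E, h1, h2, h3⟩ := h
  have back : ∀ φ : X → ℂ, φ = (φ ∘ c.symm) ∘ c := fun φ => by
    funext x
    simp
  refine ⟨E, ?_, ?_, ?_⟩
  · rw [mulVec_comp, h1]
    rfl
  · intro φ hφ
    change (A.submatrix c c) *ᵥ φ = _ at hφ
    rw [back φ, mulVec_comp] at hφ
    have h4 : A *ᵥ (φ ∘ c.symm) = (E : ℂ) • (φ ∘ c.symm) := by
      funext y
      have := congrFun hφ (c.symm y)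
      simpa using this
    obtain ⟨z, hz⟩ := h2 _ h4
    refine ⟨z, ?_⟩
    rw [back φ, hz]
    rfl
  · intro E' φ hφ0 hφ
    change (A.submatrix c c) *ᵥ φ = _ at hφ
    rw [back φ, mulVec_comp] at hφ
    have h4 : A *ᵥ (φ ∘ c.symm) = (E' : ℂ) • (φ ∘ c.symm) := by
      funext y
      have := congrFun hφ (c.symm y)
      simpa using this
    refine h3 E' (φ ∘ c.symm) ?_ h4
    intro h0
    apply hφ0
    rw [back φ, h0]
    rfl

end relabel

variable {d n R : ℕ}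

/-- the constants -/
theorem consts (k : Matrix (BV R n → Fin 2) (BV R n → Fin 2) ℂ) {b₀ : ℝ} (hb₀ : 0 < b₀) :
    ∃ c₁ κ δ τ : ℝ, 0 < c₁ ∧ 0 < κ ∧ 0 < δ ∧ 0 ≤ τ ∧ 4 * c₁ * κ * Real.exp (-(2 * b₀ * τ)) ≤ 1 ∧
      ∀ (L : ℕ) [NeZero L], R ≤ L → Dec (torH L k) (L * L) c₁ κ δ := by
  classical
  set m := Fintype.card (BV R n) with hm
  have hc0 := c0_pos m
  set S := sn k with hS
  have hS0 : 0 ≤ S := sn_nonneg k
  set δ : ℝ := min 1 (c0 m / 2 / (S * 2 ^ m + 1)) with hδ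
  have hδ0 : 0 < δ := lt_min one_pos (by positivity)
  have hδ1 : δ ≤ 1 := min_le_left _ _
  have hδ2 : δ * (S * 2 ^ m) ≤ c0 m / 2 := by
    have h1 : δ ≤ c0 m / 2 / (S * 2 ^ m + 1) := min_le_right _ _
    rw [le_div_iff₀ (by positivity)] at h1
    have h2 : δ * (S * 2 ^ m + 1) = δ * (S * 2 ^ m) + δ := by ring
    linarith
  set c₁ : ℝ := 2 ^ m * (2 / c0 m) with hc₁
  set κ : ℝ := Real.exp m + S with hκ
  have hc₁0 : 0 < c₁ := by positivity
  have hκ0 : 0 < κ := by positivity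
  set τ : ℝ := max 0 (Real.log (4 * c₁ * κ) / (2 * b₀)) with hτ
  have hτ1 : Real.log (4 * c₁ * κ) ≤ 2 * b₀ * τ := by
    have h1 : Real.log (4 * c₁ * κ) / (2 * b₀) ≤ τ := le_max_right _ _
    rw [div_le_iff₀ (by positivity)] at h1
    linarith
  refine ⟨c₁, κ, δ, τ, hc₁0, hκ0, hδ0, le_max_left _ _, ?_, ?_⟩
  · have h1 : Real.exp (-(2 * b₀ * τ)) ≤ Real.exp (-Real.log (4 * c₁ * κ)) :=
      Real.exp_le_exp.2 (by linarith)
    rw [Real.exp_neg (Real.log (4 * c₁ * κ)), Real.exp_log (by positivity)] at h1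
    calc 4 * c₁ * κ * Real.exp (-(2 * b₀ * τ)) ≤ 4 * c₁ * κ * (4 * c₁ * κ)⁻¹ :=
          mul_le_mul_of_nonneg_left h1 (by positivity)
      _ = 1 := mul_inv_cancel₀ (by positivity)
  · intro L _ hRL
    have hcard : Fintype.card (Site L) = L * L := by
      unfold Site
      rw [Fintype.card_prod, ZMod.card]
    let σ : Fin (L * L) ≃ Site L := (Fintype.equivFinOfCardEq hcard).symm
    have h1 : torH L k = ∑ u : Fin (L * L), ex (pos (R := R) (n := n) (σ u)) k := by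
      unfold torH
      exact (σ.sum_comp fun u => ex (pos (R := R) (n := n) u) k).symm
    rw [h1]
    exact dec_loc (fun u => pos_inj hRL (σ u)) (fun _ => k) (fun _ => le_rfl) hS0 hδ0 hδ1 hδ2

theorem family (hR : 0 < R) (e : Fin d ≃ (Fin n → Fin 2)) (J : BV R n → BV R n → ℝ)
    (a c : BV R n → BV R n → ℂ) (g : BV R n → ℂ) (b : BV R n → ℝ)
    (hJ : ∀ v w, v ≠ w → ‖a v w‖ + ‖c v w‖ ≤ 2 * J v w)
    (b₀ : ℝ) (hb₀ : 0 < b₀) (hb : ∀ i : Fin n, b₀ ≤ ∑ y : Fin R × Fin R, b (y, i)) :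
    ∃ Ψ : ∀ L : ℕ, (Site L → Fin d) → ℂ,
      GappedFamily (toBox e (HM J a c g b)) (2 * b₀) Ψ ∧
        ∃ C : ℝ, SmallPartition (toBox e (HM J a c g b)) Ψ 1 C := by
  classical
  set k := HM J a c g b with hk
  have hkh : k.IsHermitian := HM_herm J a c g b
  obtain ⟨c₁, κ, δ, τ, hc₁, hκ, hδ, hτ0, hτ, hdec⟩ := consts k hb₀
  set K : ℝ := 16 * c₁ * κ ^ 2 / δ * Real.exp (2 * b₀ * τ) / (2 * b₀) with hK
  have hK0 : 0 < K := by positivity
  set C : ℝ := K + 2 * τ + 1 / b₀ with hC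
  have key : ∀ (L : ℕ) [NeZero L], max 3 R ≤ L → ∃ ψ : (Site L → Fin d) → ℂ,
      normSq ψ = 1 ∧ IsGappedGround (ham (toBox e k) L) (2 * b₀) ψ ∧
        ∀ hH : (ham (toBox e k) L).IsHermitian, ∃ β : ℝ, 0 ≤ β ∧ β ≤ C * Real.log L ^ 1 ∧
          partition hH (energy (ham (toBox e k) L) ψ) β ≤ Real.exp (C * Real.log L ^ 1) := by
    intro L _ hL
    have hL3 : 3 ≤ L := (le_max_left _ _).trans hL
    have hRL : R ≤ L := (le_max_right _ _).trans hL
    have hA : (torH L k).IsHermitian := torH_herm e k hkh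
    have hF : Flow hA b₀ := torH_flow hRL J a c g b hJ b₀ hb₀ hb hA
    obtain ⟨Ω, hΩ1, hΩg, hnz⟩ := ground hb₀ hF
    have hcomp := gapped_comp (cfgE e) (torH L k) (2 * b₀) Ω hΩg
    have hn1 : normSq (Ω ∘ cfgE e) = 1 := by rw [normSq_comp, hΩ1]
    refine ⟨Ω ∘ cfgE e, hn1, ?_, ?_⟩
    · rw [ham_toBox]
      exact hcomp
    · intro hH
      obtain ⟨E, hE, hsimple, hgap⟩ := hΩg
      have hEE : energy (ham (toBox e k) L) (Ω ∘ cfgE e) = E := by
        unfold energy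
        rw [ham_toBox, mulVec_comp]
        have h1 : torH L k *ᵥ Ω = (E : ℂ) • Ω := hE
        rw [h1]
        have h2 : ((E : ℂ) • Ω) ∘ cfgE e = (E : ℂ) • (Ω ∘ cfgE e) := rfl
        rw [h2, ip_smul_right, ip_self_one _ hn1, mul_one, Complex.ofReal_re]
      obtain ⟨-, -, hmin, -⟩ := eig_facts (torH L k) hA (2 * b₀) (by linarith) Ω hΩ1 E hE hgap
      have hl1 : 1 ≤ Real.log L := log_ge_one hL3
      have hlp : (0 : ℝ) < L := by
        have : (3 : ℝ) ≤ L := by exact_mod_cast hL3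
        linarith
      set t : ℝ := max (2 * τ) (Real.log L / b₀) with ht
      have ht1 : 2 * τ ≤ t := le_max_left _ _
      have ht2 : Real.log L / b₀ ≤ t := le_max_right _ _
      have ht3 : Real.log L ≤ b₀ * t := by
        rw [div_le_iff₀ hb₀] at ht2
        linarith
      refine ⟨t, (by linarith : (0 : ℝ) ≤ 2 * τ).trans ht1, ?_, ?_⟩
      · rw [pow_one]
        refine max_le ?_ ?_
        · calc 2 * τ ≤ C * 1 := by
                rw [hC]
                have : 0 < 1 / b₀ := by positivity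
                linarith
            _ ≤ C * Real.log L := mul_le_mul_of_nonneg_left hl1 (by positivity)
        · calc Real.log L / b₀ = 1 / b₀ * Real.log L := by ring
            _ ≤ C * Real.log L := by
                refine mul_le_mul_of_nonneg_right ?_ (by linarith)
                rw [hC]
                linarith
      · have h1 := part_bound hb₀ hF (hdec L hRL) hτ0 hτ hE hmin hsimple hnz ht1
        have h2 := sum_eig hA hH (cfgE e) (ham_toBox e k).symm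
          (fun x => Real.exp (-(t * (x - E))))
        unfold partition
        rw [hEE, ← h2]
        refine h1.trans (Real.exp_le_exp.2 ?_)
        rw [pow_one]
        have h3 : Real.exp (-(2 * b₀ * t)) ≤ 1 / ((L : ℝ) * L) := by
          have h4 : Real.exp (-(2 * b₀ * t)) ≤ Real.exp (-(Real.log L + Real.log L)) :=
            Real.exp_le_exp.2 (by linarith)
          refine h4.trans (le_of_eq ?_)
          rw [Real.exp_neg, Real.exp_add, Real.exp_log hlp, one_div]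
        calc ((L * L : ℕ) : ℝ) * (16 * c₁ * κ ^ 2 / δ) * Real.exp (2 * b₀ * τ) / (2 * b₀) *
              Real.exp (-(2 * b₀ * t))
            = ((L : ℝ) * L) * K * Real.exp (-(2 * b₀ * t)) := by
              rw [hK]
              push_cast
              ring
          _ ≤ ((L : ℝ) * L) * K * (1 / ((L : ℝ) * L)) :=
              mul_le_mul_of_nonneg_left h3 (by positivity)
          _ = K := by field_simp
          _ ≤ C * 1 := by
              rw [hC]
              have : 0 < 1 / b₀ := by positivity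
              linarith
          _ ≤ C * Real.log L := mul_le_mul_of_nonneg_left hl1 (by positivity)
  have h1 : ∀ L : ℕ, ∃ ψ : (Site L → Fin d) → ℂ, ∀ [NeZero L], max 3 R ≤ L →
      normSq ψ = 1 ∧ IsGappedGround (ham (toBox e k) L) (2 * b₀) ψ ∧
        ∀ hH : (ham (toBox e k) L).IsHermitian, ∃ β : ℝ, 0 ≤ β ∧ β ≤ C * Real.log L ^ 1 ∧
          partition hH (energy (ham (toBox e k) L) ψ) β ≤ Real.exp (C * Real.log L ^ 1) := by
    intro L
    by_cases hL : L = 0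
    · exact ⟨0, fun {h} _ => absurd hL h.out⟩
    · have : NeZero L := ⟨hL⟩
      by_cases hL2 : max 3 R ≤ L
      · obtain ⟨ψ, hψ⟩ := key L hL2
        exact ⟨ψ, fun {_} _ => hψ⟩
      · exact ⟨0, fun {_} h2 => absurd h2 hL2⟩
  choose Ψ hΨ using h1
  refine ⟨Ψ, ⟨hR, toBox_herm e k hkh, by linarith, max 3 R, ?_⟩, C, max 3 R, ?_⟩
  · intro L _ hL
    exact ⟨(hΨ L hL).1, (hΨ L hL).2.1⟩
  · intro L _ hL hH
    exact (hΨ L hL).2.2 hH

/-- the bound does not depend on the choice of the ground vectors -/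
theorem small_transfer {h : BoxOp d R} {Δ Δ' : ℝ} {Ψ Ψ' : ∀ L : ℕ, (Site L → Fin d) → ℂ}
    (hF : GappedFamily h Δ Ψ) (hF' : GappedFamily h Δ' Ψ') {C : ℝ} (hS : SmallPartition h Ψ 1 C) :
    SmallPartition h Ψ' 1 C := by
  obtain ⟨L₁, h1⟩ := hF.ground
  obtain ⟨L₂, h2⟩ := hF'.ground
  obtain ⟨L₃, h3⟩ := hS
  refine ⟨max L₁ (max L₂ L₃), ?_⟩
  intro L _ hL hH
  obtain ⟨n1, g1⟩ := h1 L ((le_max_left _ _).trans hL)
  obtain ⟨n2, g2⟩ := h2 L (((le_max_left _ _).trans (le_max_right _ _)).trans hL)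
  obtain ⟨β, hβ0, hβ, hp⟩ := h3 L (((le_max_right _ _).trans (le_max_right _ _)).trans hL) hH
  obtain ⟨m1, j1, e1⟩ := energy_le hH hF.gap_pos n1 g1
  obtain ⟨m2, j2, e2⟩ := energy_le hH hF'.gap_pos n2 g2
  have he : energy (ham h L) (Ψ' L) = energy (ham h L) (Ψ L) := by
    apply le_antisymm
    · rw [← e1]
      exact m2 j1
    · rw [← e2]
      exact m1 j2
  exact ⟨β, hβ0, hβ, by rw [he]; exact hp⟩

theorem main (hR : 0 < R) (e : Fin d ≃ (Fin n → Fin 2)) (J : BV R n → BV R n → ℝ)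
    (a c : BV R n → BV R n → ℂ) (g : BV R n → ℂ) (b : BV R n → ℝ)
    (hJ : ∀ v w, v ≠ w → ‖a v w‖ + ‖c v w‖ ≤ 2 * J v w)
    (b₀ : ℝ) (hb₀ : 0 < b₀) (hb : ∀ i : Fin n, b₀ ≤ ∑ y : Fin R × Fin R, b (y, i)) :
    (∃ Ψ : ∀ L : ℕ, (Site L → Fin d) → ℂ,
      GappedFamily (toBox e (HM J a c g b)) (2 * b₀) Ψ) ∧
    ∀ (Δ : ℝ) (Ψ : ∀ L : ℕ, (Site L → Fin d) → ℂ),
      GappedFamily (toBox e (HM J a c g b)) Δ Ψ →
        ∀ κ : ℝ, 0 < κ → ∃ C : ℝ, Approx Ψ 1 C fun L => (L : ℝ) ^ (-κ) := by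
  obtain ⟨Ψ₀, hF₀, C, hC⟩ := family hR e J a c g b hJ b₀ hb₀ hb
  refine ⟨⟨Ψ₀, hF₀⟩, fun Δ Ψ hF => ?_⟩
  exact (Pool.Agent.Results.MP_953b23_mp.PolynomialScaling.result.2.2.1 d R _ _ Ψ hF 1 C
    le_rfl (small_transfer hF₀ hF hC)).1

end Pool.Agent.KS6_99.LY
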