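import Pool.Agent.KS6_99.LY.Semi

/-!
The semigroup of a Lee-Yang Hamiltonian: it preserves the absence of zeros and contracts.
-/

set_option autoImplicit false
set_option linter.unusedSectionVars false

open scoped BigOperators Matrix
open Finset Pool.Agent.TH235.PP

namespace Pool.Agent.KS6_99.LY

variable {V : Type*} [Fintype V] [DecidableEq V]

section euler

variable {n : Type*} [Fintype n] [DecidableEq n]

open scoped Matrix.Norms.L2Operator in
/-- first order approximation of `exp (ε A)` -/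
def Eul (T : ℝ → Matrix n n ℂ) (A : Matrix n n ℂ) (C ε₀ : ℝ) : Prop :=
  ∀ ε : ℝ, 0 < ε → ε ≤ ε₀ → ‖T ε - (1 + (ε : ℂ) • A)‖ ≤ C * ε ^ 2

theorem Eul.mul {T T' : ℝ → Matrix n n ℂ} {A A' : Matrix n n ℂ} {C C' ε₀ ε₀' : ℝ}
    (h : Eul T A C ε₀) (h' : Eul T' A' C' ε₀') (hC : 0 ≤ C) (hC' : 0 ≤ C') (hε₀ : 0 < ε₀) :
    ∃ C'' : ℝ, 0 ≤ C'' ∧ Eul (fun ε => T ε * T' ε) (A + A') C'' (min ε₀ ε₀') := by
  open scoped Matrix.Norms.L2Operator in
  have h1 : ‖(1 : Matrix n n ℂ)‖ ≤ 1 := by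
    have h3 := Matrix.l2_opNorm_diagonal (𝕜 := ℂ) (fun _ : n => (1 : ℂ))
    rw [Matrix.diagonal_one] at h3
    rw [h3]
    exact (pi_norm_le_iff_of_nonneg zero_le_one).2 fun _ => by simp
  open scoped Matrix.Norms.L2Operator in
  refine ⟨C * (1 + ε₀ * ‖A'‖ + C' * ε₀ ^ 2) + (1 + ε₀ * ‖A‖) * C' + ‖A‖ * ‖A'‖, by positivity, ?_⟩
  intro ε hε hle
  have hle1 : ε ≤ ε₀ := hle.trans (min_le_left _ _)
  have hle2 : ε ≤ ε₀' := hle.trans (min_le_right _ _)
  have k1 := h ε hε hle1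
  have k2 := h' ε hε hle2
  open scoped Matrix.Norms.L2Operator in
  have nA : ‖(1 : Matrix n n ℂ) + (ε : ℂ) • A‖ ≤ 1 + ε₀ * ‖A‖ := by
    refine (norm_add_le _ _).trans (add_le_add h1 ?_)
    rw [norm_smul, Complex.norm_real, Real.norm_of_nonneg hε.le]
    exact mul_le_mul_of_nonneg_right hle1 (norm_nonneg _)
  open scoped Matrix.Norms.L2Operator in
  have nA' : ‖(1 : Matrix n n ℂ) + (ε : ℂ) • A'‖ ≤ 1 + ε₀ * ‖A'‖ := by
    refine (norm_add_le _ _).trans (add_le_add h1 ?_)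
    rw [norm_smul, Complex.norm_real, Real.norm_of_nonneg hε.le]
    exact mul_le_mul_of_nonneg_right hle1 (norm_nonneg _)
  open scoped Matrix.Norms.L2Operator in
  have nT' : ‖T' ε‖ ≤ 1 + ε₀ * ‖A'‖ + C' * ε₀ ^ 2 := by
    have e : T' ε = (1 + (ε : ℂ) • A') + (T' ε - (1 + (ε : ℂ) • A')) := by abel
    rw [e]
    refine (norm_add_le _ _).trans (add_le_add nA' (k2.trans ?_))
    exact mul_le_mul_of_nonneg_left (pow_le_pow_left₀ hε.le hle1 2) hC'
  have e : T ε * T' ε - (1 + (ε : ℂ) • (A + A')) =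
      (T ε - (1 + (ε : ℂ) • A)) * T' ε + (1 + (ε : ℂ) • A) * (T' ε - (1 + (ε : ℂ) • A')) +
        ((ε : ℂ) * (ε : ℂ)) • (A * A') := by
    rw [smul_add, ← smul_mul_smul_comm]
    generalize (ε : ℂ) • A = X
    generalize (ε : ℂ) • A' = Y
    noncomm_ring
  rw [e]
  open scoped Matrix.Norms.L2Operator in
  calc _ ≤ ‖(T ε - (1 + (ε : ℂ) • A)) * T' ε‖ +
        ‖(1 + (ε : ℂ) • A) * (T' ε - (1 + (ε : ℂ) • A'))‖ + ‖((ε : ℂ) * (ε : ℂ)) • (A * A')‖ :=
        (norm_add_le _ _).trans (add_le_add (norm_add_le _ _) le_rfl)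
    _ ≤ (C * ε ^ 2) * (1 + ε₀ * ‖A'‖ + C' * ε₀ ^ 2) + (1 + ε₀ * ‖A‖) * (C' * ε ^ 2) +
        ε ^ 2 * (‖A‖ * ‖A'‖) := by
        refine add_le_add (add_le_add ?_ ?_) ?_
        · exact (norm_mul_le _ _).trans (mul_le_mul k1 nT' (norm_nonneg _) (by positivity))
        · exact (norm_mul_le _ _).trans (mul_le_mul nA k2 (norm_nonneg _) (by positivity))
        · rw [norm_smul, norm_mul, Complex.norm_real, Real.norm_of_nonneg hε.le, ← sq]
          exact mul_le_mul_of_nonneg_left (norm_mul_le _ _) (sq_nonneg _)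
    _ = _ := by ring

end euler

/-- `A` generates operators which preserve the absence of zeros -/
def Gen (A : Matrix (V → Fin 2) (V → Fin 2) ℂ) : Prop :=
  ∃ (T : ℝ → Matrix (V → Fin 2) (V → Fin 2) ℂ) (C ε₀ : ℝ), 0 ≤ C ∧ 0 < ε₀ ∧ Eul T A C ε₀ ∧
    ∀ ε : ℝ, 0 < ε → ε ≤ ε₀ → ∀ x, NV x → NV (T ε *ᵥ x)

theorem Gen.add {A A' : Matrix (V → Fin 2) (V → Fin 2) ℂ} (h : Gen A) (h' : Gen A') :
    Gen (A + A') := by
  obtain ⟨T, C, ε₀, hC, hε₀, h1, h2⟩ := h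
  obtain ⟨T', C', ε₀', hC', hε₀', h1', h2'⟩ := h'
  obtain ⟨C'', hC'', h3⟩ := h1.mul h1' hC hC' hε₀
  refine ⟨_, C'', min ε₀ ε₀', hC'', lt_min hε₀ hε₀', h3, ?_⟩
  intro ε hε hle x hx
  rw [← Matrix.mulVec_mulVec]
  exact h2 ε hε (hle.trans (min_le_left _ _)) _ (h2' ε hε (hle.trans (min_le_right _ _)) x hx)

theorem Gen.zero : Gen (0 : Matrix (V → Fin 2) (V → Fin 2) ℂ) := by
  refine ⟨fun _ => 1, 0, 1, le_rfl, one_pos, ?_, ?_⟩
  · intro ε _ _
    open scoped Matrix.Norms.L2Operator in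
    simp
  · intro ε _ _ x hx
    rw [Matrix.one_mulVec]
    exact hx

theorem Gen.sum {ι : Type*} (s : Finset ι) (A : ι → Matrix (V → Fin 2) (V → Fin 2) ℂ)
    (h : ∀ i ∈ s, Gen (A i)) : Gen (∑ i ∈ s, A i) := by
  classical
  induction s using Finset.induction_on with
  | empty =>
    rw [Finset.sum_empty]
    exact Gen.zero
  | insert i s hi ih =>
    rw [Finset.sum_insert hi]
    exact (h i (mem_insert_self _ _)).add (ih fun j hj => h j (mem_insert_of_mem hj))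

theorem Gen.pair {v w : V} (hvw : v ≠ w) (J : ℝ) (a c : ℂ) (hJ : ‖a‖ + ‖c‖ ≤ 2 * J) :
    Gen (PG v w J a c) := by
  have hJ0 : 0 ≤ J := by
    have := norm_nonneg a
    have := norm_nonneg c
    linarith
  refine ⟨fun ε => 1 + (ε : ℂ) • PG v w J a c, 0, 1 / (J + 1), le_rfl, by positivity, ?_, ?_⟩
  · intro ε _ _
    open scoped Matrix.Norms.L2Operator in
    simp
  · intro ε hε hle x hx
    apply hx.pair hvw J a c hJ ε hε.le
    rw [le_div_iff₀ (by positivity)] at hle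
    linarith

theorem Gen.site (v : V) (g : ℂ) : Gen (SG v g) := by
  have hg := norm_nonneg g
  refine ⟨fun ε => 1 + (ε : ℂ) • SG v g, 0, 1 / (‖g‖ + 1), le_rfl, by positivity, ?_, ?_⟩
  · intro ε _ _
    open scoped Matrix.Norms.L2Operator in
    simp
  · intro ε hε hle x hx
    apply hx.site v g ε hε.le
    rw [le_div_iff₀ (by positivity)] at hle
    linarith

/-- the longitudinal fields -/
noncomputable def DG (b : V → ℝ) : Matrix (V → Fin 2) (V → Fin 2) ℂ :=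
  Matrix.diagonal fun s => ((∑ v, b v * sg (s v) : ℝ) : ℂ)

theorem EG_eul (b : V → ℝ) : ∃ C ε₀ : ℝ, 0 ≤ C ∧ 0 < ε₀ ∧ Eul (fun ε => EG ε b) (DG b) C ε₀ := by
  set B : ℝ := ∑ v, |b v| with hB
  have hB0 : 0 ≤ B := Finset.sum_nonneg fun _ _ => abs_nonneg _
  have hb : ∀ s : V → Fin 2, |∑ v, b v * sg (s v)| ≤ B := by
    intro s
    refine (Finset.abs_sum_le_sum_abs _ _).trans (Finset.sum_le_sum fun v _ => ?_)
    rw [abs_mul]
    have : |sg (s v)| ≤ 1 := by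
      unfold sg
      split_ifs <;> simp
    exact mul_le_of_le_one_right (abs_nonneg _) this
  refine ⟨B ^ 2, 1 / (B + 1), by positivity, by positivity, ?_⟩
  intro ε hε hle
  have e : EG ε b - (1 + (ε : ℂ) • DG b) = Matrix.diagonal fun s : V → Fin 2 =>
      ((Real.exp (ε * ∑ v, b v * sg (s v)) - 1 - ε * ∑ v, b v * sg (s v) : ℝ) : ℂ) := by
    ext s t
    unfold EG DG
    by_cases h : s = t
    · subst h
      rw [Matrix.sub_apply, Matrix.add_apply, Matrix.smul_apply, Matrix.diagonal_apply_eq,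
        Matrix.diagonal_apply_eq, Matrix.diagonal_apply_eq, Matrix.one_apply_eq, smul_eq_mul]
      push_cast
      ring
    · rw [Matrix.sub_apply, Matrix.add_apply, Matrix.smul_apply, Matrix.diagonal_apply_ne _ h,
        Matrix.diagonal_apply_ne _ h, Matrix.diagonal_apply_ne _ h, Matrix.one_apply_ne h,
        smul_zero, add_zero, sub_zero]
  rw [e]
  open scoped Matrix.Norms.L2Operator in
  rw [Matrix.l2_opNorm_diagonal, pi_norm_le_iff_of_nonneg (by positivity)]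
  intro s
  rw [Complex.norm_real, Real.norm_eq_abs]
  have h1 : |ε * ∑ v, b v * sg (s v)| ≤ 1 := by
    rw [abs_mul, abs_of_pos hε]
    rw [le_div_iff₀ (by positivity)] at hle
    calc ε * |∑ v, b v * sg (s v)| ≤ ε * (B + 1) :=
          mul_le_mul_of_nonneg_left ((hb s).trans (by linarith)) hε.le
      _ ≤ 1 := hle
  refine (Real.abs_exp_sub_one_sub_id_le h1).trans ?_
  have h2 : (∑ v, b v * sg (s v)) ^ 2 ≤ B ^ 2 := by
    rw [← sq_abs]
    exact pow_le_pow_left₀ (abs_nonneg _) (hb s) 2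
  calc (ε * ∑ v, b v * sg (s v)) ^ 2 = ε ^ 2 * (∑ v, b v * sg (s v)) ^ 2 := by ring
    _ ≤ ε ^ 2 * B ^ 2 := mul_le_mul_of_nonneg_left h2 (sq_nonneg _)
    _ = B ^ 2 * ε ^ 2 := by ring

/-- the semigroup preserves the absence of zeros and contracts -/
structure Flow {A : Matrix (V → Fin 2) (V → Fin 2) ℂ} (hA : A.IsHermitian) (b₀ : ℝ) : Prop where
  nv : ∀ t : ℝ, 0 ≤ t → ∀ x, NV x → NV (SS hA t *ᵥ x)
  disc : ∀ t : ℝ, 0 ≤ t → ∀ x y (c : ℂ) (ρ : ℝ), NV x → Disc x y c ρ →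
    Disc (SS hA t *ᵥ x) (SS hA t *ᵥ y) c ρ
  osc : ∀ t : ℝ, 0 ≤ t → ∀ x y (M : ℝ), NV x → Osc x y M →
    Osc (SS hA t *ᵥ x) (SS hA t *ᵥ y) (M * Real.exp (-(2 * b₀ * t)))

theorem NV.osc {x : (V → Fin 2) → ℂ} (hx : NV x) (y : (V → Fin 2) → ℂ) :
    ∃ M : ℝ, 0 ≤ M ∧ Osc x y M := by
  obtain ⟨m, hm, h1⟩ := hx.lower
  obtain ⟨M, hM, h2⟩ := upper y
  refine ⟨2 * M / m, by positivity, ?_⟩
  intro z z' hz hz'
  refine (norm_sub_le _ _).trans ?_
  rw [norm_mul, norm_mul]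
  have k1 := mul_le_mul_of_nonneg_right (h2 z hz) (norm_nonneg (pol x z'))
  have k2 := mul_le_mul_of_nonneg_right (h2 z' hz') (norm_nonneg (pol x z))
  have k3 : M * ‖pol x z'‖ ≤ M / m * (‖pol x z‖ * ‖pol x z'‖) := by
    have := mul_le_mul_of_nonneg_left (h1 z hz) (mul_nonneg (div_nonneg hM hm.le)
      (norm_nonneg (pol x z')))
    calc M * ‖pol x z'‖ = M / m * ‖pol x z'‖ * m := by field_simp
      _ ≤ M / m * ‖pol x z'‖ * ‖pol x z‖ := this
      _ = _ := by ring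
  have k4 : M * ‖pol x z‖ ≤ M / m * (‖pol x z‖ * ‖pol x z'‖) := by
    have := mul_le_mul_of_nonneg_left (h1 z' hz') (mul_nonneg (div_nonneg hM hm.le)
      (norm_nonneg (pol x z)))
    calc M * ‖pol x z‖ = M / m * ‖pol x z‖ * m := by field_simp
      _ ≤ M / m * ‖pol x z‖ * ‖pol x z'‖ := this
      _ = _ := by ring
  calc _ ≤ M / m * (‖pol x z‖ * ‖pol x z'‖) + M / m * (‖pol x z‖ * ‖pol x z'‖) := by linarith
    _ = 2 * M / m * (‖pol x z‖ * ‖pol x z'‖) := by ring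

/-- the vector of all spins up -/
noncomputable def up : (V → Fin 2) → ℂ := Pi.single 0 1

theorem pol_up (z : V → ℂ) : pol up z = 1 := by
  unfold pol up
  rw [Finset.sum_eq_single 0]
  · rw [Pi.single_eq_same, one_mul]
    unfold mon
    simp
  · intro s _ hs
    rw [Pi.single_eq_of_ne hs, zero_mul]
  · intro h
    exact absurd (mem_univ _) h

theorem flow {A : Matrix (V → Fin 2) (V → Fin 2) ℂ} (hA : A.IsHermitian) (G : Matrix (V → Fin 2) (V → Fin 2) ℂ)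
    (b : V → ℝ) (b₀ : ℝ) (hG : Gen G) (hAG : A = -(G + DG b)) (hb : ∀ v, b₀ ≤ b v) (hb₀ : 0 < b₀) :
    Flow hA b₀ := by
  obtain ⟨T₀, C₀, ε₁, hC₀, hε₁, h1, h2⟩ := hG
  obtain ⟨C₁, ε₂, hC₁, hε₂, h3⟩ := EG_eul b
  obtain ⟨C, hC, h4⟩ := h3.mul h1 hC₁ hC₀ hε₂
  set T : ℝ → Matrix (V → Fin 2) (V → Fin 2) ℂ := fun ε => EG ε b * T₀ ε with hT
  have hε₀ : 0 < min ε₂ ε₁ := lt_min hε₂ hε₁
  have hEnl : ∀ ε : ℝ, 0 < ε → ε ≤ min ε₂ ε₁ → Enl (T ε) (Real.exp (2 * (ε * b₀))) := by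
    intro ε hε hle x hx z hz
    rw [hT, ← Matrix.mulVec_mulVec]
    exact (h2 ε hε (hle.trans (min_le_right _ _)) x hx).field b b₀ ε hε.le hb z hz
  open scoped Matrix.Norms.L2Operator in
  have hTE : ∀ ε : ℝ, 0 < ε → ε ≤ min ε₂ ε₁ → ‖T ε - (1 - (ε : ℂ) • A)‖ ≤ C * ε ^ 2 := by
    intro ε hε hle
    have e : (1 : Matrix (V → Fin 2) (V → Fin 2) ℂ) - (ε : ℂ) • A = 1 + (ε : ℂ) • (DG b + G) := by
      rw [hAG, smul_neg, sub_neg_eq_add, add_comm G]
    rw [e]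
    exact h4 ε hε hle
  have hev : ∀ t : ℝ, ∀ᶠ m : ℕ in Filter.atTop, t / ((m : ℝ) + 1) ≤ min ε₂ ε₁ := by
    intro t
    have h2 : Filter.Tendsto (fun m : ℕ => t / ((m : ℝ) + 1)) Filter.atTop (nhds 0) :=
      tendsto_const_nhds.div_atTop (Filter.tendsto_atTop_add_const_right _ _ tendsto_natCast_atTop_atTop)
    exact (h2.eventually (ge_mem_nhds hε₀))
  have hlimp : ∀ (t : ℝ), 0 < t → ∀ (x : (V → Fin 2) → ℂ) (z : V → ℂ),
      Filter.Tendsto (fun m : ℕ => pol ((T (t / ((m : ℝ) + 1)) ^ (m + 1)) *ᵥ x) z) Filter.atTop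
        (nhds (pol (SS hA t *ᵥ x) z)) := by
    intro t ht x z
    exact ((pol_cont_left z).tendsto _).comp (trotter hA T C _ hC hε₀ hTE t ht x)
  have hstep : ∀ (t : ℝ), 0 < t → ∀ᶠ m : ℕ in Filter.atTop,
      Enl (T (t / ((m : ℝ) + 1))) (Real.exp (2 * (t / ((m : ℝ) + 1) * b₀))) ∧
      1 < Real.exp (2 * (t / ((m : ℝ) + 1) * b₀)) ∧
      Real.exp (2 * (t / ((m : ℝ) + 1) * b₀)) ^ (m + 1) = Real.exp (2 * b₀ * t) := by
    intro t ht
    filter_upwards [hev t] with m hm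
    have hm1 : (0 : ℝ) < (m : ℝ) + 1 := by positivity
    refine ⟨hEnl _ (div_pos ht hm1) hm, ?_, ?_⟩
    · apply Real.one_lt_exp_iff.2
      positivity
    · rw [← Real.exp_nat_mul]
      congr 1
      push_cast
      field_simp
  have hosc : ∀ t : ℝ, 0 < t → ∀ x y (M : ℝ), NV x → Osc x y M →
      Osc (SS hA t *ᵥ x) (SS hA t *ᵥ y) (M * Real.exp (-(2 * b₀ * t))) := by
    intro t ht x y M hx h z z' hz hz'
    refine le_of_tendsto_of_tendsto
      (((hlimp t ht y z).mul (hlimp t ht x z')).sub ((hlimp t ht y z').mul (hlimp t ht x z))).norm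
      (((hlimp t ht x z).norm.mul (hlimp t ht x z').norm).const_mul _) ?_
    filter_upwards [hstep t ht] with m hm
    obtain ⟨e1, e2, e3⟩ := hm
    have h5 := (iterate e1 e2 (m + 1) hx).2.2 y M h z z' hz hz'
    rw [e3] at h5
    rw [Real.exp_neg, ← div_eq_mul_inv]
    exact h5
  refine ⟨?_, ?_, ?_⟩
  · intro t ht x hx
    rcases ht.eq_or_lt with rfl | ht
    · rw [SS_zero, Matrix.one_mulVec]
      exact hx
    · obtain ⟨M, hM, hM2⟩ := hx.osc (SS hA (-t) *ᵥ up)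
      have h5 := hosc t ht _ _ M hx hM2
      rw [Matrix.mulVec_mulVec, SS_neg, Matrix.one_mulVec] at h5
      intro z hz h0
      have h6 : ∀ z' : V → ℂ, (∀ v, ‖z' v‖ ≤ 1) → pol (SS hA t *ᵥ x) z' = 0 := by
        intro z' hz'
        have h7 := h5 z z' hz hz'
        rw [h0, pol_up, pol_up, norm_zero, zero_mul, mul_zero, one_mul, sub_zero, mul_zero] at h7
        exact norm_le_zero_iff.1 h7
      have h8 := pol_inj h6
      have h9 : x = 0 := by
        have e : x = SS hA (-t) *ᵥ (SS hA t *ᵥ x) := by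
          rw [Matrix.mulVec_mulVec, ← SS_add, neg_add_cancel, SS_zero, Matrix.one_mulVec]
        rw [e, h8, Matrix.mulVec_zero]
      exact hx 0 (by simp) (by rw [h9, pol_zero])
  · intro t ht x y c ρ hx h
    rcases ht.eq_or_lt with rfl | ht
    · rw [SS_zero, Matrix.one_mulVec, Matrix.one_mulVec]
      exact h
    · intro z hz
      refine le_of_tendsto_of_tendsto
        (((hlimp t ht y z)).sub ((hlimp t ht x z).const_mul c)).norm
        ((hlimp t ht x z).norm.const_mul _) ?_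
      filter_upwards [hstep t ht] with m hm
      obtain ⟨e1, e2, e3⟩ := hm
      exact (iterate e1 e2 (m + 1) hx).2.1 y c ρ h z hz
  · intro t ht x y M hx h
    rcases ht.eq_or_lt with rfl | ht
    · rw [SS_zero, Matrix.one_mulVec, Matrix.one_mulVec]
      simpa using h
    · exact hosc t ht x y M hx h

end Pool.Agent.KS6_99.LY
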