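import Pool.Agent.KS6_99.LY.Flow

/-!
The ground state of a Lee-Yang Hamiltonian is unique, with a gap at least twice the field.
-/

set_option autoImplicit false
set_option linter.unusedSectionVars false

open scoped BigOperators Matrix
open Finset Pool.Agent.TH235.PP

namespace Pool.Agent.KS6_99.LY

variable {V : Type*} [Fintype V] [DecidableEq V]

theorem NV.smul {x : (V → Fin 2) → ℂ} (hx : NV x) {c : ℂ} (hc : c ≠ 0) : NV (c • x) := by
  intro z hz
  rw [pol_smul]
  exact mul_ne_zero hc (hx z hz)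

theorem NV_up : NV (up : (V → Fin 2) → ℂ) := by
  intro z _
  rw [pol_up]
  exact one_ne_zero

section limit

variable {n : Type*} [Fintype n] [DecidableEq n] {A : Matrix n n ℂ} (hA : A.IsHermitian)

/-- the projection of `x` to the eigenspace of `E` -/
noncomputable def pe (E : ℝ) (x : n → ℂ) : n → ℂ :=
  UU hA *ᵥ fun j => if hA.eigenvalues j = E then co hA x j else 0

theorem co_UU (u : n → ℂ) : co hA (UU hA *ᵥ u) = u := by
  unfold co
  rw [Matrix.mulVec_mulVec, UU_left, Matrix.one_mulVec]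

theorem co_smul (c : ℂ) (x : n → ℂ) (j : n) : co hA (c • x) j = c * co hA x j := by
  unfold co
  rw [Matrix.mulVec_smul]
  rfl

theorem co_pe (E : ℝ) (x : n → ℂ) (j : n) :
    co hA (pe hA E x) j = if hA.eigenvalues j = E then co hA x j else 0 := by
  unfold pe
  rw [co_UU]

theorem pe_eig (E : ℝ) (x : n → ℂ) : A *ᵥ pe hA E x = (E : ℂ) • pe hA E x := by
  apply co_inj hA
  funext j
  have h2 := co_FC hA (fun x => x) (pe hA E x) j
  rw [FC_id] at h2
  rw [h2, co_smul, co_pe]
  split_ifs with h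
  · rw [h]
  · rw [mul_zero, mul_zero]

theorem pe_lim (E : ℝ) (x : n → ℂ) (hE : ∀ j, E ≤ hA.eigenvalues j) :
    Filter.Tendsto (fun t : ℝ => ((Real.exp (t * E) : ℝ) : ℂ) • (SS hA t *ᵥ x)) Filter.atTop
      (nhds (pe hA E x)) := by
  have e : ∀ t : ℝ, ((Real.exp (t * E) : ℝ) : ℂ) • (SS hA t *ᵥ x) =
      UU hA *ᵥ fun j => ((Real.exp (-(t * (hA.eigenvalues j - E))) : ℝ) : ℂ) * co hA x j := by
    intro t
    apply co_inj hA
    funext j
    rw [co_UU, co_smul]
    unfold SS
    rw [co_FC, ← mul_assoc, ← Complex.ofReal_mul, ← Real.exp_add]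
    congr 3
    ring
  rw [funext e]
  have hc : Continuous fun u : n → ℂ => UU hA *ᵥ u := Continuous.matrix_mulVec continuous_const continuous_id
  refine (hc.tendsto _).comp ?_
  rw [tendsto_pi_nhds]
  intro j
  split_ifs with h
  · rw [h]
    simp
  · have h1 : 0 < hA.eigenvalues j - E := sub_pos.2 (lt_of_le_of_ne (hE j) (Ne.symm h))
    have h2 : Filter.Tendsto (fun t : ℝ => Real.exp (-(t * (hA.eigenvalues j - E)))) Filter.atTop
        (nhds 0) := by
      apply Real.tendsto_exp_neg_atTop_nhds_zero.comp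
      exact Filter.tendsto_id.atTop_mul_const h1
    have h3 := ((Complex.continuous_ofReal.tendsto 0).comp h2).mul_const (co hA x j)
    simpa using h3

end limit

theorem ground {A : Matrix (V → Fin 2) (V → Fin 2) ℂ} {hA : A.IsHermitian} {b₀ : ℝ} (hb₀ : 0 < b₀)
    (hF : Flow hA b₀) :
    ∃ Ω : (V → Fin 2) → ℂ, normSq Ω = 1 ∧ IsGappedGround A (2 * b₀) Ω ∧
      ∀ z : V → ℂ, (∀ v, ‖z v‖ < 1) → pol Ω z ≠ 0 := by
  obtain ⟨j₀, -, hj₀⟩ := Finset.exists_min_image (univ : Finset (V → Fin 2)) hA.eigenvalues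
    ⟨0, mem_univ _⟩
  set E := hA.eigenvalues j₀ with hE
  have hmin : ∀ j, E ≤ hA.eigenvalues j := fun j => hj₀ j (mem_univ j)
  -- the initial vector
  obtain ⟨x₀, hx₀, hc0⟩ : ∃ x₀ : (V → Fin 2) → ℂ, NV x₀ ∧ co hA x₀ j₀ ≠ 0 := by
    by_cases h0 : co hA (up : (V → Fin 2) → ℂ) j₀ = 0
    · set w : (V → Fin 2) → ℂ := UU hA *ᵥ Pi.single j₀ 1 with hw
      obtain ⟨M, hM, hup⟩ := upper w
      set δ : ℝ := 1 / (2 * (M + 1)) with hδ
      have hδ0 : 0 < δ := by positivity
      refine ⟨up + (δ : ℂ) • w, ?_, ?_⟩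
      · intro z hz h1
        rw [pol_add, pol_smul, pol_up] at h1
        have h2 : ‖(δ : ℂ) * pol w z‖ ≤ 1 / 2 := by
          rw [norm_mul, Complex.norm_real, Real.norm_of_nonneg hδ0.le]
          calc δ * ‖pol w z‖ ≤ δ * (M + 1) :=
                mul_le_mul_of_nonneg_left ((hup z hz).trans (by linarith)) hδ0.le
            _ = 1 / 2 := by rw [hδ]; field_simp
        have h3 : (δ : ℂ) * pol w z = -1 := by linear_combination h1
        rw [h3, norm_neg, norm_one] at h2
        norm_num at h2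
      · have e : co hA (up + (δ : ℂ) • w) j₀ = co hA up j₀ + δ * co hA w j₀ := by
          unfold co
          rw [Matrix.mulVec_add, Matrix.mulVec_smul]
          rfl
        rw [e, h0, hw, co_UU, Pi.single_eq_same, mul_one, zero_add]
        exact_mod_cast hδ0.ne'
    · exact ⟨up, NV_up, h0⟩
  set w : (V → Fin 2) → ℂ := pe hA E x₀ with hw
  have hw0 : w ≠ 0 := by
    intro h
    have h1 := co_pe hA E x₀ j₀
    rw [← hw, h, if_pos hE.symm] at h1
    apply hc0
    rw [← h1]
    unfold co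
    simp
  have hlim := pe_lim hA E x₀ hmin
  have hlp : ∀ z : V → ℂ, Filter.Tendsto
      (fun t : ℝ => pol (((Real.exp (t * E) : ℝ) : ℂ) • (SS hA t *ᵥ x₀)) z) Filter.atTop
      (nhds (pol w z)) := fun z => ((pol_cont_left z).tendsto _).comp hlim
  -- all low eigenvectors are multiples of `w`
  have hlow : ∀ (E' : ℝ) (φ : (V → Fin 2) → ℂ), A *ᵥ φ = (E' : ℂ) • φ → E' < E + 2 * b₀ →
      ∃ c : ℂ, φ = c • w := by
    intro E' φ hφ hE'
    obtain ⟨M, hM, hosc⟩ := hx₀.osc φ
    have hprop : ∀ z z' : V → ℂ, (∀ v, ‖z v‖ ≤ 1) → (∀ v, ‖z' v‖ ≤ 1) →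
        pol φ z * pol w z' - pol φ z' * pol w z = 0 := by
      intro z z' hz hz'
      have hexp : Filter.Tendsto (fun t : ℝ => Real.exp (-(t * (2 * b₀ - (E' - E))))) Filter.atTop
          (nhds 0) := by
        apply Real.tendsto_exp_neg_atTop_nhds_zero.comp
        exact Filter.tendsto_id.atTop_mul_const (by linarith)
      have hR : Filter.Tendsto (fun t : ℝ => M * Real.exp (-(t * (2 * b₀ - (E' - E)))) *
          (‖pol (((Real.exp (t * E) : ℝ) : ℂ) • (SS hA t *ᵥ x₀)) z‖ *
            ‖pol (((Real.exp (t * E) : ℝ) : ℂ) • (SS hA t *ᵥ x₀)) z'‖)) Filter.atTop (nhds 0) := by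
        have h1 := (hexp.const_mul M).mul ((hlp z).norm.mul (hlp z').norm)
        simpa using h1
      have hL : Filter.Tendsto (fun t : ℝ =>
          ‖pol φ z * pol (((Real.exp (t * E) : ℝ) : ℂ) • (SS hA t *ᵥ x₀)) z' -
            pol φ z' * pol (((Real.exp (t * E) : ℝ) : ℂ) • (SS hA t *ᵥ x₀)) z‖) Filter.atTop
          (nhds ‖pol φ z * pol w z' - pol φ z' * pol w z‖) :=
        (((hlp z').const_mul _).sub ((hlp z).const_mul _)).norm
      have h0 : ‖pol φ z * pol w z' - pol φ z' * pol w z‖ ≤ 0 := by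
        refine le_of_tendsto_of_tendsto hL hR ?_
        filter_upwards [Filter.eventually_ge_atTop 0] with t ht
        have h1 := hF.osc t ht x₀ φ M hx₀ hosc z z' hz hz'
        have e1 : SS hA t *ᵥ φ = ((Real.exp (-(t * E')) : ℝ) : ℂ) • φ := by
          unfold SS
          rw [FC_eig hA hφ]
        rw [e1] at h1
        simp only [pol_smul] at h1 ⊢
        set a := pol (SS hA t *ᵥ x₀) z with ha
        set a' := pol (SS hA t *ᵥ x₀) z' with ha'
        have e2 : pol φ z * (((Real.exp (t * E) : ℝ) : ℂ) * a') -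
            pol φ z' * (((Real.exp (t * E) : ℝ) : ℂ) * a) =
            ((Real.exp (t * E) * Real.exp (t * E') : ℝ) : ℂ) *
              (((Real.exp (-(t * E')) : ℝ) : ℂ) * pol φ z * a' -
                ((Real.exp (-(t * E')) : ℝ) : ℂ) * pol φ z' * a) := by
          have e3 : ((Real.exp (t * E') : ℝ) : ℂ) * ((Real.exp (-(t * E')) : ℝ) : ℂ) = 1 := by
            rw [← Complex.ofReal_mul, ← Real.exp_add, add_neg_cancel, Real.exp_zero,
              Complex.ofReal_one]
          rw [Complex.ofReal_mul]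
          linear_combination (-(((Real.exp (t * E) : ℝ) : ℂ) * (pol φ z * a' - pol φ z' * a))) * e3
        rw [e2, norm_mul, Complex.norm_real, Real.norm_of_nonneg (by positivity), norm_mul, norm_mul,
          Complex.norm_real, Real.norm_of_nonneg (Real.exp_pos _).le]
        refine (mul_le_mul_of_nonneg_left h1 (by positivity)).trans (le_of_eq ?_)
        have e4 : Real.exp (-(t * (2 * b₀ - (E' - E)))) * Real.exp (t * E) =
            Real.exp (t * E') * Real.exp (-(2 * b₀ * t)) := by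
          rw [← Real.exp_add, ← Real.exp_add]
          congr 1
          ring
        linear_combination (-(M * Real.exp (t * E) * ‖a‖ * ‖a'‖)) * e4
      exact norm_le_zero_iff.1 h0
    obtain ⟨z', hz', hne⟩ : ∃ z' : V → ℂ, (∀ v, ‖z' v‖ ≤ 1) ∧ pol w z' ≠ 0 := by
      by_contra hc
      push Not at hc
      exact hw0 (pol_inj hc)
    refine ⟨pol φ z' / pol w z', ?_⟩
    rw [← sub_eq_zero]
    apply pol_inj
    intro z hz
    rw [pol_sub, pol_smul]
    have h1 := hprop z z' hz hz'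
    field_simp
    linear_combination h1
  have hweig : A *ᵥ w = (E : ℂ) • w := pe_eig hA E x₀
  -- absence of zeros
  have hnz : ∀ z : V → ℂ, (∀ v, ‖z v‖ < 1) → pol w z ≠ 0 := by
    have hb : ∀ (z : V → ℂ) (ρ : ℝ), 0 ≤ ρ → ρ ≤ 1 → (∀ v, ‖z v‖ ≤ ρ) →
        (1 - ρ) ^ (univ : Finset V).card * ‖pol w (zr univ z)‖ ≤ ‖pol w z‖ ∧
          ‖pol w z‖ ≤ 2 ^ (univ : Finset V).card * ‖pol w (zr univ z)‖ := by
      intro z ρ hρ0 hρ hz
      have hz1 : ∀ v, ‖z v‖ ≤ 1 := fun v => (hz v).trans hρ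
      have hnv : ∀ t : ℝ, 0 ≤ t → NV (((Real.exp (t * E) : ℝ) : ℂ) • (SS hA t *ᵥ x₀)) := by
        intro t ht
        apply (hF.nv t ht x₀ hx₀).smul
        exact_mod_cast (Real.exp_pos _).ne'
      constructor
      · refine le_of_tendsto_of_tendsto ((hlp (zr univ z)).norm.const_mul _) (hlp z).norm ?_
        filter_upwards [Filter.eventually_ge_atTop 0] with t ht
        exact ((hnv t ht).bounds hz1 ρ univ (fun v _ => hz v) hρ).1
      · refine le_of_tendsto_of_tendsto (hlp z).norm ((hlp (zr univ z)).norm.const_mul _) ?_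
        filter_upwards [Filter.eventually_ge_atTop 0] with t ht
        exact ((hnv t ht).bounds hz1 ρ univ (fun v _ => hz v) hρ).2
    have hzr : ∀ z : V → ℂ, zr univ z = 0 := by
      intro z
      funext v
      simp [zr]
    have h0 : pol w 0 ≠ 0 := by
      intro h0
      apply hw0
      apply pol_inj
      intro z hz
      have h1 := (hb z 1 zero_le_one le_rfl hz).2
      rw [hzr, h0, norm_zero, mul_zero] at h1
      exact norm_le_zero_iff.1 h1
    intro z hz
    obtain ⟨ρ, hρ0, hρ, hzρ⟩ : ∃ ρ : ℝ, 0 ≤ ρ ∧ ρ < 1 ∧ ∀ v, ‖z v‖ ≤ ρ := by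
      refine ⟨‖z‖, norm_nonneg _, ?_, fun v => norm_le_pi_norm z v⟩
      exact (pi_norm_lt_iff one_pos).2 hz
    intro h1
    have h2 := (hb z ρ hρ0 hρ.le hzρ).1
    rw [hzr, h1, norm_zero] at h2
    have h3 : 0 < (1 - ρ) ^ (univ : Finset V).card * ‖pol w 0‖ :=
      mul_pos (pow_pos (by linarith) _) (norm_pos_iff.2 h0)
    linarith
  -- normalisation
  have hnr : 0 < nr w := by
    rcases (nr_nonneg w).eq_or_lt with h | h
    · exfalso
      apply hw0
      funext s
      have h1 := norm_le_nr w s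
      rw [← h] at h1
      exact norm_le_zero_iff.1 h1
    · exact h
  have hnrc : ((nr w)⁻¹ : ℂ) ≠ 0 := by
    apply inv_ne_zero
    exact_mod_cast hnr.ne'
  refine ⟨((nr w)⁻¹ : ℂ) • w, ?_, ⟨E, ?_, ?_, ?_⟩, ?_⟩
  · rw [← nr_sq, nr_smul, norm_inv, Complex.norm_real, Real.norm_of_nonneg hnr.le,
      inv_mul_cancel₀ hnr.ne', one_pow]
  · rw [Matrix.mulVec_smul, hweig, smul_comm]
  · intro φ hφ
    obtain ⟨c, hc⟩ := hlow E φ hφ (by linarith)
    refine ⟨c * nr w, ?_⟩
    rw [hc, smul_smul]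
    congr 1
    have : (nr w : ℂ) ≠ 0 := by exact_mod_cast hnr.ne'
    field_simp
  · intro E' φ hφ0 hφ
    by_cases hlt : E' < E + 2 * b₀
    · left
      obtain ⟨c, hc⟩ := hlow E' φ hφ hlt
      have hc0 : c ≠ 0 := by
        intro h
        apply hφ0
        rw [hc, h, zero_smul]
      have h1 : A *ᵥ φ = (E : ℂ) • φ := by
        rw [hc, Matrix.mulVec_smul, hweig, smul_comm]
      have h2 : ((E' : ℂ) - (E : ℂ)) • φ = 0 := by
        change A *ᵥ φ = _ at hφ
        rw [sub_smul, ← hφ, h1, sub_self]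
      rcases smul_eq_zero.1 h2 with h3 | h3
      · exact_mod_cast sub_eq_zero.1 h3
      · exact absurd h3 hφ0
    · right
      linarith
  · intro z hz
    rw [pol_smul]
    exact mul_ne_zero hnrc (hnz z hz)

end Pool.Agent.KS6_99.LY
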