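import Pool.Agent.KS6_99.LY.Two

/-!
Gates: operators which preserve the absence of zeros on the closed polydisc.
-/

set_option autoImplicit false
set_option linter.unusedSectionVars false

open scoped BigOperators Matrix
open Finset

namespace Pool.Agent.KS6_99.LY

variable {V : Type*} [Fintype V] [DecidableEq V]

/-- the monomial away from `v` and `w` -/
noncomputable def mE2 (v w : V) (z : V → ℂ) (s : V → Fin 2) : ℂ :=
  ∏ u ∈ (univ.erase v).erase w, mf (s u) (z u)

theorem mon_eq2 {v w : V} (h : v ≠ w) (z : V → ℂ) (s : V → Fin 2) :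
    mon z s = mf (s v) (z v) * mf (s w) (z w) * mE2 v w z s := by
  rw [mon_eq v, mul_assoc]
  congr 1
  exact (Finset.mul_prod_erase (univ.erase v) (fun v => mf (s v) (z v))
    (mem_erase.2 ⟨h.symm, mem_univ w⟩)).symm

/-- the coefficients in two variables -/
noncomputable def cf2 (x : (V → Fin 2) → ℂ) (z : V → ℂ) (v w : V) (i j : Fin 2) : ℂ :=
  ∑ s, if s v = i ∧ s w = j then x s * mE2 v w z s else 0

theorem sum_cf2 (x : (V → Fin 2) → ℂ) (z : V → ℂ) (v w : V) (F : Fin 2 → Fin 2 → ℂ) :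
    ∑ s, x s * (F (s v) (s w) * mE2 v w z s) = ∑ i, ∑ j, F i j * cf2 x z v w i j := by
  unfold cf2
  simp only [Finset.mul_sum]
  rw [Finset.sum_congr rfl fun i _ => Finset.sum_comm, Finset.sum_comm]
  refine Finset.sum_congr rfl fun s _ => ?_
  rw [Finset.sum_eq_single (s v), Finset.sum_eq_single (s w)]
  · rw [if_pos ⟨rfl, rfl⟩]
    ring
  · intro j _ hj
    rw [if_neg (fun h => hj h.2.symm), mul_zero]
  · intro h
    exact absurd (mem_univ _) h
  · intro i _ hi
    refine Finset.sum_eq_zero fun j _ => ?_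
    rw [if_neg (fun h => hi h.1.symm), mul_zero]
  · intro h
    exact absurd (mem_univ _) h

theorem mE2_update (v w : V) (z : V → ℂ) (s : V → Fin 2) (p q : ℂ) :
    mE2 v w (Function.update (Function.update z v p) w q) s = mE2 v w z s := by
  unfold mE2
  refine Finset.prod_congr rfl fun u hu => ?_
  rw [mem_erase, mem_erase] at hu
  rw [Function.update_of_ne hu.1, Function.update_of_ne hu.2.1]

theorem cf2_update (x : (V → Fin 2) → ℂ) (z : V → ℂ) (v w : V) (i j : Fin 2) (p q : ℂ) :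
    cf2 x (Function.update (Function.update z v p) w q) v w i j = cf2 x z v w i j := by
  unfold cf2
  simp only [mE2_update]

theorem pol_split2 {v w : V} (h : v ≠ w) (x : (V → Fin 2) → ℂ) (z : V → ℂ) :
    pol x z = cf2 x z v w 0 0 + z v * cf2 x z v w 1 0 + z w * cf2 x z v w 0 1 +
      z v * z w * cf2 x z v w 1 1 := by
  have h1 := sum_cf2 x z v w (fun i j => mf i (z v) * mf j (z w))
  rw [Fin.sum_univ_two, Fin.sum_univ_two, Fin.sum_univ_two] at h1
  simp only [mf_zero, mf_one] at h1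
  have h2 : pol x z = ∑ s, x s * (mf (s v) (z v) * mf (s w) (z w) * mE2 v w z s) := by
    unfold pol
    exact Finset.sum_congr rfl fun s _ => by rw [mon_eq2 h]
  rw [h2, h1]
  ring

theorem NV.two {x : (V → Fin 2) → ℂ} (hx : NV x) {z : V → ℂ} (hz : ∀ v, ‖z v‖ ≤ 1) {v w : V}
    (h : v ≠ w) : NV2 (cf2 x z v w 0 0) (cf2 x z v w 1 0) (cf2 x z v w 0 1) (cf2 x z v w 1 1) := by
  intro p q hp hq h0
  apply hx (Function.update (Function.update z v p) w q)
  · intro u
    by_cases hu : u = w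
    · rw [hu, Function.update_self]
      exact hq
    · rw [Function.update_of_ne hu]
      by_cases hu2 : u = v
      · rw [hu2, Function.update_self]
        exact hp
      · rw [Function.update_of_ne hu2]
        exact hz u
  · rw [pol_split2 h, cf2_update, cf2_update, cf2_update, cf2_update, Function.update_self,
      Function.update_of_ne h, Function.update_self]
    exact h0

/-- flip the spin at `v` -/
def fl (v : V) (s : V → Fin 2) : V → Fin 2 := Function.update s v (1 - s v)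

theorem one_sub_sub (i : Fin 2) : 1 - (1 - i) = i := by
  fin_cases i <;> rfl

theorem fl_self (v : V) (s : V → Fin 2) : fl v s v = 1 - s v := Function.update_self _ _ _

theorem fl_ne {v w : V} (h : w ≠ v) (s : V → Fin 2) : fl v s w = s w := Function.update_of_ne h _ _

theorem fl_fl (v : V) (s : V → Fin 2) : fl v (fl v s) = s := by
  funext w
  by_cases h : w = v
  · rw [h, fl_self, fl_self, one_sub_sub]
  · rw [fl_ne h, fl_ne h]

theorem fl_comm {v w : V} (h : v ≠ w) (s : V → Fin 2) : fl v (fl w s) = fl w (fl v s) := by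
  funext u
  by_cases h1 : u = v
  · subst h1
    rw [fl_self, fl_ne h, fl_ne h, fl_self]
  · rw [fl_ne h1]
    by_cases h2 : u = w
    · subst h2
      rw [fl_self, fl_self, fl_ne h1]
    · rw [fl_ne h2, fl_ne h2, fl_ne h1]

/-- flip as a permutation -/
def flE (v : V) : Equiv.Perm (V → Fin 2) := ⟨fl v, fl v, fl_fl v, fl_fl v⟩

theorem mE_fl (v : V) (z : V → ℂ) (s : V → Fin 2) : mE v z (fl v s) = mE v z s := by
  unfold mE
  refine Finset.prod_congr rfl fun w hw => ?_
  rw [fl_ne (Finset.ne_of_mem_erase hw)]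

theorem mE2_fl (v w : V) (z : V → ℂ) (s : V → Fin 2) : mE2 v w z (fl v (fl w s)) = mE2 v w z s := by
  unfold mE2
  refine Finset.prod_congr rfl fun u hu => ?_
  rw [mem_erase, mem_erase] at hu
  rw [fl_ne hu.2.1, fl_ne hu.1]

/-- the value of a spin -/
noncomputable def sg (i : Fin 2) : ℝ := if i = 0 then 1 else -1

@[simp] theorem sg_zero : sg 0 = 1 := by simp [sg]

@[simp] theorem sg_one : sg 1 = -1 := by simp [sg]

/-- the amplitudes of the pair terms -/
noncomputable def amp (a c : ℂ) (i j : Fin 2) : ℂ :=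
  if i = j then (if i = 0 then a else (starRingEnd ℂ) a)
  else (if i = 0 then c else (starRingEnd ℂ) c)

@[simp] theorem amp00 (a c : ℂ) : amp a c 0 0 = a := by simp [amp]
@[simp] theorem amp11 (a c : ℂ) : amp a c 1 1 = (starRingEnd ℂ) a := by simp [amp]
@[simp] theorem amp01 (a c : ℂ) : amp a c 0 1 = c := by simp [amp]
@[simp] theorem amp10 (a c : ℂ) : amp a c 1 0 = (starRingEnd ℂ) c := by simp [amp]

/-- the pair term -/
noncomputable def PG (v w : V) (J : ℝ) (a c : ℂ) : Matrix (V → Fin 2) (V → Fin 2) ℂ := fun s t =>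
  (if s = t then ((J * (sg (s v) * sg (s w)) : ℝ) : ℂ) else 0) +
    (if t = fl v (fl w s) then amp a c (s v) (s w) else 0)

/-- the transverse field -/
noncomputable def SG (v : V) (g : ℂ) : Matrix (V → Fin 2) (V → Fin 2) ℂ := fun s t =>
  if t = fl v s then (if s v = 0 then g else (starRingEnd ℂ) g) else 0

theorem PG_mulVec (v w : V) (J : ℝ) (a c : ℂ) (x : (V → Fin 2) → ℂ) (s : V → Fin 2) :
    (PG v w J a c *ᵥ x) s =
      ((J * (sg (s v) * sg (s w)) : ℝ) : ℂ) * x s + amp a c (s v) (s w) * x (fl v (fl w s)) := by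
  unfold PG Matrix.mulVec dotProduct
  simp only [add_mul, Finset.sum_add_distrib, ite_mul, zero_mul, Finset.sum_ite_eq,
    Finset.sum_ite_eq', mem_univ, if_true]

theorem SG_mulVec (v : V) (g : ℂ) (x : (V → Fin 2) → ℂ) (s : V → Fin 2) :
    (SG v g *ᵥ x) s = (if s v = 0 then g else (starRingEnd ℂ) g) * x (fl v s) := by
  unfold SG Matrix.mulVec dotProduct
  simp only [ite_mul, zero_mul, Finset.sum_ite_eq', mem_univ, if_true]

theorem NV.site {x : (V → Fin 2) → ℂ} (hx : NV x) (v : V) (g : ℂ) (ε : ℝ) (hε : 0 ≤ ε)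
    (hg : ε * ‖g‖ < 1) : NV ((1 + (ε : ℂ) • SG v g) *ᵥ x) := by
  intro z hz
  have hlt := hx.cf_lt hz v
  set A := cf x z v 0 with hA
  set B := cf x z v 1 with hB
  have e1 : pol ((1 + (ε : ℂ) • SG v g) *ᵥ x) z =
      (A + (ε * g) * B) + z v * (B + (starRingEnd ℂ) (ε * g) * A) := by
    have h1 : (1 + (ε : ℂ) • SG v g) *ᵥ x = x + (ε : ℂ) • (SG v g *ᵥ x) := by
      rw [Matrix.add_mulVec, Matrix.one_mulVec, Matrix.smul_mulVec]
    have h2 : pol (SG v g *ᵥ x) z = g * B + z v * ((starRingEnd ℂ) g * A) := by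
      unfold pol
      simp only [SG_mulVec]
      rw [← Equiv.sum_comp (flE v)]
      have h3 : ∀ s, (if (flE v) s v = 0 then g else (starRingEnd ℂ) g) * x (fl v ((flE v) s)) *
          mon z ((flE v) s) = x s * ((fun i : Fin 2 => (if i = 0 then (starRingEnd ℂ) g * z v else g))
            (s v) * mE v z s) := by
        intro s
        have e1 : (flE v) s = fl v s := rfl
        rw [e1, fl_fl, mon_eq v, mE_fl, fl_self]
        generalize s v = i
        fin_cases i <;> simp [mf] <;> ring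
      rw [Finset.sum_congr rfl fun s _ => h3 s,
        sum_cf x z v (fun i : Fin 2 => (if i = 0 then (starRingEnd ℂ) g * z v else g)),
        Fin.sum_univ_two]
      simp only [if_true, one_ne_zero, if_false]
      rw [← hA, ← hB]
      ring
    rw [h1, pol_add, pol_smul, h2, pol_split x z v, ← hA, ← hB, map_mul, Complex.conj_ofReal]
    ring
  rw [e1]
  apply aff_ne _ _ (hz v)
  have h1 := sq_diff 1 (ε * g) A B
  have h2 : ‖(ε : ℂ) * g‖ = ε * ‖g‖ := by
    rw [norm_mul, Complex.norm_real, Real.norm_of_nonneg hε]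
  rw [h2, Complex.ofReal_one, one_mul, one_mul] at h1
  have h3 : ‖B‖ ^ 2 < ‖A‖ ^ 2 := pow_lt_pow_left₀ hlt (norm_nonneg _) two_ne_zero
  have h4 : (ε * ‖g‖) ^ 2 < 1 := by
    have := mul_nonneg hε (norm_nonneg g)
    nlinarith
  have h5 : 0 < (1 ^ 2 - (ε * ‖g‖) ^ 2) * (‖A‖ ^ 2 - ‖B‖ ^ 2) := mul_pos (by linarith) (by linarith)
  have h6 : ‖B + (starRingEnd ℂ) (ε * g) * A‖ ^ 2 < ‖A + (ε * g) * B‖ ^ 2 := by linarith
  exact lt_of_pow_lt_pow_left₀ 2 (norm_nonneg _) h6

theorem NV.pair {x : (V → Fin 2) → ℂ} (hx : NV x) {v w : V} (hvw : v ≠ w) (J : ℝ) (a c : ℂ)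
    (hJ : ‖a‖ + ‖c‖ ≤ 2 * J) (ε : ℝ) (hε : 0 ≤ ε) (hεJ : ε * J < 1) :
    NV ((1 + (ε : ℂ) • PG v w J a c) *ᵥ x) := by
  intro z hz
  have h2 := hx.two hz hvw
  have hgate := h2.gate (1 + ε * J) (1 - ε * J) (ε * a) (ε * (starRingEnd ℂ) c) (by linarith) (by
    rw [norm_mul, norm_mul, Complex.norm_conj, Complex.norm_real, Real.norm_of_nonneg hε]
    nlinarith)
  have hne := hgate (z v) (z w) (hz v) (hz w)
  have e1 : pol ((1 + (ε : ℂ) • PG v w J a c) *ᵥ x) z = pol x z + ε * pol (PG v w J a c *ᵥ x) z := by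
    rw [Matrix.add_mulVec, Matrix.one_mulVec, Matrix.smul_mulVec, pol_add, pol_smul]
  have e2 : pol (PG v w J a c *ᵥ x) z =
      ∑ s, x s * ((fun i j : Fin 2 => ((J * (sg i * sg j) : ℝ) : ℂ) * (mf i (z v) * mf j (z w)) +
        amp a c (1 - i) (1 - j) * (mf (1 - i) (z v) * mf (1 - j) (z w))) (s v) (s w) *
          mE2 v w z s) := by
    unfold pol
    simp only [PG_mulVec]
    have h3 : ∑ s, (((J * (sg (s v) * sg (s w)) : ℝ) : ℂ) * x s +
        amp a c (s v) (s w) * x (fl v (fl w s))) * mon z s =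
        ∑ s, ((J * (sg (s v) * sg (s w)) : ℝ) : ℂ) * x s * mon z s +
          ∑ s, amp a c (s v) (s w) * x (fl v (fl w s)) * mon z s := by
      rw [← Finset.sum_add_distrib]
      exact Finset.sum_congr rfl fun s _ => by ring
    rw [h3, ← Equiv.sum_comp ((flE w).trans (flE v)) fun s =>
      amp a c (s v) (s w) * x (fl v (fl w s)) * mon z s, ← Finset.sum_add_distrib]
    refine Finset.sum_congr rfl fun s _ => ?_
    have e1 : ((flE w).trans (flE v)) s = fl v (fl w s) := rfl
    have e3 : fl v (fl w (fl v (fl w s))) = s := by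
      rw [fl_comm hvw.symm (fl w s), fl_fl, fl_fl]
    rw [e1, e3, mon_eq2 hvw, mon_eq2 hvw, mE2_fl, fl_self, fl_ne hvw, fl_ne hvw.symm, fl_self]
    ring
  rw [e1, e2, sum_cf2 x z v w (fun i j : Fin 2 => ((J * (sg i * sg j) : ℝ) : ℂ) *
    (mf i (z v) * mf j (z w)) + amp a c (1 - i) (1 - j) * (mf (1 - i) (z v) * mf (1 - j) (z w))),
    pol_split2 hvw x z, Fin.sum_univ_two, Fin.sum_univ_two, Fin.sum_univ_two]
  have q1 : (1 : Fin 2) - 0 = 1 := rfl
  have q2 : (1 : Fin 2) - 1 = 0 := rfl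
  simp only [q1, q2, mf_zero, mf_one, sg_zero, sg_one, amp00, amp01, amp10, amp11]
  intro h0
  apply hne
  rw [← h0]
  simp only [map_mul, Complex.conj_ofReal, Complex.conj_conj]
  push_cast
  ring

/-- exponential of the longitudinal fields -/
noncomputable def EG (ε : ℝ) (b : V → ℝ) : Matrix (V → Fin 2) (V → Fin 2) ℂ :=
  Matrix.diagonal fun s => ((Real.exp (ε * ∑ v, b v * sg (s v)) : ℝ) : ℂ)

theorem pol_EG (ε : ℝ) (b : V → ℝ) (x : (V → Fin 2) → ℂ) (z : V → ℂ) :
    pol (EG ε b *ᵥ x) z = (Real.exp (ε * ∑ v, b v) : ℂ) *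
      pol x (fun v => (Real.exp (-(2 * (ε * b v))) : ℂ) * z v) := by
  unfold pol EG
  rw [Finset.mul_sum]
  refine Finset.sum_congr rfl fun s _ => ?_
  rw [Matrix.mulVec_diagonal]
  unfold mon
  have h1 : ((Real.exp (ε * ∑ v, b v * sg (s v)) : ℝ) : ℂ) =
      (Real.exp (ε * ∑ v, b v) : ℂ) * ∏ v, mf (s v) (Real.exp (-(2 * (ε * b v))) : ℂ) := by
    rw [Finset.mul_sum, Finset.mul_sum, Real.exp_sum, Real.exp_sum]
    push_cast
    rw [← Finset.prod_mul_distrib]
    refine Finset.prod_congr rfl fun v _ => ?_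
    generalize s v = i
    fin_cases i
    · simp [mf]
    · simp only [Fin.mk_one, Fin.isValue, sg_one, mf_one]
      rw [← Complex.exp_add]
      congr 1
      push_cast
      ring
  rw [h1]
  have h2 : ∏ v, mf (s v) ((Real.exp (-(2 * (ε * b v))) : ℂ) * z v) =
      (∏ v, mf (s v) (Real.exp (-(2 * (ε * b v))) : ℂ)) * ∏ v, mf (s v) (z v) := by
    rw [← Finset.prod_mul_distrib]
    refine Finset.prod_congr rfl fun v _ => ?_
    unfold mf
    split_ifs <;> simp
  rw [h2]
  ring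

/-- the fields enlarge the polydisc -/
theorem NV.field {x : (V → Fin 2) → ℂ} (hx : NV x) (b : V → ℝ) (b₀ ε : ℝ) (hε : 0 ≤ ε)
    (hb : ∀ v, b₀ ≤ b v) (z : V → ℂ) (hz : ∀ v, ‖z v‖ ≤ Real.exp (2 * (ε * b₀))) :
    pol (EG ε b *ᵥ x) z ≠ 0 := by
  rw [pol_EG]
  refine mul_ne_zero ?_ ?_
  · exact_mod_cast (Real.exp_pos _).ne'
  · apply hx
    intro v
    rw [norm_mul, Complex.norm_real, Real.norm_of_nonneg (Real.exp_pos _).le]
    calc Real.exp (-(2 * (ε * b v))) * ‖z v‖ ≤ Real.exp (-(2 * (ε * b₀))) * Real.exp (2 * (ε * b₀)) := by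
          refine mul_le_mul (Real.exp_le_exp.2 ?_) (hz v) (norm_nonneg _) (Real.exp_pos _).le
          have := mul_le_mul_of_nonneg_left (hb v) hε
          linarith
      _ = 1 := by rw [← Real.exp_add]; simp

end Pool.Agent.KS6_99.LY
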