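import Pool.Agent.KS6_99.LY.Loc

/-!
Lee-Yang Hamiltonians on the torus.
-/

set_option autoImplicit false
set_option linter.unusedSectionVars false

open scoped BigOperators Matrix
open Finset Pool.Agent.TH235.PP

namespace Pool.Agent.KS6_99.LY

section general

variable {V : Type*} [Fintype V] [DecidableEq V] {W : Type*} [Fintype W] [DecidableEq W]

/-- the Lee-Yang Hamiltonian -/
noncomputable def HM (J : V → V → ℝ) (a c : V → V → ℂ) (g : V → ℂ) (b : V → ℝ) :
    Matrix (V → Fin 2) (V → Fin 2) ℂ :=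
  -((∑ v, ∑ w, if v = w then 0 else PG v w (J v w) (a v w) (c v w)) + ∑ v, SG v (g v) + DG b)

theorem PG_herm {v w : V} (h : v ≠ w) (J : ℝ) (a c : ℂ) : (PG v w J a c).IsHermitian := by
  ext s t
  rw [Matrix.conjTranspose_apply]
  unfold PG
  rw [star_add]
  congr 1
  · by_cases hst : s = t
    · subst hst
      rw [if_pos rfl, Complex.star_def, Complex.conj_ofReal]
    · rw [if_neg hst, if_neg (Ne.symm hst), star_zero]
  · by_cases hst : t = fl v (fl w s)
    · have h1 : s = fl v (fl w t) := by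
        rw [hst, fl_comm h.symm (fl w s), fl_fl, fl_fl]
      rw [if_pos hst, if_pos h1, hst, fl_self, fl_ne h, fl_ne h.symm, fl_self]
      generalize s v = i
      generalize s w = j
      have q1 : (1 : Fin 2) - 0 = 1 := rfl
      have q2 : (1 : Fin 2) - 1 = 0 := rfl
      fin_cases i <;> fin_cases j <;> simp [q1, q2]
    · have h1 : s ≠ fl v (fl w t) := by
        intro h1
        apply hst
        rw [h1, fl_comm h.symm (fl w t), fl_fl, fl_fl]
      rw [if_neg hst, if_neg h1, star_zero]

theorem SG_herm (v : V) (g : ℂ) : (SG v g).IsHermitian := by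
  ext s t
  rw [Matrix.conjTranspose_apply]
  unfold SG
  by_cases hst : t = fl v s
  · have h1 : s = fl v t := by rw [hst, fl_fl]
    rw [if_pos hst, if_pos h1, hst, fl_self]
    generalize s v = i
    have q1 : (1 : Fin 2) - 0 = 1 := rfl
    have q2 : (1 : Fin 2) - 1 = 0 := rfl
    fin_cases i <;> simp [q1, q2]
  · have h1 : s ≠ fl v t := by
      intro h1
      apply hst
      rw [h1, fl_fl]
    rw [if_neg hst, if_neg h1, star_zero]

theorem DG_herm (b : V → ℝ) : (DG b).IsHermitian := by
  unfold DG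
  rw [Matrix.isHermitian_diagonal_iff]
  intro s
  rw [isSelfAdjoint_iff, Complex.star_def, Complex.conj_ofReal]

theorem HM_herm (J : V → V → ℝ) (a c : V → V → ℂ) (g : V → ℂ) (b : V → ℝ) :
    (HM J a c g b).IsHermitian := by
  unfold HM
  apply Matrix.IsHermitian.neg
  refine Matrix.IsHermitian.add (Matrix.IsHermitian.add ?_ ?_) (DG_herm b)
  · unfold Matrix.IsHermitian
    rw [Matrix.conjTranspose_sum]
    refine Finset.sum_congr rfl fun v _ => ?_
    rw [Matrix.conjTranspose_sum]
    refine Finset.sum_congr rfl fun w _ => ?_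
    split_ifs with h
    · exact Matrix.conjTranspose_zero
    · exact PG_herm h _ _ _
  · unfold Matrix.IsHermitian
    rw [Matrix.conjTranspose_sum]
    exact Finset.sum_congr rfl fun v _ => SG_herm v _

theorem ex_add (ι : W → V) (k k' : Matrix (W → Fin 2) (W → Fin 2) ℂ) :
    ex ι (k + k') = ex ι k + ex ι k' := by
  ext s t
  rw [Matrix.add_apply]
  unfold ex
  split_ifs
  · rfl
  · rw [add_zero]

theorem ex_neg (ι : W → V) (k : Matrix (W → Fin 2) (W → Fin 2) ℂ) : ex ι (-k) = -ex ι k := by
  ext s t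
  rw [Matrix.neg_apply]
  unfold ex
  split_ifs
  · rfl
  · rw [neg_zero]

theorem ex_zero (ι : W → V) : ex ι (0 : Matrix (W → Fin 2) (W → Fin 2) ℂ) = 0 := by
  ext s t
  unfold ex
  split_ifs <;> rfl

theorem ex_sum (ι : W → V) {α : Type*} (S : Finset α) (k : α → Matrix (W → Fin 2) (W → Fin 2) ℂ) :
    ex ι (∑ i ∈ S, k i) = ∑ i ∈ S, ex ι (k i) := by
  classical
  induction S using Finset.induction_on with
  | empty => rw [Finset.sum_empty, Finset.sum_empty, ex_zero]
  | insert i S hi ih => rw [Finset.sum_insert hi, Finset.sum_insert hi, ex_add, ih]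

theorem agree_iff {ι : W → V} (hι : Function.Injective ι) (s t : V → Fin 2) (q : W → Fin 2) :
    ((∀ v, (∀ w, ι w ≠ v) → s v = t v) ∧ (fun w => t (ι w)) = q) ↔ t = Function.extend ι q s := by
  constructor
  · rintro ⟨h1, h2⟩
    funext v
    by_cases hv : ∃ w, ι w = v
    · obtain ⟨w, rfl⟩ := hv
      rw [extend_in hι, ← h2]
    · push Not at hv
      rw [extend_out _ _ hv, h1 v hv]
  · rintro rfl
    refine ⟨fun v hv => (extend_out _ _ hv).symm, ?_⟩
    funext w
    exact extend_in hι _ _ w

theorem ex_single {ι : W → V} (hι : Function.Injective ι) (Q : (W → Fin 2) → W → Fin 2)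
    (F : (W → Fin 2) → ℂ) (s t : V → Fin 2) :
    ex ι (fun s' t' => if t' = Q s' then F s' else 0) s t =
      if t = Function.extend ι (Q fun w => s (ι w)) s then F (fun w => s (ι w)) else 0 := by
  classical
  unfold ex
  have h := agree_iff hι s t (Q fun w => s (ι w))
  by_cases h1 : ∀ v, (∀ w, ι w ≠ v) → s v = t v
  · rw [if_pos h1]
    show (if (fun w => t (ι w)) = Q (fun w => s (ι w)) then F (fun w => s (ι w)) else 0) = _
    by_cases h2 : (fun w => t (ι w)) = Q fun w => s (ι w)
    · rw [if_pos h2, if_pos (h.1 ⟨h1, h2⟩)]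
    · rw [if_neg h2, if_neg (fun h3 => h2 (h.2 h3).2)]
  · rw [if_neg h1, if_neg (fun h3 => h1 (h.2 h3).1)]

theorem extend_fl {ι : W → V} (hι : Function.Injective ι) (w : W) (s : V → Fin 2) :
    Function.extend ι (fl w fun w => s (ι w)) s = fl (ι w) s := by
  funext v
  by_cases hv : ∃ w', ι w' = v
  · obtain ⟨w', rfl⟩ := hv
    rw [extend_in hι]
    by_cases h : w' = w
    · rw [h, fl_self, fl_self]
    · rw [fl_ne h, fl_ne (fun h2 => h (hι h2))]
  · push Not at hv
    rw [extend_out _ _ hv, fl_ne (Ne.symm (hv w))]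

theorem extend_id {ι : W → V} (hι : Function.Injective ι) (s : V → Fin 2) :
    Function.extend ι (fun w => s (ι w)) s = s := by
  funext v
  by_cases hv : ∃ w', ι w' = v
  · obtain ⟨w', rfl⟩ := hv
    rw [extend_in hι]
  · push Not at hv
    rw [extend_out _ _ hv]

theorem extend_fl2 {ι : W → V} (hι : Function.Injective ι) (w w' : W) (s : V → Fin 2) :
    Function.extend ι (fl w (fl w' fun w => s (ι w))) s = fl (ι w) (fl (ι w') s) := by
  have h1 : (fl w' fun w => s (ι w)) = fun x => (fl (ι w') s) (ι x) := by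
    funext x
    by_cases h : x = w'
    · rw [h, fl_self, fl_self]
    · rw [fl_ne h, fl_ne (fun h2 => h (hι h2))]
  rw [h1, ← extend_fl hι w (fl (ι w') s)]
  funext v
  by_cases hv : ∃ x, ι x = v
  · obtain ⟨x, rfl⟩ := hv
    rw [extend_in hι, extend_in hι]
  · push Not at hv
    rw [extend_out _ _ hv, extend_out _ _ hv, fl_ne (Ne.symm (hv w'))]

theorem ex_SG {ι : W → V} (hι : Function.Injective ι) (w : W) (g : ℂ) :
    ex ι (SG w g) = SG (ι w) g := by
  ext s t
  have h := ex_single hι (fl w) (fun s' => if s' w = 0 then g else (starRingEnd ℂ) g) s t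
  rw [extend_fl hι] at h
  exact h

theorem ex_PG {ι : W → V} (hι : Function.Injective ι) (v w : W) (J : ℝ) (a c : ℂ) :
    ex ι (PG v w J a c) = PG (ι v) (ι w) J a c := by
  let K1 : Matrix (W → Fin 2) (W → Fin 2) ℂ := fun s' t' => if t' = (fun x => x) s' then
      ((J * (sg (s' v) * sg (s' w)) : ℝ) : ℂ) else 0
  let K2 : Matrix (W → Fin 2) (W → Fin 2) ℂ := fun s' t' =>
    if t' = fl v (fl w s') then amp a c (s' v) (s' w) else 0
  have h1 : PG v w J a c = K1 + K2 := by
    ext s' t'
    rw [Matrix.add_apply]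
    unfold PG
    congr 1
    by_cases h : s' = t'
    · show (if s' = t' then _ else _) = if t' = s' then _ else _
      rw [if_pos h, if_pos h.symm]
    · show (if s' = t' then _ else _) = if t' = s' then _ else _
      rw [if_neg h, if_neg (Ne.symm h)]
  rw [h1, ex_add]
  ext s t
  rw [Matrix.add_apply]
  have h2 := ex_single hι (fun x => x) (fun s' => ((J * (sg (s' v) * sg (s' w)) : ℝ) : ℂ)) s t
  have h3 := ex_single hι (fun x => fl v (fl w x)) (fun s' => amp a c (s' v) (s' w)) s t
  rw [extend_id hι] at h2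
  rw [extend_fl2 hι] at h3
  have h4 : ex ι K1 s t = _ := h2
  have h5 : ex ι K2 s t = _ := h3
  rw [h4, h5]
  unfold PG
  congr 1
  by_cases h : s = t
  · rw [if_pos h, if_pos h.symm]
  · rw [if_neg h, if_neg (Ne.symm h)]

/-- the fields of the local operator on `V` -/
noncomputable def push (ι : W → V) (b : W → ℝ) (v : V) : ℝ := ∑ w, if ι w = v then b w else 0

theorem ex_DG {ι : W → V} (hι : Function.Injective ι) (b : W → ℝ) :
    ex ι (DG b) = DG (push ι b) := by
  ext s t
  have h1 : (DG b : Matrix (W → Fin 2) (W → Fin 2) ℂ) = fun s' t' => if t' = (fun x => x) s' then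
      ((∑ w, b w * sg (s' w) : ℝ) : ℂ) else 0 := by
    ext s' t'
    unfold DG
    by_cases h : s' = t'
    · rw [if_pos h.symm, h, Matrix.diagonal_apply_eq]
    · rw [if_neg (Ne.symm h), Matrix.diagonal_apply_ne _ h]
  have h2 := ex_single hι (fun x => x) (fun s' => ((∑ w, b w * sg (s' w) : ℝ) : ℂ)) s t
  rw [extend_id hι] at h2
  rw [h1, h2]
  have h3 : ∑ w, b w * sg (s (ι w)) = ∑ v, push ι b v * sg (s v) := by
    unfold push
    simp only [Finset.sum_mul]
    rw [Finset.sum_comm]
    refine Finset.sum_congr rfl fun w _ => ?_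
    rw [Finset.sum_eq_single (ι w)]
    · rw [if_pos rfl]
    · intro v _ hv
      rw [if_neg (Ne.symm hv), zero_mul]
    · intro h
      exact absurd (mem_univ _) h
  unfold DG
  by_cases h : s = t
  · rw [if_pos h.symm, ← h, Matrix.diagonal_apply_eq, h3]
  · rw [if_neg (Ne.symm h), Matrix.diagonal_apply_ne _ h]

theorem DG_sum {α : Type*} (S : Finset α) (β : α → V → ℝ) :
    ∑ i ∈ S, DG (β i) = DG fun v => ∑ i ∈ S, β i v := by
  ext s t
  rw [Matrix.sum_apply]
  unfold DG
  by_cases h : s = t
  · subst h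
    simp only [Matrix.diagonal_apply_eq]
    rw [← Complex.ofReal_sum]
    congr 1
    rw [Finset.sum_comm]
    exact Finset.sum_congr rfl fun v _ => by rw [Finset.sum_mul]
  · simp only [Matrix.diagonal_apply_ne _ h, Finset.sum_const_zero]

/-- sums over the eigenvalues do not depend on the labels -/
theorem sum_eig {n m : Type*} [Fintype n] [DecidableEq n] [Fintype m] [DecidableEq m]
    {A : Matrix n n ℂ} (hA : A.IsHermitian) {B : Matrix m m ℂ} (hB : B.IsHermitian) (e : m ≃ n)
    (h : A.submatrix e e = B) (f : ℝ → ℝ) :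
    ∑ j, f (hA.eigenvalues j) = ∑ i, f (hB.eigenvalues i) := by
  have h1 : A.charpoly = B.charpoly := by
    have h2 := Matrix.charpoly_reindex e.symm A
    rw [← h2, ← h]
    rfl
  have h3 := hA.roots_charpoly_eq_eigenvalues
  have h4 := hB.roots_charpoly_eq_eigenvalues
  rw [h1, h4] at h3
  have h5 := congrArg (fun s : Multiset ℂ => (s.map fun z => f z.re).sum) h3
  simp only [Multiset.map_map, Function.comp_def] at h5
  have h6 : ∀ x : ℝ, ((RCLike.ofReal x : ℂ)).re = x := fun x => Complex.ofReal_re x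
  simp only [h6] at h5
  exact h5.symm

end general

section torus

variable {n d R L : ℕ}

/-- the spins in the box -/
abbrev BV (R n : ℕ) : Type := (Fin R × Fin R) × Fin n

/-- the spins of the torus -/
abbrev TV (L n : ℕ) : Type := Site L × Fin n

/-- the box at `u` -/
def pos (u : Site L) (v : BV R n) : TV L n := (sh u v.1, v.2)

/-- the spin configuration -/
def cfgE (e : Fin d ≃ (Fin n → Fin 2)) : (Site L → Fin d) ≃ (TV L n → Fin 2) where
  toFun s := fun v => e (s v.1) v.2
  invFun f := fun x => e.symm fun i => f (x, i)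
  left_inv s := by
    funext x
    simp
  right_inv f := by
    funext v
    simp

theorem cast_inj' {N : ℕ} (hNL : N ≤ L) (i j : Fin N)
    (h : ((i : ℕ) : ZMod L) = ((j : ℕ) : ZMod L)) : i = j := by
  rw [ZMod.natCast_eq_natCast_iff'] at h
  rw [Nat.mod_eq_of_lt (i.2.trans_le hNL), Nat.mod_eq_of_lt (j.2.trans_le hNL)] at h
  exact Fin.ext h

theorem sh_inj' (hNL : R ≤ L) (u : Site L) {x y : Fin R × Fin R} (h : sh u x = sh u y) : x = y := by
  unfold sh at h
  rw [Prod.mk.injEq, add_right_inj, add_right_inj] at h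
  exact Prod.ext (cast_inj' hNL _ _ h.1) (cast_inj' hNL _ _ h.2)

theorem pos_inj (hRL : R ≤ L) (u : Site L) : Function.Injective (pos (R := R) (n := n) u) := by
  intro v w h
  unfold pos at h
  rw [Prod.mk.injEq] at h
  exact Prod.ext (sh_inj' hRL u h.1) h.2

/-- an operator on the spins of the box as an operator on the box -/
noncomputable def toBox (e : Fin d ≃ (Fin n → Fin 2)) (k : Matrix (BV R n → Fin 2) (BV R n → Fin 2) ℂ) :
    BoxOp d R := fun P Q => k (fun v => e (P v.1) v.2) (fun v => e (Q v.1) v.2)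

theorem term_toBox [NeZero L] (e : Fin d ≃ (Fin n → Fin 2))
    (k : Matrix (BV R n → Fin 2) (BV R n → Fin 2) ℂ) (u : Site L) :
    term (toBox e k) u = (ex (pos u) k).submatrix (cfgE e) (cfgE e) := by
  classical
  ext s t
  rw [Matrix.submatrix_apply]
  unfold term ex toBox
  have h1 : (∀ v, (∀ x : Fin R × Fin R, sh u x ≠ v) → s v = t v) ↔
      ∀ v : TV L n, (∀ w : BV R n, pos u w ≠ v) → cfgE e s v = cfgE e t v := by
    constructor
    · intro h v hv
      change e (s v.1) v.2 = e (t v.1) v.2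
      rw [h v.1]
      intro x hx
      apply hv (x, v.2)
      unfold pos
      rw [hx]
    · intro h v hv
      apply e.injective
      funext i
      apply h (v, i)
      intro w hw
      exact hv w.1 (congrArg Prod.fst hw)
  by_cases h : ∀ v, (∀ x : Fin R × Fin R, sh u x ≠ v) → s v = t v
  · rw [if_pos h, if_pos (h1.1 h)]
    rfl
  · rw [if_neg h, if_neg (fun h2 => h (h1.2 h2))]

/-- the Hamiltonian in terms of the spins -/
noncomputable def torH (L : ℕ) [NeZero L] (k : Matrix (BV R n → Fin 2) (BV R n → Fin 2) ℂ) :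
    Matrix (TV L n → Fin 2) (TV L n → Fin 2) ℂ := ∑ u : Site L, ex (pos u) k

theorem ham_toBox [NeZero L] (e : Fin d ≃ (Fin n → Fin 2))
    (k : Matrix (BV R n → Fin 2) (BV R n → Fin 2) ℂ) :
    ham (toBox e k) L = (torH L k).submatrix (cfgE e) (cfgE e) := by
  ext s t
  unfold ham torH
  rw [Matrix.submatrix_apply, Matrix.sum_apply, Matrix.sum_apply]
  refine Finset.sum_congr rfl fun u _ => ?_
  rw [term_toBox]
  rfl

theorem toBox_herm (e : Fin d ≃ (Fin n → Fin 2)) (k : Matrix (BV R n → Fin 2) (BV R n → Fin 2) ℂ)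
    (hk : k.IsHermitian) : (toBox e k).IsHermitian := by
  ext P Q
  exact hk.apply _ _

/-- the longitudinal field at a spin of the torus -/
theorem field_sum [NeZero L] (b : BV R n → ℝ) (x : TV L n) :
    ∑ u : Site L, push (pos u) b x = ∑ y : Fin R × Fin R, b (y, x.2) := by
  unfold push
  rw [Finset.sum_comm]
  have h1 : ∀ p : BV R n, ∑ u : Site L, (if pos u p = x then b p else 0) =
      if p.2 = x.2 then b p else 0 := by
    intro p
    by_cases hp : p.2 = x.2
    · rw [if_pos hp]
      rw [Finset.sum_eq_single ((x.1.1 - ((p.1.1 : ℕ) : ZMod L), x.1.2 - ((p.1.2 : ℕ) : ZMod L)) : Site L)]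
      · rw [if_pos]
        unfold pos sh
        simp [hp]
      · intro u _ hu
        rw [if_neg]
        intro h
        apply hu
        unfold pos sh at h
        rw [← h]
        simp
      · intro h
        exact absurd (mem_univ _) h
    · rw [if_neg hp]
      refine Finset.sum_eq_zero fun u _ => ?_
      rw [if_neg]
      intro h
      exact hp (congrArg Prod.snd h)
  rw [Finset.sum_congr rfl fun p _ => h1 p, Fintype.sum_prod_type]
  refine Finset.sum_congr rfl fun y _ => ?_
  rw [Finset.sum_eq_single x.2]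
  · rw [if_pos rfl]
  · intro i _ hi
    rw [if_neg hi]
  · intro h
    exact absurd (mem_univ _) h

theorem torH_eq [NeZero L] (hRL : R ≤ L) (J : BV R n → BV R n → ℝ) (a c : BV R n → BV R n → ℂ)
    (g : BV R n → ℂ) (b : BV R n → ℝ) :
    torH L (HM J a c g b) =
      -((∑ u : Site L, ((∑ v, ∑ w, if v = w then 0 else
          PG (pos u v) (pos u w) (J v w) (a v w) (c v w)) + ∑ v, SG (pos u v) (g v))) +
        DG fun x => ∑ y : Fin R × Fin R, b (y, x.2)) := by
  unfold torH HM
  have h1 : ∀ u : Site L, ex (pos u) (-((∑ v, ∑ w, if v = w then 0 else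
      PG v w (J v w) (a v w) (c v w)) + ∑ v, SG v (g v) + DG b)) =
      -(((∑ v, ∑ w, if v = w then 0 else
          PG (pos u v) (pos u w) (J v w) (a v w) (c v w)) + ∑ v, SG (pos u v) (g v)) +
        DG (push (pos u) b)) := by
    intro u
    have hι := pos_inj (n := n) hRL u
    rw [ex_neg, ex_add, ex_add, ex_sum, ex_sum, ex_DG hι]
    congr 3
    · refine Finset.sum_congr rfl fun v _ => ?_
      rw [ex_sum]
      refine Finset.sum_congr rfl fun w _ => ?_
      split_ifs
      · exact ex_zero _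
      · exact ex_PG hι _ _ _ _ _
    · exact Finset.sum_congr rfl fun v _ => ex_SG hι _ _
  rw [Finset.sum_congr rfl fun u _ => h1 u, Finset.sum_neg_distrib, Finset.sum_add_distrib, DG_sum]
  congr 3
  funext x
  exact field_sum b x

theorem torH_herm [NeZero L] (e : Fin d ≃ (Fin n → Fin 2))
    (k : Matrix (BV R n → Fin 2) (BV R n → Fin 2) ℂ) (hk : k.IsHermitian) :
    (torH L k).IsHermitian := by
  have h1 := ham_herm (L := L) (toBox e k) (toBox_herm e k hk)
  rw [ham_toBox] at h1
  have h2 := h1.submatrix (cfgE e).symm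
  have h3 : ((torH L k).submatrix (cfgE e) (cfgE e)).submatrix (cfgE e).symm (cfgE e).symm =
      torH L k := by
    ext x y
    simp
  rwa [h3] at h2

theorem torH_flow [NeZero L] (hRL : R ≤ L) (J : BV R n → BV R n → ℝ) (a c : BV R n → BV R n → ℂ)
    (g : BV R n → ℂ) (b : BV R n → ℝ) (hJ : ∀ v w, v ≠ w → ‖a v w‖ + ‖c v w‖ ≤ 2 * J v w)
    (b₀ : ℝ) (hb₀ : 0 < b₀) (hb : ∀ i : Fin n, b₀ ≤ ∑ y : Fin R × Fin R, b (y, i))
    (hA : (torH L (HM J a c g b)).IsHermitian) : Flow hA b₀ := by
  refine flow hA _ _ b₀ ?_ (torH_eq hRL J a c g b) (fun x => hb x.2) hb₀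
  refine Gen.sum _ _ fun u _ => ?_
  refine Gen.add (Gen.sum _ _ fun v _ => Gen.sum _ _ fun w _ => ?_) (Gen.sum _ _ fun v _ => ?_)
  · split_ifs with h
    · exact Gen.zero
    · exact Gen.pair (fun h2 => h (pos_inj hRL u h2)) _ _ _ (hJ v w h)
  · exact Gen.site _ _

end torus

end Pool.Agent.KS6_99.LY
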