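import Pool.Agent.KS6_99.LY.Part2

/-!
Local operators.
-/

set_option autoImplicit false
set_option linter.unusedSectionVars false

open scoped BigOperators Matrix
open Finset Pool.Agent.TH235.PP

namespace Pool.Agent.KS6_99.LY

variable {V : Type*} [Fintype V] [DecidableEq V] {W : Type*} [Fintype W] [DecidableEq W]

open Classical in
/-- the operator `k` acting on the spins `ι w` -/
noncomputable def ex (ι : W → V) (k : Matrix (W → Fin 2) (W → Fin 2) ℂ) :
    Matrix (V → Fin 2) (V → Fin 2) ℂ := fun s t =>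
  if ∀ v, (∀ w, ι w ≠ v) → s v = t v then k (fun w => s (ι w)) (fun w => t (ι w)) else 0

theorem extend_in {ι : W → V} (hι : Function.Injective ι) {M : Type*} (q : W → M) (t : V → M)
    (w : W) : Function.extend ι q t (ι w) = q w := hι.extend_apply q t w

theorem extend_out {ι : W → V} {M : Type*} (q : W → M) (t : V → M) {v : V}
    (h : ∀ w, ι w ≠ v) : Function.extend ι q t v = t v :=
  Function.extend_apply' q t v fun ⟨w, hw⟩ => h w hw

theorem sum_extend {ι : W → V} (hι : Function.Injective ι) {M : Type*} [AddCommMonoid M]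
    (t : V → Fin 2) (φ : (V → Fin 2) → M)
    (hφ : ∀ s, (¬ ∀ v, (∀ w, ι w ≠ v) → s v = t v) → φ s = 0) :
    ∑ s, φ s = ∑ q : W → Fin 2, φ (Function.extend ι q t) := by
  symm
  refine Finset.sum_of_injOn (fun q => Function.extend ι q t) ?_ ?_ ?_ ?_
  · intro q _ q' _ h
    funext w
    have := congrFun h (ι w)
    simp only [extend_in hι] at this
    exact this
  · intro q _
    exact mem_coe.2 (mem_univ _)
  · intro s _ hs
    apply hφ
    intro hag
    apply hs
    refine ⟨fun w => s (ι w), mem_coe.2 (mem_univ _), ?_⟩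
    funext v
    by_cases hv : ∃ w, ι w = v
    · obtain ⟨w, rfl⟩ := hv
      exact extend_in hι _ _ w
    · push Not at hv
      simp only
      rw [extend_out _ _ hv]
      exact (hag v hv).symm
  · intro q _
    rfl

/-- the monomial away from the local spins -/
noncomputable def moff (ι : W → V) (z : V → ℂ) (s : V → Fin 2) : ℂ :=
  ∏ v ∈ univ \ univ.image ι, mf (s v) (z v)

theorem not_image {ι : W → V} {v : V} (h : v ∈ univ \ univ.image ι) : ∀ w, ι w ≠ v := by
  intro w hw
  rw [mem_sdiff, mem_image] at h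
  exact h.2 ⟨w, mem_univ _, hw⟩

theorem mon_loc {ι : W → V} (hι : Function.Injective ι) (z : V → ℂ) (s : V → Fin 2) :
    mon z s = mon (fun w => z (ι w)) (fun w => s (ι w)) * moff ι z s := by
  unfold mon moff
  rw [← Finset.prod_sdiff (subset_univ (univ.image ι)), mul_comm, Finset.prod_image]
  exact fun a _ b _ h => hι h

theorem moff_congr {ι : W → V} {z z' : V → ℂ} {s s' : V → Fin 2}
    (hz : ∀ v, (∀ w, ι w ≠ v) → z v = z' v) (hs : ∀ v, (∀ w, ι w ≠ v) → s v = s' v) :
    moff ι z s = moff ι z' s' := by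
  unfold moff
  refine Finset.prod_congr rfl fun v hv => ?_
  rw [hz v (not_image hv), hs v (not_image hv)]

/-- the coefficients in the local variables -/
noncomputable def xc (ι : W → V) (x : (V → Fin 2) → ℂ) (z : V → ℂ) (p : W → Fin 2) : ℂ :=
  ∑ t : V → Fin 2, if (fun w => t (ι w)) = p then x t * moff ι z t else 0

theorem sum_xc (ι : W → V) (x : (V → Fin 2) → ℂ) (z : V → ℂ) (F : (W → Fin 2) → ℂ) :
    ∑ t : V → Fin 2, x t * (F (fun w => t (ι w)) * moff ι z t) = ∑ p, F p * xc ι x z p := by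
  unfold xc
  simp only [Finset.mul_sum]
  rw [Finset.sum_comm]
  refine Finset.sum_congr rfl fun t _ => ?_
  rw [Finset.sum_eq_single (fun w => t (ι w))]
  · rw [if_pos rfl]
    ring
  · intro p _ hp
    rw [if_neg (Ne.symm hp), mul_zero]
  · intro h
    exact absurd (mem_univ _) h

theorem pol_ex {ι : W → V} (hι : Function.Injective ι) (k : Matrix (W → Fin 2) (W → Fin 2) ℂ)
    (x : (V → Fin 2) → ℂ) (z : V → ℂ) :
    pol (ex ι k *ᵥ x) z = ∑ p, (∑ q, k q p * mon (fun w => z (ι w)) q) * xc ι x z p := by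
  classical
  rw [← sum_xc ι x z (fun p => ∑ q, k q p * mon (fun w => z (ι w)) q)]
  unfold pol Matrix.mulVec dotProduct
  simp only [Finset.sum_mul]
  rw [Finset.sum_comm]
  refine Finset.sum_congr rfl fun t _ => ?_
  rw [sum_extend hι t (fun s => ex ι k s t * x t * mon z s)]
  · rw [Finset.mul_sum]
    refine Finset.sum_congr rfl fun q _ => ?_
    have h1 : ex ι k (Function.extend ι q t) t = k q (fun w => t (ι w)) := by
      unfold ex
      rw [if_pos fun v hv => extend_out _ _ hv]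
      congr 1
      funext w
      exact extend_in hι _ _ w
    have h2 : mon z (Function.extend ι q t) = mon (fun w => z (ι w)) q * moff ι z t := by
      rw [mon_loc hι]
      congr 1
      · congr 1
        funext w
        exact extend_in hι _ _ w
      · exact moff_congr (fun v _ => rfl) fun v hv => extend_out _ _ hv
    rw [h1, h2]
    ring
  · intro s hs
    unfold ex
    rw [if_neg hs, zero_mul, zero_mul]

theorem xc_avg {ι : W → V} (hι : Function.Injective ι) (x : (V → Fin 2) → ℂ) (z : V → ℂ)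
    (p : W → Fin 2) :
    ∑ e : W → Fin 2, mon (sv e) p * pol x (Function.extend ι (sv e) z) =
      2 ^ Fintype.card W * xc ι x z p := by
  have h1 : ∀ e : W → Fin 2, pol x (Function.extend ι (sv e) z) =
      ∑ t : V → Fin 2, x t * (mon (sv e) (fun w => t (ι w)) * moff ι z t) := by
    intro e
    unfold pol
    refine Finset.sum_congr rfl fun t _ => ?_
    rw [mon_loc hι]
    congr 2
    · congr 1
      funext w
      exact extend_in hι _ _ w
    · exact moff_congr (fun v hv => extend_out _ _ hv) fun v _ => rfl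
  simp only [h1, Finset.mul_sum]
  rw [Finset.sum_comm]
  unfold xc
  rw [Finset.mul_sum]
  refine Finset.sum_congr rfl fun t _ => ?_
  have h2 : ∑ e : W → Fin 2, mon (sv e) p * (x t * (mon (sv e) (fun w => t (ι w)) * moff ι z t)) =
      (∑ e : W → Fin 2, mon (sv e) p * mon (sv e) (fun w => t (ι w))) * (x t * moff ι z t) := by
    rw [Finset.sum_mul]
    exact Finset.sum_congr rfl fun e _ => by ring
  rw [h2, mon_mul_sum]
  by_cases h : (fun w => t (ι w)) = p
  · rw [if_pos h, if_pos h.symm]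
  · rw [if_neg h, if_neg (Ne.symm h)]
    ring

theorem zr_extend {ι : W → V} (hι : Function.Injective ι) (a : W → ℂ) (z : V → ℂ) :
    zr (univ.image ι) (Function.extend ι a z) = zr (univ.image ι) z := by
  have _ := hι
  funext v
  unfold zr
  split_ifs with h
  · rfl
  · apply extend_out
    intro w hw
    exact h (mem_image.2 ⟨w, mem_univ _, hw⟩)

theorem xc_bound {ι : W → V} (hι : Function.Injective ι) {x : (V → Fin 2) → ℂ} (hx : NV x)
    {z : V → ℂ} (hz : ∀ v, ‖z v‖ ≤ 1) (p : W → Fin 2) :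
    ‖xc ι x z p‖ ≤ 2 ^ Fintype.card W * ‖pol x (zr (univ.image ι) z)‖ := by
  have h1 := xc_avg hι x z p
  have hcard : (univ.image ι).card = Fintype.card W := by
    rw [card_image_of_injective _ hι, card_univ]
  have h2 : ∀ e : W → Fin 2, ‖mon (sv e) p * pol x (Function.extend ι (sv e) z)‖ ≤
      2 ^ Fintype.card W * ‖pol x (zr (univ.image ι) z)‖ := by
    intro e
    rw [norm_mul]
    have k1 : ‖mon (sv e) p‖ ≤ 1 := by
      unfold mon
      rw [norm_prod]
      refine Finset.prod_le_one (fun _ _ => norm_nonneg _) fun w _ => ?_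
      unfold mf
      split_ifs
      · simp
      · exact sv_norm e w
    have k2 : ∀ v, ‖Function.extend ι (sv e) z v‖ ≤ 1 := by
      intro v
      by_cases hv : ∃ w, ι w = v
      · obtain ⟨w, rfl⟩ := hv
        rw [extend_in hι]
        exact sv_norm e w
      · push Not at hv
        rw [extend_out _ _ hv]
        exact hz v
    have k3 := (hx.bounds k2 1 (univ.image ι) (fun v _ => k2 v) le_rfl).2
    rw [hcard, zr_extend hι] at k3
    calc ‖mon (sv e) p‖ * ‖pol x (Function.extend ι (sv e) z)‖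
        ≤ 1 * (2 ^ Fintype.card W * ‖pol x (zr (univ.image ι) z)‖) :=
          mul_le_mul k1 k3 (norm_nonneg _) zero_le_one
      _ = _ := one_mul _
  have h3 : ‖(2 : ℂ) ^ Fintype.card W * xc ι x z p‖ ≤
      2 ^ Fintype.card W * (2 ^ Fintype.card W * ‖pol x (zr (univ.image ι) z)‖) := by
    rw [← h1]
    refine (norm_sum_le _ _).trans ((Finset.sum_le_sum fun e _ => h2 e).trans ?_)
    rw [Finset.sum_const, Finset.card_univ, Fintype.card_fun, Fintype.card_fin, nsmul_eq_mul]
    push_cast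
    exact le_rfl
  rw [norm_mul, norm_pow, Complex.norm_ofNat] at h3
  exact le_of_mul_le_mul_left h3 (by positivity)

/-- the sum of the norms of the entries -/
noncomputable def sn (k : Matrix (W → Fin 2) (W → Fin 2) ℂ) : ℝ := ∑ p, ∑ q, ‖k q p‖

theorem sn_nonneg (k : Matrix (W → Fin 2) (W → Fin 2) ℂ) : 0 ≤ sn k :=
  Finset.sum_nonneg fun _ _ => Finset.sum_nonneg fun _ _ => norm_nonneg _

theorem ex_bound {ι : W → V} (hι : Function.Injective ι) (k : Matrix (W → Fin 2) (W → Fin 2) ℂ)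
    {x : (V → Fin 2) → ℂ} (hx : NV x) {z : V → ℂ} (hz : ∀ v, ‖z v‖ ≤ 1) :
    ‖pol (ex ι k *ᵥ x) z‖ ≤
      sn k * (2 ^ Fintype.card W * ‖pol x (zr (univ.image ι) z)‖) := by
  rw [pol_ex hι]
  unfold sn
  rw [Finset.sum_mul]
  refine (norm_sum_le _ _).trans (Finset.sum_le_sum fun p _ => ?_)
  rw [norm_mul]
  refine mul_le_mul ?_ (xc_bound hι hx hz p) (norm_nonneg _)
    (Finset.sum_nonneg fun _ _ => norm_nonneg _)
  refine (norm_sum_le _ _).trans (Finset.sum_le_sum fun q _ => ?_)
  rw [norm_mul]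
  refine mul_le_of_le_one_right (norm_nonneg _) ?_
  unfold mon
  rw [norm_prod]
  refine Finset.prod_le_one (fun _ _ => norm_nonneg _) fun w _ => ?_
  unfold mf
  split_ifs
  · simp
  · exact hz _

theorem ex_form {ι : W → V} (hι : Function.Injective ι) (k : Matrix (W → Fin 2) (W → Fin 2) ℂ)
    (x : (V → Fin 2) → ℂ) : ‖ip x (ex ι k *ᵥ x)‖ ≤ sn k * normSq x := by
  classical
  have hrow : ∀ s : V → Fin 2, ∑ t, ‖ex ι k s t‖ ≤ sn k := by
    intro s
    rw [sum_extend hι s (fun t => ‖ex ι k s t‖)]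
    · have h1 : ∀ q : W → Fin 2, ‖ex ι k s (Function.extend ι q s)‖ = ‖k (fun w => s (ι w)) q‖ := by
        intro q
        unfold ex
        rw [if_pos fun v hv => (extend_out _ _ hv).symm]
        congr 2
        funext w
        exact extend_in hι _ _ w
      rw [Finset.sum_congr rfl fun q _ => h1 q]
      unfold sn
      refine Finset.sum_le_sum fun p _ => ?_
      exact Finset.single_le_sum (f := fun q => ‖k q p‖) (fun _ _ => norm_nonneg _) (mem_univ _)
    · intro t ht
      unfold ex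
      rw [if_neg, norm_zero]
      intro h
      exact ht fun v hv => (h v hv).symm
  have hcol : ∀ t : V → Fin 2, ∑ s, ‖ex ι k s t‖ ≤ sn k := by
    intro t
    rw [sum_extend hι t (fun s => ‖ex ι k s t‖)]
    · have h1 : ∀ q : W → Fin 2, ‖ex ι k (Function.extend ι q t) t‖ = ‖k q (fun w => t (ι w))‖ := by
        intro q
        unfold ex
        rw [if_pos fun v hv => extend_out _ _ hv]
        congr 2
        funext w
        exact extend_in hι _ _ w
      rw [Finset.sum_congr rfl fun q _ => h1 q]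
      unfold sn
      exact Finset.single_le_sum (f := fun p => ∑ q, ‖k q p‖)
        (fun _ _ => Finset.sum_nonneg fun _ _ => norm_nonneg _) (mem_univ _)
    · intro s hs
      unfold ex
      rw [if_neg hs, norm_zero]
  have h1 : ‖ip x (ex ι k *ᵥ x)‖ ≤
      ∑ s, ∑ t, ‖ex ι k s t‖ * ((‖x s‖ ^ 2 + ‖x t‖ ^ 2) / 2) := by
    unfold ip Matrix.mulVec dotProduct
    refine (norm_sum_le _ _).trans (Finset.sum_le_sum fun s _ => ?_)
    rw [norm_mul, Complex.norm_conj]
    calc ‖x s‖ * ‖∑ t, ex ι k s t * x t‖ ≤ ‖x s‖ * ∑ t, ‖ex ι k s t‖ * ‖x t‖ := by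
          refine mul_le_mul_of_nonneg_left ?_ (norm_nonneg _)
          refine (norm_sum_le _ _).trans (Finset.sum_le_sum fun t _ => ?_)
          rw [norm_mul]
      _ = ∑ t, ‖ex ι k s t‖ * (‖x s‖ * ‖x t‖) := by
          rw [Finset.mul_sum]
          exact Finset.sum_congr rfl fun t _ => by ring
      _ ≤ _ := by
          refine Finset.sum_le_sum fun t _ => mul_le_mul_of_nonneg_left ?_ (norm_nonneg _)
          nlinarith [sq_nonneg (‖x s‖ - ‖x t‖)]
  have h2 : ∑ s, ∑ t, ‖ex ι k s t‖ * ((‖x s‖ ^ 2 + ‖x t‖ ^ 2) / 2) =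
      (∑ s, (∑ t, ‖ex ι k s t‖) * (‖x s‖ ^ 2 / 2)) +
        ∑ t, (∑ s, ‖ex ι k s t‖) * (‖x t‖ ^ 2 / 2) := by
    have h3 : ∑ t, (∑ s, ‖ex ι k s t‖) * (‖x t‖ ^ 2 / 2) =
        ∑ s, ∑ t, ‖ex ι k s t‖ * (‖x t‖ ^ 2 / 2) := by
      rw [Finset.sum_comm]
      exact Finset.sum_congr rfl fun t _ => by rw [Finset.sum_mul]
    rw [h3, ← Finset.sum_add_distrib]
    refine Finset.sum_congr rfl fun s _ => ?_
    rw [Finset.sum_mul, ← Finset.sum_add_distrib]
    exact Finset.sum_congr rfl fun t _ => by ring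
  rw [h2] at h1
  refine h1.trans ?_
  have h3 : ∑ s, (∑ t, ‖ex ι k s t‖) * (‖x s‖ ^ 2 / 2) ≤ ∑ s, sn k * (‖x s‖ ^ 2 / 2) :=
    Finset.sum_le_sum fun s _ => mul_le_mul_of_nonneg_right (hrow s) (by positivity)
  have h4 : ∑ t, (∑ s, ‖ex ι k s t‖) * (‖x t‖ ^ 2 / 2) ≤ ∑ t, sn k * (‖x t‖ ^ 2 / 2) :=
    Finset.sum_le_sum fun t _ => mul_le_mul_of_nonneg_right (hcol t) (by positivity)
  have h5 : ∑ s, sn k * (‖x s‖ ^ 2 / 2) = sn k * normSq x / 2 := by
    unfold normSq
    rw [Finset.mul_sum, Finset.sum_div]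
    exact Finset.sum_congr rfl fun s _ => by ring
  rw [h5] at h3 h4
  linarith

/-- the local fields -/
noncomputable def bX (X : Finset V) : V → ℝ := fun v => if v ∈ X then 1 else 0

/-- the constant of the lower bound -/
noncomputable def c0 (m : ℕ) : ℝ := (1 - Real.exp (-2)) ^ m

theorem c0_pos (m : ℕ) : 0 < c0 m := by
  unfold c0
  have : Real.exp (-2) < 1 := by
    rw [Real.exp_lt_one_iff]
    norm_num
  exact pow_pos (by linarith) _

theorem EG_lower {X : Finset V} {x : (V → Fin 2) → ℂ} (hx : NV x) {z : V → ℂ}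
    (hz : ∀ v, ‖z v‖ ≤ 1) :
    c0 X.card * ‖pol x (zr X z)‖ ≤ ‖pol (EG 1 (bX X) *ᵥ x) z‖ := by
  rw [pol_EG, norm_mul, Complex.norm_real, Real.norm_of_nonneg (Real.exp_pos _).le]
  set z' : V → ℂ := fun v => (Real.exp (-(2 * (1 * bX X v))) : ℂ) * z v with hz'
  have h1 : ∀ v, ‖z' v‖ ≤ 1 := by
    intro v
    rw [hz']
    simp only
    rw [norm_mul, Complex.norm_real, Real.norm_of_nonneg (Real.exp_pos _).le]
    have h2 : Real.exp (-(2 * (1 * bX X v))) ≤ 1 := by
      apply Real.exp_le_one_iff.2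
      unfold bX
      split_ifs <;> norm_num
    calc _ ≤ 1 * 1 := mul_le_mul h2 (hz v) (norm_nonneg _) zero_le_one
      _ = 1 := one_mul 1
  have h2 : ∀ v ∈ X, ‖z' v‖ ≤ Real.exp (-2) := by
    intro v hv
    rw [hz']
    simp only
    rw [norm_mul, Complex.norm_real, Real.norm_of_nonneg (Real.exp_pos _).le]
    have h3 : bX X v = 1 := if_pos hv
    rw [h3]
    have h4 : -(2 * (1 * 1) : ℝ) = -2 := by norm_num
    rw [h4]
    exact mul_le_of_le_one_right (Real.exp_pos _).le (hz v)
  have h3 : Real.exp (-2) ≤ 1 := by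
    rw [Real.exp_le_one_iff]
    norm_num
  have h4 := (hx.bounds h1 (Real.exp (-2)) X h2 h3).1
  have h5 : zr X z' = zr X z := by
    funext v
    unfold zr
    split_ifs with hv
    · rfl
    · rw [hz']
      have h6 : bX X v = 0 := if_neg hv
      simp [h6]
  rw [h5] at h4
  have h6 : 1 ≤ Real.exp (1 * ∑ v, bX X v) := by
    apply Real.one_le_exp
    rw [one_mul]
    exact Finset.sum_nonneg fun v _ => by unfold bX; split_ifs <;> norm_num
  have h7 : ‖pol x z'‖ ≤ Real.exp (1 * ∑ v, bX X v) * ‖pol x z'‖ :=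
    le_mul_of_one_le_left (norm_nonneg _) h6
  exact h4.trans h7

theorem good_loc {ι : W → V} (hι : Function.Injective ι) (k : Matrix (W → Fin 2) (W → Fin 2) ℂ)
    {S δ : ℝ} (hS : sn k ≤ S) (hδ0 : 0 ≤ δ) (hδ1 : δ ≤ 1)
    (hδ : δ * (S * 2 ^ Fintype.card W) ≤ c0 (Fintype.card W) / 2) :
    Good (EG 1 (bX (univ.image ι)) + (δ : ℂ) • ex ι k)
      (2 ^ Fintype.card W * (2 / c0 (Fintype.card W)))
      (Real.exp (Fintype.card W) + S) := by
  set m := Fintype.card W with hm
  set X : Finset V := univ.image ι with hX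
  have hcard : X.card = m := by
    rw [hX, card_image_of_injective _ hι, card_univ]
  have hc0 := c0_pos m
  have hlow : ∀ x, NV x → ∀ z : V → ℂ, (∀ v, ‖z v‖ ≤ 1) →
      c0 m / 2 * ‖pol x (zr X z)‖ ≤ ‖pol ((EG 1 (bX X) + (δ : ℂ) • ex ι k) *ᵥ x) z‖ := by
    intro x hx z hz
    rw [Matrix.add_mulVec, Matrix.smul_mulVec, pol_add, pol_smul]
    have h1 := EG_lower (X := X) hx hz
    rw [hcard] at h1
    have h2 := ex_bound hι k hx hz
    have h3 := norm_sub_norm_le (pol (EG 1 (bX X) *ᵥ x) z) (-((δ : ℂ) * pol (ex ι k *ᵥ x) z))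
    rw [sub_neg_eq_add, norm_neg, norm_mul, Complex.norm_real, Real.norm_of_nonneg hδ0] at h3
    have h4 : δ * ‖pol (ex ι k *ᵥ x) z‖ ≤ c0 m / 2 * ‖pol x (zr X z)‖ := by
      calc δ * ‖pol (ex ι k *ᵥ x) z‖ ≤ δ * (S * (2 ^ m * ‖pol x (zr X z)‖)) := by
            refine mul_le_mul_of_nonneg_left (h2.trans ?_) hδ0
            exact mul_le_mul_of_nonneg_right hS (by positivity)
        _ = (δ * (S * 2 ^ m)) * ‖pol x (zr X z)‖ := by ring
        _ ≤ _ := mul_le_mul_of_nonneg_right hδ (norm_nonneg _)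
    linarith
  refine ⟨?_, ?_, ?_⟩
  · intro x hx z hz h0
    have h1 := hlow x hx z hz
    rw [h0, norm_zero] at h1
    have h2 : 0 < ‖pol x (zr X z)‖ := norm_pos_iff.2 (hx _ (zr_norm X hz))
    have h3 : 0 < c0 m / 2 * ‖pol x (zr X z)‖ := by positivity
    linarith
  · intro x hx z hz
    have h1 := hlow x hx z hz
    have h2 := (hx.bounds hz 1 X (fun v _ => hz v) le_rfl).2
    rw [hcard] at h2
    calc ‖pol x z‖ ≤ 2 ^ m * ‖pol x (zr X z)‖ := h2
      _ = 2 ^ m * (2 / c0 m) * (c0 m / 2 * ‖pol x (zr X z)‖) := by field_simp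
      _ ≤ _ := mul_le_mul_of_nonneg_left h1 (by positivity)
  · intro x
    have h1 : ip x ((EG 1 (bX X) + (δ : ℂ) • ex ι k) *ᵥ x) =
        ip x (EG 1 (bX X) *ᵥ x) + δ * ip x (ex ι k *ᵥ x) := by
      rw [Matrix.add_mulVec, Matrix.smul_mulVec]
      unfold ip
      rw [Finset.mul_sum, ← Finset.sum_add_distrib]
      refine Finset.sum_congr rfl fun s _ => ?_
      rw [Pi.add_apply, Pi.smul_apply, smul_eq_mul]
      ring
    have h2 : ‖ip x (EG 1 (bX X) *ᵥ x)‖ ≤ Real.exp m * normSq x := by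
      unfold ip EG normSq
      rw [Finset.mul_sum]
      refine (norm_sum_le _ _).trans (Finset.sum_le_sum fun s _ => ?_)
      rw [Matrix.mulVec_diagonal, norm_mul, norm_mul, Complex.norm_conj, Complex.norm_real,
        Real.norm_of_nonneg (Real.exp_pos _).le]
      have h3 : Real.exp (1 * ∑ v, bX X v * sg (s v)) ≤ Real.exp m := by
        apply Real.exp_le_exp.2
        rw [one_mul, ← hcard]
        calc ∑ v, bX X v * sg (s v) ≤ ∑ v, bX X v := by
              refine Finset.sum_le_sum fun v _ => ?_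
              refine mul_le_of_le_one_right ?_ ?_
              · unfold bX
                split_ifs <;> norm_num
              · unfold sg
                split_ifs <;> norm_num
          _ = X.card := by
              unfold bX
              rw [Finset.sum_ite_mem, univ_inter, Finset.sum_const, nsmul_eq_mul, mul_one]
      calc _ = Real.exp (1 * ∑ v, bX X v * sg (s v)) * ‖x s‖ ^ 2 := by ring
        _ ≤ _ := mul_le_mul_of_nonneg_right h3 (by positivity)
    have h3 := ex_form hι k x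
    have hn : 0 ≤ normSq x := Finset.sum_nonneg fun _ _ => by positivity
    have hS0 : 0 ≤ S := (sn_nonneg k).trans hS
    rw [h1]
    refine (norm_add_le _ _).trans ?_
    rw [norm_mul, Complex.norm_real, Real.norm_of_nonneg hδ0]
    have h4 : δ * ‖ip x (ex ι k *ᵥ x)‖ ≤ S * normSq x := by
      calc δ * ‖ip x (ex ι k *ᵥ x)‖ ≤ 1 * (sn k * normSq x) :=
            mul_le_mul hδ1 h3 (norm_nonneg _) zero_le_one
        _ = sn k * normSq x := one_mul _
        _ ≤ _ := mul_le_mul_of_nonneg_right hS hn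
    linarith

/-- sums of local operators are decomposed -/
theorem dec_loc {N : ℕ} {ι : Fin N → W → V} (hι : ∀ u, Function.Injective (ι u))
    (k : Fin N → Matrix (W → Fin 2) (W → Fin 2) ℂ) {S δ : ℝ} (hS : ∀ u, sn (k u) ≤ S)
    (hS0 : 0 ≤ S) (hδ0 : 0 < δ) (hδ1 : δ ≤ 1)
    (hδ : δ * (S * 2 ^ Fintype.card W) ≤ c0 (Fintype.card W) / 2) :
    Dec (∑ u, ex (ι u) (k u)) N (2 ^ Fintype.card W * (2 / c0 (Fintype.card W)))
      (Real.exp (Fintype.card W) + S) δ := by
  have hc0 := c0_pos (Fintype.card W)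
  refine ⟨by positivity, by positivity, hδ0, fun u => ex (ι u) (k u),
    fun u => EG 1 (bX (univ.image (ι u))) + (δ : ℂ) • ex (ι u) (k u),
    fun u => EG 1 (bX (univ.image (ι u))) + ((0 : ℝ) : ℂ) • ex (ι u) (k u), rfl, ?_⟩
  intro u
  refine ⟨good_loc (hι u) (k u) (hS u) hδ0.le hδ1 hδ, good_loc (hι u) (k u) (hS u) le_rfl
    zero_le_one ?_, ?_⟩
  · rw [zero_mul]
    positivity
  · simp

end Pool.Agent.KS6_99.LY
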