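import Pool.Agent.KS6_99.LY.Ratio

/-!
The partition function of a Lee-Yang Hamiltonian at inverse temperatures of the order `log L`.
-/

set_option autoImplicit false
set_option linter.unusedSectionVars false

open scoped BigOperators Matrix
open Finset Pool.Agent.TH235.PP

namespace Pool.Agent.KS6_99.LY

variable {V : Type*} [Fintype V] [DecidableEq V]

/-- the point of signs times `ρ` -/
noncomputable def sp (ρ : ℝ) (e : V → Fin 2) : V → ℂ := fun v => (ρ : ℂ) * sv e v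

theorem sp_norm {ρ : ℝ} (h0 : 0 ≤ ρ) (e : V → Fin 2) (v : V) : ‖sp ρ e v‖ = ρ := by
  unfold sp sv
  rw [norm_mul, Complex.norm_real, Real.norm_of_nonneg h0]
  split_ifs <;> simp

theorem mon_conj (ρ : ℝ) (e s : V → Fin 2) :
    (starRingEnd ℂ) (mon (sp ρ e) s) = mon (sp ρ e) s := by
  unfold mon
  rw [map_prod]
  refine Finset.prod_congr rfl fun v _ => ?_
  unfold mf sp sv
  split_ifs <;> simp

theorem ip_mon (ρ : ℝ) (e : V → Fin 2) (u : (V → Fin 2) → ℂ) :
    ip (mon (sp ρ e)) u = pol u (sp ρ e) := by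
  unfold ip pol
  refine Finset.sum_congr rfl fun s _ => ?_
  rw [mon_conj, mul_comm]

theorem pol_mon (w z : V → ℂ) : pol (mon w) z = ∏ v, (1 + w v * z v) := by
  have h1 : ∀ s : V → Fin 2, mon w s * mon z s = ∏ v, (mf (s v) (w v) * mf (s v) (z v)) := by
    intro s
    unfold mon
    rw [Finset.prod_mul_distrib]
  unfold pol
  rw [Finset.sum_congr rfl fun s _ => h1 s]
  have h2 : ∑ s : V → Fin 2, ∏ v, (mf (s v) (w v) * mf (s v) (z v)) =
      ∏ v, ∑ i : Fin 2, (mf i (w v) * mf i (z v)) := by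
    rw [Finset.prod_univ_sum, Fintype.piFinset_univ]
  rw [h2]
  refine Finset.prod_congr rfl fun v _ => ?_
  rw [Fin.sum_univ_two]
  simp

theorem NV_mon {w : V → ℂ} (hw : ∀ v, ‖w v‖ < 1) : NV (mon w) := by
  intro z hz
  rw [pol_mon]
  apply Finset.prod_ne_zero_iff.2
  intro v _ h0
  have h1 : w v * z v = -1 := by linear_combination h0
  have h2 : ‖w v * z v‖ = 1 := by rw [h1]; simp
  rw [norm_mul] at h2
  have h3 : ‖w v‖ * ‖z v‖ ≤ ‖w v‖ * 1 := mul_le_mul_of_nonneg_left (hz v) (norm_nonneg _)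
  have h4 := hw v
  linarith

section spec

variable {n : Type*} [Fintype n] [DecidableEq n] {A : Matrix n n ℂ} (hA : A.IsHermitian)

theorem pe_SS (E t : ℝ) (x : n → ℂ) :
    pe hA E (SS hA t *ᵥ x) = ((Real.exp (-(t * E)) : ℝ) : ℂ) • pe hA E x := by
  apply co_inj hA
  funext j
  rw [co_smul, co_pe, co_pe]
  unfold SS
  rw [co_FC]
  split_ifs with h
  · rw [h]
  · rw [mul_zero]

theorem co_A (x : n → ℂ) (j : n) : co hA (A *ᵥ x) j = (hA.eigenvalues j : ℂ) * co hA x j := by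
  have h2 := co_FC hA (fun x => x) x j
  rw [FC_id] at h2
  exact h2

theorem pe_A (E : ℝ) (x : n → ℂ) : pe hA E (A *ᵥ x) = (E : ℂ) • pe hA E x := by
  apply co_inj hA
  funext j
  rw [co_smul, co_pe, co_pe, co_A]
  split_ifs with h
  · rw [h]
  · rw [mul_zero]

theorem ip_pe (E : ℝ) (x : n → ℂ) :
    ip x (pe hA E x) = ((∑ j, if hA.eigenvalues j = E then ‖co hA x j‖ ^ 2 else 0 : ℝ) : ℂ) := by
  rw [← ip_co hA]
  unfold ip
  rw [Complex.ofReal_sum]
  refine Finset.sum_congr rfl fun j _ => ?_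
  rw [co_pe]
  split_ifs with h
  · rw [Complex.conj_mul']
    push_cast
    rfl
  · simp

theorem ip_SS (t : ℝ) (x : n → ℂ) : ip x (SS hA t *ᵥ x) =
    ((∑ j, Real.exp (-(t * hA.eigenvalues j)) * ‖co hA x j‖ ^ 2 : ℝ) : ℂ) := by
  rw [← ip_co hA]
  unfold ip SS
  rw [Complex.ofReal_sum]
  refine Finset.sum_congr rfl fun j _ => ?_
  rw [co_FC]
  push_cast
  rw [← Complex.conj_mul']
  ring

theorem ip_SSA (t : ℝ) (x : n → ℂ) : ip x (SS hA t *ᵥ (A *ᵥ x)) =
    ((∑ j, hA.eigenvalues j * Real.exp (-(t * hA.eigenvalues j)) * ‖co hA x j‖ ^ 2 : ℝ) : ℂ) := by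
  rw [← ip_co hA]
  unfold ip SS
  rw [Complex.ofReal_sum]
  refine Finset.sum_congr rfl fun j _ => ?_
  rw [co_FC, co_A]
  push_cast
  rw [← Complex.conj_mul']
  ring

theorem SS_comm (t : ℝ) (x : n → ℂ) : A *ᵥ (SS hA t *ᵥ x) = SS hA t *ᵥ (A *ᵥ x) := by
  apply co_inj hA
  funext j
  rw [co_A]
  unfold SS
  rw [co_FC, co_FC, co_A]
  ring

end spec

/-- the local decomposition of a Hamiltonian -/
structure Dec (A : Matrix (V → Fin 2) (V → Fin 2) ℂ) (N : ℕ) (c₁ κ δ : ℝ) : Prop where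
  pos1 : 0 ≤ c₁
  pos2 : 0 < κ
  pos3 : 0 < δ
  ex : ∃ h G G' : Fin N → Matrix (V → Fin 2) (V → Fin 2) ℂ, A = ∑ k, h k ∧
    ∀ k, Good (G k) c₁ κ ∧ Good (G' k) c₁ κ ∧ (δ : ℂ) • h k = G k - G' k

theorem energy_ratio {A : Matrix (V → Fin 2) (V → Fin 2) ℂ} {hA : A.IsHermitian} {b₀ : ℝ}
    (hF : Flow hA b₀) {N : ℕ} {c₁ κ δ : ℝ} (hD : Dec A N c₁ κ δ) {τ : ℝ} (hτ0 : 0 ≤ τ)
    (hτ : 4 * c₁ * κ * Real.exp (-(2 * b₀ * τ)) ≤ 1) {ψ : (V → Fin 2) → ℂ} {zp : V → ℂ}
    (hψ : NV ψ) (hzp : ∀ v, ‖zp v‖ ≤ 1) (hip : ∀ u, ip ψ u = pol u zp) {σ σ' : ℝ} (hσ : τ ≤ σ)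
    (hσ' : σ ≤ σ') :
    ‖Qr hA A (SS hA τ *ᵥ ψ) zp σ' - Qr hA A (SS hA τ *ᵥ ψ) zp σ‖ ≤
      N * (16 * c₁ * κ ^ 2 / δ) * Real.exp (-(2 * b₀ * σ)) := by
  obtain ⟨hc₁, hκ, hδ, h, G, G', hAs, hG⟩ := hD
  set χ := SS hA τ *ᵥ ψ with hχ
  have hsum : ∀ s, Qr hA A χ zp s = ∑ k, Qr hA (h k) χ zp s := by
    intro s
    unfold Qr
    rw [← Finset.sum_div]
    congr 1
    have e : A *ᵥ χ = ∑ k, h k *ᵥ χ := by
      conv_lhs => rw [hAs]
      rw [Matrix.sum_mulVec]
    rw [e, Matrix.mulVec_sum, pol_sum]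
  have hk : ∀ k s, Qr hA (h k) χ zp s = (δ : ℂ)⁻¹ * (Qr hA (G k) χ zp s - Qr hA (G' k) χ zp s) := by
    intro k s
    have hδc : (δ : ℂ) ≠ 0 := by exact_mod_cast hδ.ne'
    have e : h k = (δ : ℂ)⁻¹ • (G k - G' k) := by
      rw [← (hG k).2.2, smul_smul, inv_mul_cancel₀ hδc, one_smul]
    unfold Qr
    rw [e, Matrix.smul_mulVec, Matrix.mulVec_smul, pol_smul, Matrix.sub_mulVec, Matrix.mulVec_sub,
      pol_sub]
    ring
  have hb : ∀ k, ‖Qr hA (h k) χ zp σ' - Qr hA (h k) χ zp σ‖ ≤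
      16 * c₁ * κ ^ 2 / δ * Real.exp (-(2 * b₀ * σ)) := by
    intro k
    rw [hk, hk]
    have e : (δ : ℂ)⁻¹ * (Qr hA (G k) χ zp σ' - Qr hA (G' k) χ zp σ') -
        (δ : ℂ)⁻¹ * (Qr hA (G k) χ zp σ - Qr hA (G' k) χ zp σ) =
        (δ : ℂ)⁻¹ * ((Qr hA (G k) χ zp σ' - Qr hA (G k) χ zp σ) -
          (Qr hA (G' k) χ zp σ' - Qr hA (G' k) χ zp σ)) := by ring
    rw [e, norm_mul, norm_inv, Complex.norm_real, Real.norm_of_nonneg hδ.le]
    have h1 := ratio hF (hG k).1 hκ hc₁ hτ0 hτ hψ hzp hip hσ hσ'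
    have h2 := ratio hF (hG k).2.1 hκ hc₁ hτ0 hτ hψ hzp hip hσ hσ'
    have h3 := (norm_sub_le (Qr hA (G k) χ zp σ' - Qr hA (G k) χ zp σ)
      (Qr hA (G' k) χ zp σ' - Qr hA (G' k) χ zp σ)).trans (add_le_add h1 h2)
    calc δ⁻¹ * _ ≤ δ⁻¹ * (8 * c₁ * κ ^ 2 * Real.exp (-(2 * b₀ * σ)) +
          8 * c₁ * κ ^ 2 * Real.exp (-(2 * b₀ * σ))) :=
          mul_le_mul_of_nonneg_left h3 (inv_nonneg.2 hδ.le)
      _ = 16 * c₁ * κ ^ 2 / δ * Real.exp (-(2 * b₀ * σ)) := by ring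
  rw [hsum, hsum, ← Finset.sum_sub_distrib]
  refine (norm_sum_le _ _).trans ((Finset.sum_le_sum fun k _ => hb k).trans ?_)
  rw [Finset.sum_const, Finset.card_univ, Fintype.card_fin, nsmul_eq_mul]
  apply le_of_eq
  ring

/-- one vector -/
theorem one_vector {A : Matrix (V → Fin 2) (V → Fin 2) ℂ} {hA : A.IsHermitian} {b₀ : ℝ}
    (hb₀ : 0 < b₀) (hF : Flow hA b₀) {N : ℕ} {c₁ κ δ : ℝ} (hD : Dec A N c₁ κ δ) {τ : ℝ}
    (hτ0 : 0 ≤ τ) (hτ : 4 * c₁ * κ * Real.exp (-(2 * b₀ * τ)) ≤ 1) {E : ℝ}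
    {Ω : (V → Fin 2) → ℂ} (hΩ : A *ᵥ Ω = (E : ℂ) • Ω) (hmin : ∀ j, E ≤ hA.eigenvalues j)
    (hnz : ∀ z : V → ℂ, (∀ v, ‖z v‖ < 1) → pol Ω z ≠ 0) {ρ : ℝ} (hρ0 : 0 ≤ ρ) (hρ : ρ < 1)
    (e : V → Fin 2) {t : ℝ} (ht : 2 * τ ≤ t) :
    ∑ j, Real.exp (-(t * (hA.eigenvalues j - E))) * ‖co hA (mon (sp ρ e)) j‖ ^ 2 ≤
      Real.exp (N * (16 * c₁ * κ ^ 2 / δ) * Real.exp (2 * b₀ * τ) / (2 * b₀) *
        Real.exp (-(2 * b₀ * t))) *
        ∑ j, (if hA.eigenvalues j = E then ‖co hA (mon (sp ρ e)) j‖ ^ 2 else 0) := by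
  have hc₁ := hD.pos1
  have hκ := hD.pos2
  have hδ := hD.pos3
  set ψ : (V → Fin 2) → ℂ := mon (sp ρ e) with hψd
  set zp := sp ρ e with hzpd
  have hzlt : ∀ v, ‖zp v‖ < 1 := fun v => by rw [hzpd, sp_norm hρ0]; exact hρ
  have hzle : ∀ v, ‖zp v‖ ≤ 1 := fun v => (hzlt v).le
  have hψ : NV ψ := NV_mon hzlt
  have hip : ∀ u, ip ψ u = pol u zp := ip_mon ρ e
  set p : (V → Fin 2) → ℝ := fun j => ‖co hA ψ j‖ ^ 2 with hp
  set Γ : ℝ := N * (16 * c₁ * κ ^ 2 / δ) with hΓ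
  have hΓ0 : 0 ≤ Γ := by positivity
  set P : ℝ := ∑ j, (if hA.eigenvalues j = E then p j else 0) with hP
  have hp0 : ∀ j, 0 ≤ p j := fun j => by positivity
  -- the overlap is positive
  have hPpos : 0 < P := by
    have h0 : 0 ≤ P := Finset.sum_nonneg fun j _ => by split_ifs <;> [exact hp0 j; exact le_rfl]
    rcases h0.eq_or_lt with h | h
    · exfalso
      have h1 : ∀ j, hA.eigenvalues j = E → co hA ψ j = 0 := by
        intro j hj
        have h2 := (Finset.sum_eq_zero_iff_of_nonneg (fun j _ => by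
          split_ifs <;> [exact hp0 j; exact le_rfl])).1 h.symm j (mem_univ j)
        rw [if_pos hj] at h2
        exact norm_eq_zero.1 (pow_eq_zero_iff two_ne_zero |>.1 h2)
      apply hnz zp hzlt
      rw [← hip, ← ip_co hA]
      unfold ip
      refine Finset.sum_eq_zero fun j _ => ?_
      by_cases hj : co hA Ω j = 0
      · rw [hj, mul_zero]
      · rw [h1 j (co_eig hA hΩ j hj), map_zero, zero_mul]
    · exact h
  set χ := SS hA τ *ᵥ ψ with hχ
  -- spectral expressions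
  have e1 : ∀ σ, pol (SS hA σ *ᵥ χ) zp =
      ((∑ j, Real.exp (-((σ + τ) * hA.eigenvalues j)) * p j : ℝ) : ℂ) := by
    intro σ
    rw [← hip, hχ, Matrix.mulVec_mulVec, ← SS_add, ip_SS]
  have e2 : ∀ σ, pol (SS hA σ *ᵥ (A *ᵥ χ)) zp =
      ((∑ j, hA.eigenvalues j * Real.exp (-((σ + τ) * hA.eigenvalues j)) * p j : ℝ) : ℂ) := by
    intro σ
    rw [← hip, hχ, SS_comm hA τ, Matrix.mulVec_mulVec, ← SS_add, ip_SSA]
  -- the limit of the quotient
  have hlimQ : Filter.Tendsto (fun σ : ℝ => Qr hA A χ zp σ) Filter.atTop (nhds (E : ℂ)) := by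
    have h1 : Filter.Tendsto (fun t : ℝ => pol (((Real.exp (t * E) : ℝ) : ℂ) • (SS hA t *ᵥ χ)) zp)
        Filter.atTop (nhds (pol (pe hA E χ) zp)) :=
      ((pol_cont_left zp).tendsto _).comp (pe_lim hA E χ hmin)
    have h2 : Filter.Tendsto
        (fun t : ℝ => pol (((Real.exp (t * E) : ℝ) : ℂ) • (SS hA t *ᵥ (A *ᵥ χ))) zp)
        Filter.atTop (nhds (pol (pe hA E (A *ᵥ χ)) zp)) :=
      ((pol_cont_left zp).tendsto _).comp (pe_lim hA E (A *ᵥ χ) hmin)
    have h3 : pol (pe hA E χ) zp ≠ 0 := by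
      rw [hχ, pe_SS, pol_smul, ← hip, ip_pe]
      refine mul_ne_zero ?_ ?_
      · exact_mod_cast (Real.exp_pos _).ne'
      · exact_mod_cast hPpos.ne'
    have h4 : (E : ℂ) = pol (pe hA E (A *ᵥ χ)) zp / pol (pe hA E χ) zp := by
      rw [pe_A, pol_smul, mul_div_cancel_right₀ _ h3]
    rw [h4]
    refine (h2.div h1 h3).congr fun t => ?_
    unfold Qr
    rw [Pi.div_apply, pol_smul, pol_smul, mul_div_mul_left]
    exact_mod_cast (Real.exp_pos _).ne'
  -- the bound for the energy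
  have hen : ∀ σ, τ ≤ σ → ‖(E : ℂ) - Qr hA A χ zp σ‖ ≤ Γ * Real.exp (-(2 * b₀ * σ)) := by
    intro σ hσ
    refine le_of_tendsto (hlimQ.sub_const _).norm ?_
    filter_upwards [Filter.eventually_ge_atTop σ] with σ' hσ'
    exact energy_ratio hF hD hτ0 hτ hψ hzle hip hσ hσ'
  -- the function
  set Y : ℝ → ℝ := fun t => ∑ j, Real.exp (-(t * (hA.eigenvalues j - E))) * p j with hY
  set K : ℝ := Γ * Real.exp (2 * b₀ * τ) / (2 * b₀) with hK
  have hK0 : 0 ≤ K := by positivity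
  have hYder : ∀ t, HasDerivAt Y
      (-∑ j, (hA.eigenvalues j - E) * Real.exp (-(t * (hA.eigenvalues j - E))) * p j) t := by
    intro t
    rw [hY, ← Finset.sum_neg_distrib]
    refine HasDerivAt.fun_sum fun j _ => ?_
    have h1 : HasDerivAt (fun t : ℝ => -(t * (hA.eigenvalues j - E))) (-(hA.eigenvalues j - E)) t := by
      simpa using ((hasDerivAt_id t).mul_const (hA.eigenvalues j - E)).fun_neg
    have h2 := (h1.exp).mul_const (p j)
    refine h2.congr_deriv ?_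
    ring
  have hineq : ∀ t, 2 * τ ≤ t →
      ∑ j, (hA.eigenvalues j - E) * Real.exp (-(t * (hA.eigenvalues j - E))) * p j ≤
        K * (2 * b₀) * Real.exp (-(2 * b₀ * t)) * Y t := by
    intro t ht
    have h1 := hen (t - τ) (by linarith)
    unfold Qr at h1
    rw [e1, e2, sub_add_cancel, ← Complex.ofReal_div, ← Complex.ofReal_sub, Complex.norm_real,
      Real.norm_eq_abs] at h1
    set Z := ∑ j, Real.exp (-(t * hA.eigenvalues j)) * p j with hZ
    set Z' := ∑ j, hA.eigenvalues j * Real.exp (-(t * hA.eigenvalues j)) * p j with hZ'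
    have h2 : Y t = Real.exp (t * E) * Z := by
      simp only [hY]
      rw [hZ, Finset.mul_sum]
      refine Finset.sum_congr rfl fun j _ => ?_
      rw [← mul_assoc, ← Real.exp_add]
      congr 2
      ring
    have h3 : ∑ j, (hA.eigenvalues j - E) * Real.exp (-(t * (hA.eigenvalues j - E))) * p j =
        Real.exp (t * E) * (Z' - E * Z) := by
      rw [hZ, hZ', Finset.mul_sum, ← Finset.sum_sub_distrib, Finset.mul_sum]
      refine Finset.sum_congr rfl fun j _ => ?_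
      have h4 : Real.exp (-(t * (hA.eigenvalues j - E))) =
          Real.exp (t * E) * Real.exp (-(t * hA.eigenvalues j)) := by
        rw [← Real.exp_add]
        congr 1
        ring
      rw [h4]
      ring
    have hZpos : 0 < Z := by
      have h5 : P ≤ Y t := by
        simp only [hY, hP]
        refine Finset.sum_le_sum fun j _ => ?_
        split_ifs with hj
        · rw [hj]
          simp
        · exact mul_nonneg (Real.exp_pos _).le (hp0 j)
      rw [h2] at h5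
      have h6 := Real.exp_pos (t * E)
      by_contra hc
      push Not at hc
      have := mul_nonpos_of_nonneg_of_nonpos h6.le hc
      linarith
    have h5 : Z' / Z - E ≤ Γ * Real.exp (-(2 * b₀ * (t - τ))) := by
      have := (abs_le.1 h1).1
      linarith
    have h6 : Z' - E * Z ≤ Γ * Real.exp (-(2 * b₀ * (t - τ))) * Z := by
      have h7 := mul_le_mul_of_nonneg_right h5 hZpos.le
      rw [sub_mul, div_mul_cancel₀ _ hZpos.ne'] at h7
      exact h7
    rw [h3, h2]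
    have h8 : K * (2 * b₀) * Real.exp (-(2 * b₀ * t)) = Γ * Real.exp (-(2 * b₀ * (t - τ))) := by
      rw [hK, div_mul_cancel₀ _ (by positivity), mul_assoc, ← Real.exp_add]
      congr 2
      ring
    rw [h8]
    calc Real.exp (t * E) * (Z' - E * Z)
        ≤ Real.exp (t * E) * (Γ * Real.exp (-(2 * b₀ * (t - τ))) * Z) :=
          mul_le_mul_of_nonneg_left h6 (Real.exp_pos _).le
      _ = Γ * Real.exp (-(2 * b₀ * (t - τ))) * (Real.exp (t * E) * Z) := by ring
  -- monotonicity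
  set W : ℝ → ℝ := fun t => Y t * Real.exp (-(K * Real.exp (-(2 * b₀ * t)))) with hW
  have hWder : ∀ t, HasDerivAt W
      ((-∑ j, (hA.eigenvalues j - E) * Real.exp (-(t * (hA.eigenvalues j - E))) * p j) *
        Real.exp (-(K * Real.exp (-(2 * b₀ * t)))) +
        Y t * (Real.exp (-(K * Real.exp (-(2 * b₀ * t)))) *
          (K * (2 * b₀) * Real.exp (-(2 * b₀ * t))))) t := by
    intro t
    have h1 : HasDerivAt (fun t : ℝ => -(2 * b₀ * t)) (-(2 * b₀)) t := by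
      simpa using ((hasDerivAt_id t).const_mul (2 * b₀)).fun_neg
    have h2 : HasDerivAt (fun t : ℝ => -(K * Real.exp (-(2 * b₀ * t))))
        (K * (2 * b₀) * Real.exp (-(2 * b₀ * t))) t := by
      refine ((h1.exp.const_mul K).neg).congr_deriv ?_
      ring
    exact (hYder t).mul h2.exp
  have hmono : MonotoneOn W (Set.Ici (2 * τ)) := by
    apply monotoneOn_of_deriv_nonneg (convex_Ici _)
    · exact fun t _ => (hWder t).continuousAt.continuousWithinAt
    · exact fun t _ => (hWder t).differentiableAt.differentiableWithinAt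
    · intro t ht
      rw [interior_Ici] at ht
      rw [(hWder t).deriv]
      have h1 := hineq t (le_of_lt ht)
      have h2 := Real.exp_pos (-(K * Real.exp (-(2 * b₀ * t))))
      have h3 : 0 ≤ (K * (2 * b₀) * Real.exp (-(2 * b₀ * t)) * Y t -
          ∑ j, (hA.eigenvalues j - E) * Real.exp (-(t * (hA.eigenvalues j - E))) * p j) *
          Real.exp (-(K * Real.exp (-(2 * b₀ * t)))) := mul_nonneg (by linarith) h2.le
      linarith
  have hlimY : Filter.Tendsto Y Filter.atTop (nhds P) := by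
    simp only [hY, hP]
    refine tendsto_finsetSum _ fun j _ => ?_
    split_ifs with hj
    · rw [hj]
      simp
    · have h1 : 0 < hA.eigenvalues j - E := sub_pos.2 (lt_of_le_of_ne (hmin j) (Ne.symm hj))
      have h2 : Filter.Tendsto (fun t : ℝ => Real.exp (-(t * (hA.eigenvalues j - E)))) Filter.atTop
          (nhds 0) := by
        apply Real.tendsto_exp_neg_atTop_nhds_zero.comp
        exact Filter.tendsto_id.atTop_mul_const h1
      simpa using h2.mul_const (p j)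
  have hlimW : Filter.Tendsto W Filter.atTop (nhds P) := by
    have h1 : Filter.Tendsto (fun t : ℝ => Real.exp (-(2 * b₀ * t))) Filter.atTop (nhds 0) := by
      apply Real.tendsto_exp_neg_atTop_nhds_zero.comp
      exact Filter.tendsto_id.const_mul_atTop (by positivity)
    have h2 : Filter.Tendsto (fun t : ℝ => Real.exp (-(K * Real.exp (-(2 * b₀ * t)))))
        Filter.atTop (nhds 1) := by
      have h3 := (Real.continuous_exp.tendsto _).comp ((h1.const_mul K).neg)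
      simpa [Function.comp_def] using h3
    simpa using hlimY.mul h2
  have hfin : W t ≤ P := by
    refine ge_of_tendsto hlimW ?_
    filter_upwards [Filter.eventually_ge_atTop t] with t' ht'
    exact hmono ht (ht.trans ht') ht'
  have h1 : Y t = W t * Real.exp (K * Real.exp (-(2 * b₀ * t))) := by
    simp only [hW]
    rw [mul_assoc, ← Real.exp_add, neg_add_cancel, Real.exp_zero, mul_one]
  change Y t ≤ _
  rw [h1, mul_comm (Real.exp _)]
  exact mul_le_mul_of_nonneg_right hfin (Real.exp_pos _).le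

end Pool.Agent.KS6_99.LY
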