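import Pool.Agent.KS6_99.LY.Part

/-!
The partition function: summation over the vectors of signs.
-/

set_option autoImplicit false
set_option linter.unusedSectionVars false

open scoped BigOperators Matrix
open Finset Pool.Agent.TH235.PP

namespace Pool.Agent.KS6_99.LY

variable {V : Type*} [Fintype V] [DecidableEq V]

theorem sp_one (e : V → Fin 2) : sp 1 e = sv e := by
  funext v
  unfold sp
  rw [Complex.ofReal_one, one_mul]

theorem sp_cont (e : V → Fin 2) : Continuous fun ρ : ℝ => (mon (sp ρ e) : (V → Fin 2) → ℂ) := by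
  refine continuous_pi fun s => ?_
  unfold mon
  refine continuous_finsetProd _ fun v _ => ?_
  unfold mf sp
  split_ifs
  · exact continuous_const
  · exact Complex.continuous_ofReal.mul continuous_const

theorem co_cont {n : Type*} [Fintype n] [DecidableEq n] {A : Matrix n n ℂ} (hA : A.IsHermitian)
    (j : n) : Continuous fun x : n → ℂ => co hA x j := by
  unfold co
  exact (continuous_apply j).comp (Continuous.matrix_mulVec continuous_const continuous_id)

theorem sum_signs {A : Matrix (V → Fin 2) (V → Fin 2) ℂ} (hA : A.IsHermitian) (j : V → Fin 2) :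
    ∑ e : V → Fin 2, ‖co hA (mon (sv e)) j‖ ^ 2 = 2 ^ Fintype.card V := by
  have h1 : ∀ e : V → Fin 2, ‖co hA (mon (sv e)) j‖ = ‖pol (fun s => UU hA s j) (sv e)‖ := by
    intro e
    rw [← Complex.norm_conj (pol _ _)]
    congr 1
    unfold co pol Matrix.mulVec dotProduct
    rw [map_sum]
    refine Finset.sum_congr rfl fun s _ => ?_
    have := mon_conj 1 e s
    rw [sp_one] at this
    rw [map_mul, this]
    rfl
  rw [Finset.sum_congr rfl fun e _ => by rw [h1 e], parseval]
  have h2 : ∑ s, ‖UU hA s j‖ ^ 2 = 1 := by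
    have h3 := congrFun (congrFun (UU_left hA) j) j
    rw [Matrix.mul_apply, Matrix.one_apply_eq] at h3
    have h4 : ((∑ s, ‖UU hA s j‖ ^ 2 : ℝ) : ℂ) = 1 := by
      rw [← h3, Complex.ofReal_sum]
      refine Finset.sum_congr rfl fun s _ => ?_
      rw [Matrix.conjTranspose_apply, Complex.star_def, Complex.conj_mul']
      push_cast
      rfl
    exact_mod_cast h4
  rw [h2, mul_one]

/-- the partition function -/
theorem part_bound {A : Matrix (V → Fin 2) (V → Fin 2) ℂ} {hA : A.IsHermitian} {b₀ : ℝ}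
    (hb₀ : 0 < b₀) (hF : Flow hA b₀) {N : ℕ} {c₁ κ δ : ℝ} (hD : Dec A N c₁ κ δ) {τ : ℝ}
    (hτ0 : 0 ≤ τ) (hτ : 4 * c₁ * κ * Real.exp (-(2 * b₀ * τ)) ≤ 1) {E : ℝ}
    {Ω : (V → Fin 2) → ℂ} (hΩ : A *ᵥ Ω = (E : ℂ) • Ω)
    (hmin : ∀ j, E ≤ hA.eigenvalues j)
    (hsimple : ∀ φ : (V → Fin 2) → ℂ, A *ᵥ φ = (E : ℂ) • φ → ∃ c : ℂ, φ = c • Ω)
    (hnz : ∀ z : V → ℂ, (∀ v, ‖z v‖ < 1) → pol Ω z ≠ 0) {t : ℝ} (ht : 2 * τ ≤ t) :
    ∑ j, Real.exp (-(t * (hA.eigenvalues j - E))) ≤
      Real.exp (N * (16 * c₁ * κ ^ 2 / δ) * Real.exp (2 * b₀ * τ) / (2 * b₀) *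
        Real.exp (-(2 * b₀ * t))) := by
  set g : ℝ := Real.exp (N * (16 * c₁ * κ ^ 2 / δ) * Real.exp (2 * b₀ * τ) / (2 * b₀) *
        Real.exp (-(2 * b₀ * t))) with hg
  -- one vector of signs
  have h1 : ∀ e : V → Fin 2,
      ∑ j, Real.exp (-(t * (hA.eigenvalues j - E))) * ‖co hA (mon (sv e)) j‖ ^ 2 ≤
      g * ∑ j, (if hA.eigenvalues j = E then ‖co hA (mon (sv e)) j‖ ^ 2 else 0) := by
    intro e
    have hρ : Filter.Tendsto (fun m : ℕ => 1 - 1 / ((m : ℝ) + 1)) Filter.atTop (nhds 1) := by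
      have := (tendsto_one_div_add_atTop_nhds_zero_nat (𝕜 := ℝ)).const_sub 1
      simpa using this
    have hc : ∀ j, Filter.Tendsto (fun m : ℕ => ‖co hA (mon (sp (1 - 1 / ((m : ℝ) + 1)) e)) j‖ ^ 2)
        Filter.atTop (nhds (‖co hA (mon (sv e)) j‖ ^ 2)) := by
      intro j
      have h2 := (((co_cont hA j).comp (sp_cont e)).norm.pow 2).tendsto 1
      have h3 := h2.comp hρ
      simp only [Function.comp_def, Pi.pow_apply, sp_one] at h3
      exact h3
    refine le_of_tendsto_of_tendsto' (tendsto_finsetSum _ fun j _ => (hc j).const_mul _)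
      ((tendsto_finsetSum _ fun j _ => ?_).const_mul g) (f := fun m : ℕ =>
        ∑ j, Real.exp (-(t * (hA.eigenvalues j - E))) *
          ‖co hA (mon (sp (1 - 1 / ((m : ℝ) + 1)) e)) j‖ ^ 2)
      (g := fun m : ℕ => g * ∑ j, (if hA.eigenvalues j = E then
        ‖co hA (mon (sp (1 - 1 / ((m : ℝ) + 1)) e)) j‖ ^ 2 else 0)) ?_
    · split_ifs
      · exact hc j
      · exact tendsto_const_nhds
    · intro m
      have hm : (0 : ℝ) < (m : ℝ) + 1 := by positivity
      apply one_vector hb₀ hF hD hτ0 hτ hΩ hmin hnz _ _ e ht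
      · have : 1 / ((m : ℝ) + 1) ≤ 1 := by
          rw [div_le_one hm]
          linarith [(Nat.cast_nonneg m : (0 : ℝ) ≤ m)]
        linarith
      · have : 0 < 1 / ((m : ℝ) + 1) := by positivity
        linarith
  -- at most one eigenvalue is `E`
  have h2 : ∀ j j', hA.eigenvalues j = E → hA.eigenvalues j' = E → j = j' := by
    intro j j' hj hj'
    by_contra hne
    have hu : ∀ i, hA.eigenvalues i = E → ∃ c : ℂ, UU hA *ᵥ Pi.single i 1 = c • Ω := by
      intro i hi
      apply hsimple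
      apply co_inj hA
      funext k
      rw [co_A, co_smul, co_UU]
      by_cases hk : k = i
      · rw [hk, hi]
      · rw [Pi.single_eq_of_ne hk, mul_zero, mul_zero]
    obtain ⟨c, hc⟩ := hu j hj
    obtain ⟨c', hc'⟩ := hu j' hj'
    have k1 : ∀ k, (Pi.single j 1 : (V → Fin 2) → ℂ) k = c * co hA Ω k := by
      intro k
      rw [← co_smul, ← hc, co_UU]
    have k2 : ∀ k, (Pi.single j' 1 : (V → Fin 2) → ℂ) k = c' * co hA Ω k := by
      intro k
      rw [← co_smul, ← hc', co_UU]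
    have l1 := k1 j
    have l2 := k1 j'
    have l3 := k2 j'
    rw [Pi.single_eq_same] at l1 l3
    rw [Pi.single_eq_of_ne (Ne.symm hne)] at l2
    rcases mul_eq_zero.1 l2.symm with h | h
    · rw [h, zero_mul] at l1
      exact one_ne_zero l1
    · rw [h, mul_zero] at l3
      exact one_ne_zero l3
  have h3 : ∑ j, (if hA.eigenvalues j = E then (1 : ℝ) else 0) ≤ 1 := by
    rw [Finset.sum_boole]
    have : (univ.filter fun j => hA.eigenvalues j = E).card ≤ 1 := by
      rw [Finset.card_le_one]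
      intro a ha b hb
      rw [mem_filter] at ha hb
      exact h2 a b ha.2 hb.2
    exact_mod_cast this
  -- summation
  have h4 : ∑ e : V → Fin 2, ∑ j, Real.exp (-(t * (hA.eigenvalues j - E))) *
      ‖co hA (mon (sv e)) j‖ ^ 2 =
      2 ^ Fintype.card V * ∑ j, Real.exp (-(t * (hA.eigenvalues j - E))) := by
    rw [Finset.sum_comm, Finset.mul_sum]
    refine Finset.sum_congr rfl fun j _ => ?_
    rw [← Finset.mul_sum, sum_signs, mul_comm]
  have h5 : ∑ e : V → Fin 2, g * ∑ j, (if hA.eigenvalues j = E then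
      ‖co hA (mon (sv e)) j‖ ^ 2 else 0) =
      2 ^ Fintype.card V * (g * ∑ j, (if hA.eigenvalues j = E then (1 : ℝ) else 0)) := by
    rw [← Finset.mul_sum, Finset.sum_comm]
    have h6 : ∀ j, ∑ e : V → Fin 2, (if hA.eigenvalues j = E then
        ‖co hA (mon (sv e)) j‖ ^ 2 else 0) =
        2 ^ Fintype.card V * (if hA.eigenvalues j = E then (1 : ℝ) else 0) := by
      intro j
      split_ifs
      · rw [sum_signs, mul_one]
      · simp
    rw [Finset.sum_congr rfl fun j _ => h6 j, ← Finset.mul_sum]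
    ring
  have h6 := Finset.sum_le_sum fun e (_ : e ∈ (univ : Finset (V → Fin 2))) => h1 e
  rw [h4, h5] at h6
  have h7 : (0 : ℝ) < 2 ^ Fintype.card V := by positivity
  have h8 := le_of_mul_le_mul_left h6 h7
  refine h8.trans ?_
  have hg0 : 0 < g := Real.exp_pos _
  calc g * ∑ j, (if hA.eigenvalues j = E then (1 : ℝ) else 0) ≤ g * 1 :=
        mul_le_mul_of_nonneg_left h3 hg0.le
    _ = g := mul_one g

end Pool.Agent.KS6_99.LY
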