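import Mathlib

/-!
Multi-affine polynomials of vectors of spin configurations.
-/

set_option autoImplicit false
set_option linter.unusedSectionVars false

open scoped BigOperators
open Finset

namespace Pool.Agent.KS6_99.LY

variable {V : Type*} [Fintype V] [DecidableEq V]

/-- the factor of one spin -/
noncomputable def mf (i : Fin 2) (c : ℂ) : ℂ := if i = 0 then 1 else c

@[simp] theorem mf_zero (c : ℂ) : mf 0 c = 1 := by simp [mf]

@[simp] theorem mf_one (c : ℂ) : mf 1 c = c := by simp [mf]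

/-- the monomial of the configuration `s` -/
noncomputable def mon (z : V → ℂ) (s : V → Fin 2) : ℂ := ∏ v, mf (s v) (z v)

/-- the polynomial of the vector `x` -/
noncomputable def pol (x : (V → Fin 2) → ℂ) (z : V → ℂ) : ℂ := ∑ s, x s * mon z s

/-- no zeros on the closed polydisc -/
def NV (x : (V → Fin 2) → ℂ) : Prop := ∀ z : V → ℂ, (∀ v, ‖z v‖ ≤ 1) → pol x z ≠ 0

theorem pol_add (x y : (V → Fin 2) → ℂ) (z : V → ℂ) : pol (x + y) z = pol x z + pol y z := by
  unfold pol
  rw [← Finset.sum_add_distrib]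
  exact Finset.sum_congr rfl fun s _ => by rw [Pi.add_apply, add_mul]

theorem pol_sub (x y : (V → Fin 2) → ℂ) (z : V → ℂ) : pol (x - y) z = pol x z - pol y z := by
  unfold pol
  rw [← Finset.sum_sub_distrib]
  exact Finset.sum_congr rfl fun s _ => by rw [Pi.sub_apply, sub_mul]

theorem pol_smul (c : ℂ) (x : (V → Fin 2) → ℂ) (z : V → ℂ) : pol (c • x) z = c * pol x z := by
  unfold pol
  rw [Finset.mul_sum]
  exact Finset.sum_congr rfl fun s _ => by rw [Pi.smul_apply, smul_eq_mul, mul_assoc]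

theorem pol_zero (z : V → ℂ) : pol (0 : (V → Fin 2) → ℂ) z = 0 := by
  unfold pol
  simp

theorem pol_sum {ι : Type*} (s : Finset ι) (x : ι → (V → Fin 2) → ℂ) (z : V → ℂ) :
    pol (∑ i ∈ s, x i) z = ∑ i ∈ s, pol (x i) z := by
  classical
  induction s using Finset.induction_on with
  | empty => simp [pol_zero]
  | insert a s ha ih => rw [Finset.sum_insert ha, Finset.sum_insert ha, pol_add, ih]

theorem pol_cont (x : (V → Fin 2) → ℂ) : Continuous (pol x) := by
  unfold pol mon mf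
  refine continuous_finsetSum _ fun s _ => continuous_const.mul (continuous_finsetProd _ fun v _ => ?_)
  split_ifs
  · exact continuous_const
  · exact continuous_apply v

theorem pol_cont_left (z : V → ℂ) : Continuous fun x : (V → Fin 2) → ℂ => pol x z := by
  unfold pol
  exact continuous_finsetSum _ fun s _ => (continuous_apply s).mul continuous_const

/-- the monomial away from `v` -/
noncomputable def mE (v : V) (z : V → ℂ) (s : V → Fin 2) : ℂ := ∏ w ∈ univ.erase v, mf (s w) (z w)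

theorem mon_eq (v : V) (z : V → ℂ) (s : V → Fin 2) : mon z s = mf (s v) (z v) * mE v z s :=
  (Finset.mul_prod_erase univ (fun v => mf (s v) (z v)) (mem_univ v)).symm

/-- the coefficients in one variable -/
noncomputable def cf (x : (V → Fin 2) → ℂ) (z : V → ℂ) (v : V) (i : Fin 2) : ℂ :=
  ∑ s, if s v = i then x s * mE v z s else 0

theorem mE_update (v : V) (z : V → ℂ) (s : V → Fin 2) (c : ℂ) :
    mE v (Function.update z v c) s = mE v z s := by
  unfold mE
  refine Finset.prod_congr rfl fun w hw => ?_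
  rw [Function.update_of_ne (Finset.ne_of_mem_erase hw)]

theorem cf_update (x : (V → Fin 2) → ℂ) (z : V → ℂ) (v : V) (i : Fin 2) (c : ℂ) :
    cf x (Function.update z v c) v i = cf x z v i := by
  unfold cf
  simp only [mE_update]

theorem sum_cf (x : (V → Fin 2) → ℂ) (z : V → ℂ) (v : V) (F : Fin 2 → ℂ) :
    ∑ s, x s * (F (s v) * mE v z s) = ∑ i, F i * cf x z v i := by
  unfold cf
  simp only [Finset.mul_sum]
  rw [Finset.sum_comm]
  refine Finset.sum_congr rfl fun s _ => ?_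
  rw [Finset.sum_eq_single (s v)]
  · rw [if_pos rfl]
    ring
  · intro i _ hi
    rw [if_neg (Ne.symm hi), mul_zero]
  · intro h
    exact absurd (mem_univ _) h

theorem pol_split (x : (V → Fin 2) → ℂ) (z : V → ℂ) (v : V) :
    pol x z = cf x z v 0 + z v * cf x z v 1 := by
  have h := sum_cf x z v (fun i => mf i (z v))
  rw [Fin.sum_univ_two, mf_zero, mf_one, one_mul] at h
  rw [← h]
  unfold pol
  exact Finset.sum_congr rfl fun s _ => by rw [mon_eq v]

theorem pol_update (x : (V → Fin 2) → ℂ) (z : V → ℂ) (v : V) (c : ℂ) :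
    pol x (Function.update z v c) = cf x z v 0 + c * cf x z v 1 := by
  rw [pol_split x _ v, cf_update, cf_update, Function.update_self]

/-- one affine function without zeros -/
theorem aff_lt {A B : ℂ} (h : ∀ c : ℂ, ‖c‖ ≤ 1 → A + c * B ≠ 0) : ‖B‖ < ‖A‖ := by
  by_contra hc
  push Not at hc
  by_cases hB : B = 0
  · rw [hB, norm_zero] at hc
    have hA : A = 0 := norm_le_zero_iff.1 hc
    exact h 0 (by simp) (by rw [hA, hB]; simp)
  · apply h (-(A / B))
    · rw [norm_neg, norm_div]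
      exact div_le_one_of_le₀ hc (norm_nonneg _)
    · field_simp
      ring

theorem aff_ne {A B : ℂ} (h : ‖B‖ < ‖A‖) (c : ℂ) (hc : ‖c‖ ≤ 1) : A + c * B ≠ 0 := by
  intro h0
  have h1 : ‖A‖ = ‖c * B‖ := by
    rw [← norm_neg (c * B)]
    congr 1
    linear_combination h0
  rw [norm_mul] at h1
  have h2 : ‖c‖ * ‖B‖ ≤ 1 * ‖B‖ := mul_le_mul_of_nonneg_right hc (norm_nonneg _)
  linarith

theorem NV.cf_lt {x : (V → Fin 2) → ℂ} (h : NV x) {z : V → ℂ} (hz : ∀ v, ‖z v‖ ≤ 1) (v : V) :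
    ‖cf x z v 1‖ < ‖cf x z v 0‖ := by
  apply aff_lt
  intro c hc
  rw [← pol_update]
  apply h
  intro w
  by_cases hw : w = v
  · rw [hw, Function.update_self]
    exact hc
  · rw [Function.update_of_ne hw]
    exact hz w

/-- the point with the coordinates in `X` replaced by `0` -/
noncomputable def zr (X : Finset V) (z : V → ℂ) : V → ℂ := fun v => if v ∈ X then 0 else z v

theorem zr_insert (X : Finset V) (z : V → ℂ) (v : V) :
    zr (insert v X) z = Function.update (zr X z) v 0 := by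
  funext w
  unfold zr
  by_cases hw : w = v
  · rw [hw, Function.update_self, if_pos (mem_insert_self _ _)]
  · rw [Function.update_of_ne hw]
    by_cases h : w ∈ X
    · rw [if_pos h, if_pos (mem_insert_of_mem h)]
    · rw [if_neg h, if_neg (fun h2 => h (mem_of_mem_insert_of_ne h2 hw))]

theorem zr_norm (X : Finset V) {z : V → ℂ} (hz : ∀ v, ‖z v‖ ≤ 1) (v : V) : ‖zr X z v‖ ≤ 1 := by
  unfold zr
  split_ifs
  · simp
  · exact hz v

/-- bounds for the polynomial in terms of its value at zero -/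
theorem NV.bounds {x : (V → Fin 2) → ℂ} (h : NV x) {z : V → ℂ} (hz : ∀ v, ‖z v‖ ≤ 1) (ρ : ℝ)
    (X : Finset V) (hρ : ∀ v ∈ X, ‖z v‖ ≤ ρ) (hρ1 : ρ ≤ 1) :
    (1 - ρ) ^ X.card * ‖pol x (zr X z)‖ ≤ ‖pol x z‖ ∧
      ‖pol x z‖ ≤ 2 ^ X.card * ‖pol x (zr X z)‖ := by
  induction X using Finset.induction_on with
  | empty =>
    have : zr (∅ : Finset V) z = z := by
      funext v
      simp [zr]
    rw [this]
    simp
  | insert v X hv ih =>
    obtain ⟨i1, i2⟩ := ih fun w hw => hρ w (mem_insert_of_mem hw)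
    have hzv : zr X z v = z v := by
      unfold zr
      rw [if_neg hv]
    have hlt := h.cf_lt (zr_norm X hz) v
    have e1 : pol x (zr X z) = cf x (zr X z) v 0 + z v * cf x (zr X z) v 1 := by
      rw [pol_split x _ v, hzv]
    have e2 : pol x (zr (insert v X) z) = cf x (zr X z) v 0 := by
      rw [zr_insert, pol_update, zero_mul, add_zero]
    rw [card_insert_of_notMem hv, e2, pow_succ, pow_succ]
    have hzρ : ‖z v‖ ≤ ρ := hρ v (mem_insert_self _ _)
    have h1 : (1 - ρ) * ‖cf x (zr X z) v 0‖ ≤ ‖pol x (zr X z)‖ := by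
      rw [e1]
      have h2 := norm_sub_norm_le (cf x (zr X z) v 0) (-(z v * cf x (zr X z) v 1))
      rw [sub_neg_eq_add, norm_neg, norm_mul] at h2
      have h3 : ‖z v‖ * ‖cf x (zr X z) v 1‖ ≤ ρ * ‖cf x (zr X z) v 0‖ :=
        mul_le_mul hzρ hlt.le (norm_nonneg _) ((norm_nonneg _).trans hzρ)
      linarith
    have h2 : ‖pol x (zr X z)‖ ≤ 2 * ‖cf x (zr X z) v 0‖ := by
      rw [e1]
      refine (norm_add_le _ _).trans ?_
      rw [norm_mul]
      have h3 : ‖z v‖ * ‖cf x (zr X z) v 1‖ ≤ 1 * ‖cf x (zr X z) v 0‖ :=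
        mul_le_mul (hz v) hlt.le (norm_nonneg _) zero_le_one
      linarith
    have hp : 0 ≤ (1 - ρ) ^ X.card := pow_nonneg (by linarith) _
    constructor
    · calc (1 - ρ) ^ X.card * (1 - ρ) * ‖cf x (zr X z) v 0‖
          = (1 - ρ) ^ X.card * ((1 - ρ) * ‖cf x (zr X z) v 0‖) := by ring
        _ ≤ (1 - ρ) ^ X.card * ‖pol x (zr X z)‖ := mul_le_mul_of_nonneg_left h1 hp
        _ ≤ ‖pol x z‖ := i1
    · calc ‖pol x z‖ ≤ 2 ^ X.card * ‖pol x (zr X z)‖ := i2
        _ ≤ 2 ^ X.card * (2 * ‖cf x (zr X z) v 0‖) := mul_le_mul_of_nonneg_left h2 (by positivity)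
        _ = 2 ^ X.card * 2 * ‖cf x (zr X z) v 0‖ := by ring

/-- the point of signs -/
noncomputable def sv (e : V → Fin 2) : V → ℂ := fun v => if e v = 0 then 1 else -1

theorem sv_norm (e : V → Fin 2) (v : V) : ‖sv e v‖ ≤ 1 := by
  unfold sv
  split_ifs <;> simp

theorem mon_mul_sum (s t : V → Fin 2) :
    ∑ e : V → Fin 2, mon (sv e) s * mon (sv e) t = if s = t then (2 : ℂ) ^ Fintype.card V else 0 := by
  have h1 : ∀ e : V → Fin 2, mon (sv e) s * mon (sv e) t =
      ∏ v, (mf (s v) (if e v = 0 then 1 else -1) * mf (t v) (if e v = 0 then 1 else -1)) := by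
    intro e
    unfold mon sv
    rw [Finset.prod_mul_distrib]
  have h2 : ∑ e : V → Fin 2, ∏ v,
      (mf (s v) (if e v = 0 then 1 else -1) * mf (t v) (if e v = 0 then 1 else -1)) =
      ∏ v, ∑ i : Fin 2, (mf (s v) (if i = 0 then 1 else -1) * mf (t v) (if i = 0 then 1 else -1)) := by
    rw [Finset.prod_univ_sum, Fintype.piFinset_univ]
  have h3 : ∀ v, (∑ i : Fin 2, (mf (s v) (if i = 0 then 1 else -1) *
      mf (t v) (if i = 0 then 1 else -1)) : ℂ) = if s v = t v then 2 else 0 := by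
    intro v
    rw [Fin.sum_univ_two]
    generalize s v = a
    generalize t v = b
    fin_cases a <;> fin_cases b <;> norm_num [mf]
  rw [Finset.sum_congr rfl fun e _ => h1 e, h2, Finset.prod_congr rfl fun v _ => h3 v]
  by_cases h : s = t
  · subst h
    simp
  · rw [if_neg h]
    obtain ⟨v, hv⟩ := Function.ne_iff.1 h
    exact Finset.prod_eq_zero (mem_univ v) (if_neg hv)

theorem coef (x : (V → Fin 2) → ℂ) (s : V → Fin 2) :
    ∑ e : V → Fin 2, mon (sv e) s * pol x (sv e) = 2 ^ Fintype.card V * x s := by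
  unfold pol
  simp only [Finset.mul_sum]
  rw [Finset.sum_comm]
  have h1 : ∀ t : V → Fin 2, ∑ e : V → Fin 2, mon (sv e) s * (x t * mon (sv e) t) =
      x t * (if s = t then (2 : ℂ) ^ Fintype.card V else 0) := by
    intro t
    rw [← mon_mul_sum, Finset.mul_sum]
    exact Finset.sum_congr rfl fun e _ => by ring
  rw [Finset.sum_congr rfl fun t _ => h1 t, Finset.sum_eq_single s]
  · rw [if_pos rfl, mul_comm]
  · intro t _ ht
    rw [if_neg (Ne.symm ht), mul_zero]
  · intro h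
    exact absurd (mem_univ _) h

theorem pol_inj {x : (V → Fin 2) → ℂ} (h : ∀ z : V → ℂ, (∀ v, ‖z v‖ ≤ 1) → pol x z = 0) : x = 0 := by
  funext s
  have h1 := coef x s
  rw [Finset.sum_eq_zero] at h1
  · rcases mul_eq_zero.1 h1.symm with h2 | h2
    · exact absurd h2 (pow_ne_zero _ two_ne_zero)
    · exact h2
  · intro e _
    rw [h _ (sv_norm e), mul_zero]

/-- Parseval -/
theorem parseval (x : (V → Fin 2) → ℂ) :
    ∑ e : V → Fin 2, ‖pol x (sv e)‖ ^ 2 = 2 ^ Fintype.card V * ∑ s, ‖x s‖ ^ 2 := by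
  have hc : ∀ (e s : V → Fin 2), (starRingEnd ℂ) (mon (sv e) s) = mon (sv e) s := by
    intro e s
    unfold mon
    rw [map_prod]
    refine Finset.prod_congr rfl fun v _ => ?_
    unfold mf sv
    split_ifs <;> simp
  have h1 : ∀ e : V → Fin 2, ((‖pol x (sv e)‖ ^ 2 : ℝ) : ℂ) =
      ∑ s, (starRingEnd ℂ) (x s) * (mon (sv e) s * pol x (sv e)) := by
    intro e
    rw [Complex.ofReal_pow, ← Complex.conj_mul']
    conv_lhs =>
      enter [1]
      unfold pol
    rw [map_sum, Finset.sum_mul]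
    refine Finset.sum_congr rfl fun s _ => ?_
    rw [map_mul, hc]
    ring
  have h2 : ((∑ e : V → Fin 2, ‖pol x (sv e)‖ ^ 2 : ℝ) : ℂ) =
      ((2 ^ Fintype.card V * ∑ s, ‖x s‖ ^ 2 : ℝ) : ℂ) := by
    rw [Complex.ofReal_sum, Finset.sum_congr rfl fun e _ => h1 e, Finset.sum_comm]
    have h3 : ∀ s, ∑ e : V → Fin 2, (starRingEnd ℂ) (x s) * (mon (sv e) s * pol x (sv e)) =
        2 ^ Fintype.card V * ((‖x s‖ ^ 2 : ℝ) : ℂ) := by
      intro s
      rw [← Finset.mul_sum, coef, Complex.ofReal_pow, ← Complex.conj_mul']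
      ring
    rw [Finset.sum_congr rfl fun s _ => h3 s, ← Finset.mul_sum]
    push_cast
    rfl
  exact_mod_cast h2

/-- a positive lower bound on the polydisc -/
theorem NV.lower {x : (V → Fin 2) → ℂ} (h : NV x) :
    ∃ m : ℝ, 0 < m ∧ ∀ z : V → ℂ, (∀ v, ‖z v‖ ≤ 1) → m ≤ ‖pol x z‖ := by
  have hK : IsCompact (Metric.closedBall (0 : V → ℂ) 1) := isCompact_closedBall _ _
  have hmem : ∀ z : V → ℂ, z ∈ Metric.closedBall (0 : V → ℂ) 1 ↔ ∀ v, ‖z v‖ ≤ 1 := by
    intro z
    rw [mem_closedBall_zero_iff, pi_norm_le_iff_of_nonneg zero_le_one]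
  obtain ⟨z₀, hz₀, hmin⟩ := hK.exists_isMinOn ⟨0, by simp⟩ (pol_cont x).norm.continuousOn
  refine ⟨‖pol x z₀‖, norm_pos_iff.2 (h z₀ ((hmem z₀).1 hz₀)), ?_⟩
  intro z hz
  exact hmin ((hmem z).2 hz)

theorem upper (x : (V → Fin 2) → ℂ) :
    ∃ M : ℝ, 0 ≤ M ∧ ∀ z : V → ℂ, (∀ v, ‖z v‖ ≤ 1) → ‖pol x z‖ ≤ M := by
  refine ⟨∑ s, ‖x s‖, Finset.sum_nonneg fun _ _ => norm_nonneg _, ?_⟩
  intro z hz
  unfold pol
  refine (norm_sum_le _ _).trans (Finset.sum_le_sum fun s _ => ?_)
  rw [norm_mul]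
  have h1 : ‖mon z s‖ ≤ 1 := by
    unfold mon
    rw [norm_prod]
    refine Finset.prod_le_one (fun _ _ => norm_nonneg _) fun v _ => ?_
    unfold mf
    split_ifs
    · simp
    · exact hz v
  exact mul_le_of_le_one_right (norm_nonneg _) h1

end Pool.Agent.KS6_99.LY
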