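import Pool.Agent.KS6_99.LY.Gap

/-!
Quotients of expectation values converge exponentially fast in imaginary time.
-/

set_option autoImplicit false
set_option linter.unusedSectionVars false

open scoped BigOperators Matrix
open Finset Pool.Agent.TH235.PP

namespace Pool.Agent.KS6_99.LY

variable {V : Type*} [Fintype V] [DecidableEq V]

/-- operators for which the inverse quotient is bounded -/
structure Good (G : Matrix (V → Fin 2) (V → Fin 2) ℂ) (c₁ κ : ℝ) : Prop where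
  nv : ∀ x, NV x → NV (G *ᵥ x)
  inv : ∀ x, NV x → ∀ z : V → ℂ, (∀ v, ‖z v‖ ≤ 1) → ‖pol x z‖ ≤ c₁ * ‖pol (G *ᵥ x) z‖
  bd : ∀ x, ‖ip x (G *ᵥ x)‖ ≤ κ * normSq x

theorem SS_herm {n : Type*} [Fintype n] [DecidableEq n] {A : Matrix n n ℂ} (hA : A.IsHermitian)
    (t : ℝ) : (SS hA t).IsHermitian := FC_herm hA _

theorem ip_symm {n : Type*} [Fintype n] (B : Matrix n n ℂ) (hB : B.IsHermitian) (u v : n → ℂ) :
    ip u (B *ᵥ v) = ip (B *ᵥ u) v := by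
  have e1 : ∀ u v : n → ℂ, ip u v = star u ⬝ᵥ v := fun u v => rfl
  rw [e1, e1, Matrix.star_mulVec, hB.eq, Matrix.dotProduct_mulVec]

theorem ip_self' {n : Type*} [Fintype n] (φ : n → ℂ) : ip φ φ = (normSq φ : ℂ) := by
  unfold ip normSq
  rw [Complex.ofReal_sum]
  refine Finset.sum_congr rfl fun s _ => ?_
  rw [Complex.conj_mul']
  push_cast
  rfl

theorem normSq_pos {n : Type*} [Fintype n] {φ : n → ℂ} (h : φ ≠ 0) : 0 < normSq φ := by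
  obtain ⟨s, hs⟩ := Function.ne_iff.1 h
  unfold normSq
  refine Finset.sum_pos' (fun _ _ => by positivity) ⟨s, mem_univ _, ?_⟩
  have : 0 < ‖φ s‖ := norm_pos_iff.2 hs
  positivity

theorem NV.ne_zero {x : (V → Fin 2) → ℂ} (hx : NV x) : x ≠ 0 := by
  intro h
  exact hx 0 (by simp) (by rw [h, pol_zero])

/-- the quotient -/
noncomputable def Qr {A : Matrix (V → Fin 2) (V → Fin 2) ℂ} (hA : A.IsHermitian)
    (G : Matrix (V → Fin 2) (V → Fin 2) ℂ) (χ : (V → Fin 2) → ℂ) (z : V → ℂ) (σ : ℝ) : ℂ :=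
  pol (SS hA σ *ᵥ (G *ᵥ χ)) z / pol (SS hA σ *ᵥ χ) z

theorem ratio {A : Matrix (V → Fin 2) (V → Fin 2) ℂ} {hA : A.IsHermitian} {b₀ : ℝ}
    (hF : Flow hA b₀) {G : Matrix (V → Fin 2) (V → Fin 2) ℂ} {c₁ κ : ℝ}
    (hG : Good G c₁ κ) (hκ : 0 < κ) (hc₁ : 0 ≤ c₁) {τ : ℝ} (hτ0 : 0 ≤ τ)
    (hτ : 4 * c₁ * κ * Real.exp (-(2 * b₀ * τ)) ≤ 1) {ψ : (V → Fin 2) → ℂ} {zp : V → ℂ}
    (hψ : NV ψ) (hzp : ∀ v, ‖zp v‖ ≤ 1) (hip : ∀ u, ip ψ u = pol u zp) {σ σ' : ℝ} (hσ : τ ≤ σ)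
    (hσ' : σ ≤ σ') :
    ‖Qr hA G (SS hA τ *ᵥ ψ) zp σ' - Qr hA G (SS hA τ *ᵥ ψ) zp σ‖ ≤
      8 * c₁ * κ ^ 2 * Real.exp (-(2 * b₀ * σ)) := by
  set χ := SS hA τ *ᵥ ψ with hχ
  have hχn : NV χ := hF.nv τ hτ0 ψ hψ
  have hGχ : NV (G *ᵥ χ) := hG.nv χ hχn
  have hσ0 : 0 ≤ σ := hτ0.trans hσ
  set R : ℝ → ℂ := fun s => pol (SS hA s *ᵥ χ) zp / pol (SS hA s *ᵥ (G *ᵥ χ)) zp with hR
  have hne1 : ∀ s, 0 ≤ s → pol (SS hA s *ᵥ χ) zp ≠ 0 := fun s hs => hF.nv s hs χ hχn zp hzp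
  have hne2 : ∀ s, 0 ≤ s → pol (SS hA s *ᵥ (G *ᵥ χ)) zp ≠ 0 :=
    fun s hs => hF.nv s hs _ hGχ zp hzp
  have hdisc : Disc (G *ᵥ χ) χ 0 c₁ := by
    intro z hz
    rw [zero_mul, sub_zero]
    exact hG.inv χ hχn z hz
  -- differences of `R`
  have hRd : ∀ s s', 0 ≤ s → s ≤ s' → ‖R s' - R s‖ ≤ 2 * c₁ * Real.exp (-(2 * b₀ * s)) := by
    intro s s' hs hss
    have h1 := hF.osc s hs _ _ _ hGχ hdisc.osc
    have h2 := h1.disc hzp (hne2 s hs)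
    have h3 := hF.disc (s' - s) (sub_nonneg.2 hss) _ _ _ _ (hF.nv s hs _ hGχ) h2 zp hzp
    have e5 : ∀ u : (V → Fin 2) → ℂ, SS hA (s' - s) *ᵥ (SS hA s *ᵥ u) = SS hA s' *ᵥ u := by
      intro u
      rw [Matrix.mulVec_mulVec, ← SS_add, sub_add_cancel]
    rw [e5, e5] at h3
    have h4 : 0 < ‖pol (SS hA s' *ᵥ (G *ᵥ χ)) zp‖ := norm_pos_iff.2 (hne2 s' (hs.trans hss))
    have e : pol (SS hA s' *ᵥ χ) zp - pol (SS hA s *ᵥ χ) zp / pol (SS hA s *ᵥ (G *ᵥ χ)) zp *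
        pol (SS hA s' *ᵥ (G *ᵥ χ)) zp = (R s' - R s) * pol (SS hA s' *ᵥ (G *ᵥ χ)) zp := by
      simp only [hR]
      rw [sub_mul, div_mul_cancel₀ _ (hne2 s' (hs.trans hss))]
    rw [e, norm_mul] at h3
    exact le_of_mul_le_mul_right h3 h4
  -- lower bound at the symmetric time
  have hRτ : 1 / κ ≤ ‖R τ‖ := by
    have e1 : pol (SS hA τ *ᵥ χ) zp = (normSq χ : ℂ) := by
      rw [← hip, ip_symm _ (SS_herm hA τ), ← hχ, ip_self']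
    have e2 : pol (SS hA τ *ᵥ (G *ᵥ χ)) zp = ip χ (G *ᵥ χ) := by
      rw [← hip, ip_symm _ (SS_herm hA τ), ← hχ]
    have h1 : 0 < normSq χ := normSq_pos hχn.ne_zero
    have h2 := hG.bd χ
    have h3 : 0 < ‖ip χ (G *ᵥ χ)‖ := by
      rw [← e2]
      exact norm_pos_iff.2 (hne2 τ hτ0)
    simp only [hR]
    rw [e1, e2, norm_div, Complex.norm_real, Real.norm_of_nonneg h1.le, div_le_div_iff₀ hκ h3]
    linarith
  have hRlow : ∀ s, τ ≤ s → 1 / (2 * κ) ≤ ‖R s‖ := by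
    intro s hs
    have h1 := hRd τ s hτ0 hs
    have h2 := norm_sub_norm_le (R τ) (R s)
    rw [norm_sub_rev] at h2
    have h3 : 2 * c₁ * Real.exp (-(2 * b₀ * τ)) ≤ 1 / (2 * κ) := by
      rw [le_div_iff₀ (by positivity)]
      linarith
    have h4 : 1 / κ = 1 / (2 * κ) + 1 / (2 * κ) := by
      field_simp
      norm_num
    linarith
  -- the quotient is the inverse
  have hQ : ∀ s, Qr hA G χ zp s = (R s)⁻¹ := by
    intro s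
    simp only [hR, Qr]
    rw [inv_div]
  have hR0 : ∀ s, τ ≤ s → R s ≠ 0 := by
    intro s hs h
    have := hRlow s hs
    rw [h, norm_zero] at this
    have h2 : 0 < 1 / (2 * κ) := by positivity
    linarith
  have hinv : ∀ s, τ ≤ s → ‖(R s)⁻¹‖ ≤ 2 * κ := by
    intro s hs
    rw [norm_inv]
    have h1 := hRlow s hs
    have h2 : 0 < 1 / (2 * κ) := by positivity
    calc ‖R s‖⁻¹ ≤ (1 / (2 * κ))⁻¹ := inv_anti₀ h2 h1
      _ = 2 * κ := by rw [one_div, inv_inv]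
  rw [hQ, hQ]
  have hs' : τ ≤ σ' := hσ.trans hσ'
  have e : (R σ')⁻¹ - (R σ)⁻¹ = -(R σ' - R σ) * (R σ')⁻¹ * (R σ)⁻¹ := by
    have h1 := hR0 σ hσ
    have h2 := hR0 σ' hs'
    field_simp
    ring
  rw [e, norm_mul, norm_mul, norm_neg]
  have h1 := hRd σ σ' hσ0 hσ'
  have h2 := hinv σ hσ
  have h3 := hinv σ' hs'
  calc ‖R σ' - R σ‖ * ‖(R σ')⁻¹‖ * ‖(R σ)⁻¹‖
      ≤ (2 * c₁ * Real.exp (-(2 * b₀ * σ))) * (2 * κ) * (2 * κ) := by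
        refine mul_le_mul (mul_le_mul h1 h3 (norm_nonneg _) (by positivity)) h2 (norm_nonneg _)
          (by positivity)
    _ = 8 * c₁ * κ ^ 2 * Real.exp (-(2 * b₀ * σ)) := by ring

end Pool.Agent.KS6_99.LY
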