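import Pool.Agent.KS6_99.LY.Gate

/-!
Operators which enlarge the polydisc without zeros contract the oscillation of quotients.
-/

set_option autoImplicit false
set_option linter.unusedSectionVars false

open scoped BigOperators Matrix
open Finset

namespace Pool.Agent.KS6_99.LY

variable {V : Type*} [Fintype V] [DecidableEq V]

/-- the oscillation of the quotient of the polynomials of `y` and `x` is at most `M` -/
def Osc (x y : (V → Fin 2) → ℂ) (M : ℝ) : Prop :=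
  ∀ z z' : V → ℂ, (∀ v, ‖z v‖ ≤ 1) → (∀ v, ‖z' v‖ ≤ 1) →
    ‖pol y z * pol x z' - pol y z' * pol x z‖ ≤ M * (‖pol x z‖ * ‖pol x z'‖)

/-- the quotient of the polynomials of `y` and `x` takes values in a disc -/
def Disc (x y : (V → Fin 2) → ℂ) (c : ℂ) (ρ : ℝ) : Prop :=
  ∀ z : V → ℂ, (∀ v, ‖z v‖ ≤ 1) → ‖pol y z - c * pol x z‖ ≤ ρ * ‖pol x z‖

/-- `T` enlarges the polydisc to the radius `r` -/
def Enl (T : Matrix (V → Fin 2) (V → Fin 2) ℂ) (r : ℝ) : Prop :=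
  ∀ x, NV x → ∀ z : V → ℂ, (∀ v, ‖z v‖ ≤ r) → pol (T *ᵥ x) z ≠ 0

theorem Osc.mono {x y : (V → Fin 2) → ℂ} {M M' : ℝ} (h : Osc x y M) (hM : M ≤ M') : Osc x y M' :=
  fun z z' hz hz' => (h z z' hz hz').trans (mul_le_mul_of_nonneg_right hM (by positivity))

theorem Disc.osc {x y : (V → Fin 2) → ℂ} {c : ℂ} {ρ : ℝ} (h : Disc x y c ρ) : Osc x y (2 * ρ) := by
  intro z z' hz hz'
  have h1 := h z hz
  have h2 := h z' hz'
  have e : pol y z * pol x z' - pol y z' * pol x z =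
      (pol y z - c * pol x z) * pol x z' - (pol y z' - c * pol x z') * pol x z := by ring
  rw [e]
  refine (norm_sub_le _ _).trans ?_
  rw [norm_mul, norm_mul]
  have h3 := mul_le_mul_of_nonneg_right h1 (norm_nonneg (pol x z'))
  have h4 := mul_le_mul_of_nonneg_right h2 (norm_nonneg (pol x z))
  linarith

theorem Osc.disc {x y : (V → Fin 2) → ℂ} {M : ℝ} (h : Osc x y M) {z' : V → ℂ}
    (hz' : ∀ v, ‖z' v‖ ≤ 1) (h0 : pol x z' ≠ 0) : Disc x y (pol y z' / pol x z') M := by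
  intro z hz
  have h1 := h z z' hz hz'
  have hn : 0 < ‖pol x z'‖ := norm_pos_iff.2 h0
  have e : pol y z * pol x z' - pol y z' * pol x z =
      (pol y z - pol y z' / pol x z' * pol x z) * pol x z' := by
    field_simp
  rw [e, norm_mul] at h1
  have h2 : ‖pol y z - pol y z' / pol x z' * pol x z‖ * ‖pol x z'‖ ≤
      (M * ‖pol x z‖) * ‖pol x z'‖ := by linarith
  exact le_of_mul_le_mul_right h2 hn

theorem range_incl {T : Matrix (V → Fin 2) (V → Fin 2) ℂ} {r : ℝ} (hT : Enl T r)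
    {x y : (V → Fin 2) → ℂ} (hx : NV x) {z : V → ℂ} (hz : ∀ v, ‖z v‖ ≤ r) :
    ∃ z₀ : V → ℂ, (∀ v, ‖z₀ v‖ ≤ 1) ∧
      pol y z₀ = pol (T *ᵥ y) z / pol (T *ᵥ x) z * pol x z₀ := by
  by_contra hc
  push Not at hc
  set c := pol (T *ᵥ y) z / pol (T *ᵥ x) z with hcd
  have h1 : NV (y - c • x) := by
    intro z₀ hz₀ h0
    rw [pol_sub, pol_smul] at h0
    exact hc z₀ hz₀ (sub_eq_zero.1 h0)
  have h2 := hT _ h1 z hz
  apply h2
  rw [Matrix.mulVec_sub, Matrix.mulVec_smul, pol_sub, pol_smul, hcd, div_mul_cancel₀ _ (hT x hx z hz),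
    sub_self]

theorem pol_diff (x : (V → Fin 2) → ℂ) (z : V → ℂ) :
    Differentiable ℂ fun l : ℂ => pol x fun v => l * z v := by
  unfold pol mon mf
  refine Differentiable.fun_sum fun s _ => ?_
  refine (differentiable_const _).mul ?_
  refine Differentiable.fun_finsetProd fun v _ => ?_
  split_ifs
  · exact differentiable_const _
  · exact differentiable_id.mul (differentiable_const _)

theorem Enl.nv {T : Matrix (V → Fin 2) (V → Fin 2) ℂ} {r : ℝ} (hT : Enl T r) (hr : 1 ≤ r)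
    {x : (V → Fin 2) → ℂ} (hx : NV x) : NV (T *ᵥ x) :=
  fun z hz => hT x hx z fun v => (hz v).trans hr

theorem Disc.step {T : Matrix (V → Fin 2) (V → Fin 2) ℂ} {r : ℝ} (hT : Enl T r) (hr : 1 ≤ r)
    {x y : (V → Fin 2) → ℂ} (hx : NV x) {c : ℂ} {ρ : ℝ} (h : Disc x y c ρ) :
    Disc (T *ᵥ x) (T *ᵥ y) c ρ := by
  intro z hz
  obtain ⟨z₀, hz₀, he⟩ := range_incl hT (y := y) hx (z := z) fun v => (hz v).trans hr
  have h1 := h z₀ hz₀
  have hx0 : 0 < ‖pol x z₀‖ := norm_pos_iff.2 (hx z₀ hz₀)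
  have hT0 := hT x hx z fun v => (hz v).trans hr
  rw [he, ← sub_mul, norm_mul] at h1
  have h2 := le_of_mul_le_mul_right h1 hx0
  have e : pol (T *ᵥ y) z - c * pol (T *ᵥ x) z =
      (pol (T *ᵥ y) z / pol (T *ᵥ x) z - c) * pol (T *ᵥ x) z := by
    field_simp
  rw [e, norm_mul]
  exact mul_le_mul_of_nonneg_right h2 (norm_nonneg _)

theorem Osc.step {T : Matrix (V → Fin 2) (V → Fin 2) ℂ} {r : ℝ} (hT : Enl T r) (hr : 1 < r)
    {x y : (V → Fin 2) → ℂ} (hx : NV x) {M : ℝ} (h : Osc x y M) :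
    Osc (T *ᵥ x) (T *ᵥ y) (M / r) := by
  intro z z' hz hz'
  have hr0 : 0 < r := by linarith
  have hin : ∀ (u : V → ℂ), (∀ v, ‖u v‖ ≤ 1) → ∀ l : ℂ, ‖l‖ < r → ∀ v, ‖l * u v‖ ≤ r := by
    intro u hu l hl v
    rw [norm_mul]
    calc ‖l‖ * ‖u v‖ ≤ r * 1 := mul_le_mul hl.le (hu v) (norm_nonneg _) hr0.le
      _ = r := mul_one r
  set F : (V → ℂ) → ℂ := fun u => pol (T *ᵥ y) u / pol (T *ᵥ x) u with hF
  set g : ℂ → ℂ := fun l => F (fun v => l * z v) - F (fun v => l * z' v) with hg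
  have hg0 : g 0 = 0 := by
    rw [hg]
    simp
  have hd : DifferentiableOn ℂ g (Metric.ball 0 r) := by
    intro l hl
    rw [mem_ball_zero_iff] at hl
    apply DifferentiableAt.differentiableWithinAt
    rw [hg, hF]
    refine DifferentiableAt.sub ?_ ?_
    · exact ((pol_diff _ z) l).div ((pol_diff _ z) l) (hT x hx _ (hin z hz l hl))
    · exact ((pol_diff _ z') l).div ((pol_diff _ z') l) (hT x hx _ (hin z' hz' l hl))
  have hmaps : Set.MapsTo g (Metric.ball 0 r) (Metric.closedBall (g 0) M) := by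
    intro l hl
    rw [mem_ball_zero_iff] at hl
    rw [hg0, mem_closedBall_zero_iff]
    obtain ⟨z₀, hz₀, he⟩ := range_incl hT (y := y) hx (hin z hz l hl)
    obtain ⟨z₁, hz₁, he'⟩ := range_incl hT (y := y) hx (hin z' hz' l hl)
    have h1 := h z₀ z₁ hz₀ hz₁
    have hn0 : 0 < ‖pol x z₀‖ := norm_pos_iff.2 (hx z₀ hz₀)
    have hn1 : 0 < ‖pol x z₁‖ := norm_pos_iff.2 (hx z₁ hz₁)
    have e : pol y z₀ * pol x z₁ - pol y z₁ * pol x z₀ = g l * (pol x z₀ * pol x z₁) := by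
      rw [he, he']
      simp only [hg, hF]
      ring
    rw [e, norm_mul, norm_mul] at h1
    exact le_of_mul_le_mul_right h1 (mul_pos hn0 hn1)
  have hs := Complex.dist_le_div_mul_dist_of_mapsTo_ball hd hmaps
    (z := 1) (by rw [mem_ball_zero_iff]; simpa using hr)
  rw [hg0, dist_zero_right, dist_zero_right, norm_one, mul_one] at hs
  have hTz := hT x hx z fun v => (hz v).trans hr.le
  have hTz' := hT x hx z' fun v => (hz' v).trans hr.le
  have e : pol (T *ᵥ y) z * pol (T *ᵥ x) z' - pol (T *ᵥ y) z' * pol (T *ᵥ x) z =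
      g 1 * (pol (T *ᵥ x) z * pol (T *ᵥ x) z') := by
    simp only [hg, hF, one_mul]
    field_simp
  rw [e, norm_mul, norm_mul]
  exact mul_le_mul_of_nonneg_right hs (by positivity)

theorem iterate {T : Matrix (V → Fin 2) (V → Fin 2) ℂ} {r : ℝ} (hT : Enl T r) (hr : 1 < r) (n : ℕ)
    {x : (V → Fin 2) → ℂ} (hx : NV x) :
    NV ((T ^ n) *ᵥ x) ∧ (∀ (y : (V → Fin 2) → ℂ) (c : ℂ) (ρ : ℝ), Disc x y c ρ →
      Disc ((T ^ n) *ᵥ x) ((T ^ n) *ᵥ y) c ρ) ∧
      ∀ (y : (V → Fin 2) → ℂ) (M : ℝ), Osc x y M →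
        Osc ((T ^ n) *ᵥ x) ((T ^ n) *ᵥ y) (M / r ^ n) := by
  induction n with
  | zero =>
    refine ⟨by rw [pow_zero, Matrix.one_mulVec]; exact hx, ?_, ?_⟩
    · intro y c ρ h
      rw [pow_zero, Matrix.one_mulVec, Matrix.one_mulVec]
      exact h
    · intro y M h
      rw [pow_zero, Matrix.one_mulVec, Matrix.one_mulVec, pow_zero, div_one]
      exact h
  | succ n ih =>
    obtain ⟨i1, i2, i3⟩ := ih
    have e : ∀ u : (V → Fin 2) → ℂ, (T ^ (n + 1)) *ᵥ u = T *ᵥ ((T ^ n) *ᵥ u) := by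
      intro u
      rw [pow_succ', Matrix.mulVec_mulVec]
    refine ⟨?_, ?_, ?_⟩
    · rw [e]
      exact hT.nv hr.le i1
    · intro y c ρ h
      rw [e, e]
      exact (i2 y c ρ h).step hT hr.le i1
    · intro y M h
      rw [e, e, pow_succ, ← div_div]
      exact (i3 y M h).step hT hr i1

end Pool.Agent.KS6_99.LY
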