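import Pool.Graph.R_seed8.TH235.PP.Ener
import Pool.Agent.KS6_99.LY.Step

/-!
The semigroup of a Hermitian matrix and its approximation by products.
-/

set_option autoImplicit false
set_option linter.unusedSectionVars false

open scoped BigOperators Matrix
open Finset Pool.Agent.TH235.PP

namespace Pool.Agent.KS6_99.LY

section semi

variable {n : Type*} [Fintype n] [DecidableEq n]

/-- the unitary matrix of eigenvectors -/
noncomputable def UU {A : Matrix n n ℂ} (hA : A.IsHermitian) : Matrix n n ℂ :=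
  (hA.eigenvectorUnitary : Matrix n n ℂ)

variable {A : Matrix n n ℂ} (hA : A.IsHermitian)

theorem UU_left : (UU hA)ᴴ * UU hA = 1 := Unitary.coe_star_mul_self hA.eigenvectorUnitary

theorem UU_right : UU hA * (UU hA)ᴴ = 1 := Unitary.coe_mul_star_self hA.eigenvectorUnitary

/-- functions of `A` -/
noncomputable def FC (f : ℝ → ℝ) : Matrix n n ℂ :=
  UU hA * Matrix.diagonal (fun j => ((f (hA.eigenvalues j) : ℝ) : ℂ)) * (UU hA)ᴴ

theorem FC_mul (f g : ℝ → ℝ) : FC hA f * FC hA g = FC hA fun x => f x * g x := by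
  unfold FC
  have h : UU hA * Matrix.diagonal (fun j => ((f (hA.eigenvalues j) : ℝ) : ℂ)) * (UU hA)ᴴ *
      (UU hA * Matrix.diagonal (fun j => ((g (hA.eigenvalues j) : ℝ) : ℂ)) * (UU hA)ᴴ) =
      UU hA * (Matrix.diagonal (fun j => ((f (hA.eigenvalues j) : ℝ) : ℂ)) *
        ((UU hA)ᴴ * UU hA) * Matrix.diagonal (fun j => ((g (hA.eigenvalues j) : ℝ) : ℂ))) *
        (UU hA)ᴴ := by
    simp only [mul_assoc]
  rw [h, UU_left, mul_one, Matrix.diagonal_mul_diagonal]
  congr 3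
  funext j
  push_cast
  rfl

theorem FC_one : FC hA (fun _ => 1) = 1 := by
  unfold FC
  have : (Matrix.diagonal (fun _ : n => ((1 : ℝ) : ℂ)) : Matrix n n ℂ) = 1 := by
    rw [Complex.ofReal_one, Matrix.diagonal_one]
  rw [this, mul_one, UU_right]

theorem FC_id : FC hA (fun x => x) = A := by
  have h3 := hA.spectral_theorem
  rw [Unitary.conjStarAlgAut_apply] at h3
  exact h3.symm

theorem FC_sub (f g : ℝ → ℝ) : FC hA (fun x => f x - g x) = FC hA f - FC hA g := by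
  unfold FC
  rw [← sub_mul, ← mul_sub, Matrix.diagonal_sub]
  congr 3
  funext j
  push_cast
  rfl

theorem FC_smul (c : ℝ) (f : ℝ → ℝ) : FC hA (fun x => c * f x) = (c : ℂ) • FC hA f := by
  unfold FC
  rw [← Matrix.smul_mul, ← Matrix.mul_smul]
  congr 2
  ext i j
  rw [Matrix.smul_apply]
  by_cases h : i = j
  · subst h
    rw [Matrix.diagonal_apply_eq, Matrix.diagonal_apply_eq, smul_eq_mul]
    push_cast
    rfl
  · rw [Matrix.diagonal_apply_ne _ h, Matrix.diagonal_apply_ne _ h, smul_zero]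

open scoped Matrix.Norms.L2Operator in
theorem norm_UU : ‖UU hA‖ ≤ 1 := by
  have h1 := Matrix.l2_opNorm_conjTranspose_mul_self (UU hA)
  rw [UU_left] at h1
  have h2 : ‖(1 : Matrix n n ℂ)‖ ≤ 1 := by
    have h3 := Matrix.l2_opNorm_diagonal (𝕜 := ℂ) (fun _ : n => (1 : ℂ))
    rw [Matrix.diagonal_one] at h3
    rw [h3]
    exact (pi_norm_le_iff_of_nonneg zero_le_one).2 fun _ => by simp
  have h3 := norm_nonneg (UU hA)
  nlinarith

open scoped Matrix.Norms.L2Operator in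
theorem norm_FC (f : ℝ → ℝ) (M : ℝ) (hM : 0 ≤ M) (h : ∀ j, |f (hA.eigenvalues j)| ≤ M) :
    ‖FC hA f‖ ≤ M := by
  unfold FC
  have h1 := norm_UU hA
  have h2 : ‖(UU hA)ᴴ‖ ≤ 1 := by rw [Matrix.l2_opNorm_conjTranspose]; exact h1
  have h3 : ‖Matrix.diagonal (fun j => ((f (hA.eigenvalues j) : ℝ) : ℂ))‖ ≤ M := by
    rw [Matrix.l2_opNorm_diagonal, pi_norm_le_iff_of_nonneg hM]
    intro j
    rw [Complex.norm_real]
    exact h j
  calc _ ≤ ‖UU hA * Matrix.diagonal (fun j => ((f (hA.eigenvalues j) : ℝ) : ℂ))‖ * ‖(UU hA)ᴴ‖ :=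
        Matrix.l2_opNorm_mul _ _
    _ ≤ (‖UU hA‖ * ‖Matrix.diagonal (fun j => ((f (hA.eigenvalues j) : ℝ) : ℂ))‖) * ‖(UU hA)ᴴ‖ :=
        mul_le_mul_of_nonneg_right (Matrix.l2_opNorm_mul _ _) (norm_nonneg _)
    _ ≤ (1 * M) * 1 := by
        refine mul_le_mul (mul_le_mul h1 h3 (norm_nonneg _) zero_le_one) h2 (norm_nonneg _) ?_
        rw [one_mul]
        exact hM
    _ = M := by ring

/-- the semigroup -/
noncomputable def SS (t : ℝ) : Matrix n n ℂ := FC hA fun x => Real.exp (-(t * x))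

theorem SS_add (s t : ℝ) : SS hA (s + t) = SS hA s * SS hA t := by
  unfold SS
  rw [FC_mul]
  congr 1
  funext x
  rw [← Real.exp_add]
  congr 1
  ring

theorem SS_zero : SS hA 0 = 1 := by
  unfold SS
  rw [← FC_one hA]
  congr 1
  funext x
  simp

theorem SS_neg (t : ℝ) : SS hA t * SS hA (-t) = 1 := by
  rw [← SS_add, add_neg_cancel, SS_zero]

theorem SS_pow (t : ℝ) (m : ℕ) : SS hA t ^ m = SS hA (m * t) := by
  induction m with
  | zero => rw [pow_zero, Nat.cast_zero, zero_mul, SS_zero]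
  | succ m ih =>
    rw [pow_succ, ih, ← SS_add]
    congr 1
    push_cast
    ring

/-- the coordinates in the basis of eigenvectors -/
noncomputable def co (x : n → ℂ) : n → ℂ := (UU hA)ᴴ *ᵥ x

theorem co_FC (f : ℝ → ℝ) (x : n → ℂ) (j : n) :
    co hA (FC hA f *ᵥ x) j = ((f (hA.eigenvalues j) : ℝ) : ℂ) * co hA x j := by
  unfold co FC
  rw [Matrix.mulVec_mulVec, ← mul_assoc, ← mul_assoc, UU_left, one_mul, ← Matrix.mulVec_mulVec,
    Matrix.mulVec_diagonal]

theorem co_back (x : n → ℂ) : UU hA *ᵥ co hA x = x := by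
  unfold co
  rw [Matrix.mulVec_mulVec, UU_right, Matrix.one_mulVec]

theorem co_inj {x y : n → ℂ} (h : co hA x = co hA y) : x = y := by
  rw [← co_back hA x, h, co_back]

theorem ip_co (x y : n → ℂ) : ip (co hA x) (co hA y) = ip x y := by
  have e1 : ∀ u v : n → ℂ, ip u v = star u ⬝ᵥ v := fun u v => rfl
  unfold co
  rw [e1, e1, Matrix.star_mulVec, Matrix.conjTranspose_conjTranspose, ← Matrix.dotProduct_mulVec,
    Matrix.mulVec_mulVec, UU_right, Matrix.one_mulVec]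

theorem co_eig {E : ℝ} {φ : n → ℂ} (h : A *ᵥ φ = (E : ℂ) • φ) (j : n) (hj : co hA φ j ≠ 0) :
    hA.eigenvalues j = E := by
  have h1 : co hA (A *ᵥ φ) j = (hA.eigenvalues j : ℂ) * co hA φ j := by
    have h2 := co_FC hA (fun x => x) φ j
    rw [FC_id] at h2
    exact h2
  rw [h] at h1
  have h2 : co hA ((E : ℂ) • φ) j = (E : ℂ) * co hA φ j := by
    unfold co
    rw [Matrix.mulVec_smul]
    rfl
  rw [h2] at h1
  have h3 := mul_right_cancel₀ hj h1
  exact_mod_cast h3.symm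

theorem FC_eig {E : ℝ} {φ : n → ℂ} (h : A *ᵥ φ = (E : ℂ) • φ) (f : ℝ → ℝ) :
    FC hA f *ᵥ φ = ((f E : ℝ) : ℂ) • φ := by
  apply co_inj hA
  funext j
  rw [co_FC]
  have h2 : co hA (((f E : ℝ) : ℂ) • φ) j = ((f E : ℝ) : ℂ) * co hA φ j := by
    unfold co
    rw [Matrix.mulVec_smul]
    rfl
  rw [h2]
  by_cases h0 : co hA φ j = 0
  · rw [h0, mul_zero, mul_zero]
  · rw [co_eig hA h j h0]

theorem FC_herm (f : ℝ → ℝ) : (FC hA f).IsHermitian := by
  unfold FC Matrix.IsHermitian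
  rw [Matrix.conjTranspose_mul, Matrix.conjTranspose_mul, Matrix.conjTranspose_conjTranspose,
    Matrix.diagonal_conjTranspose, mul_assoc]
  congr 3
  funext j
  rw [Pi.star_apply, Complex.star_def, Complex.conj_ofReal]

open scoped Matrix.Norms.L2Operator in
theorem SS_euler : ∃ C : ℝ, 0 ≤ C ∧ ∃ ε₀ : ℝ, 0 < ε₀ ∧ ∀ ε : ℝ, 0 < ε → ε ≤ ε₀ →
    ‖SS hA ε - (1 - (ε : ℂ) • A)‖ ≤ C * ε ^ 2 := by
  obtain ⟨B, hB⟩ : ∃ B : ℝ, ∀ j, |hA.eigenvalues j| ≤ B := by
    refine ⟨∑ j, |hA.eigenvalues j|, fun j => ?_⟩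
    exact Finset.single_le_sum (f := fun j => |hA.eigenvalues j|) (fun _ _ => abs_nonneg _)
      (mem_univ j)
  refine ⟨B ^ 2, sq_nonneg _, 1 / (|B| + 1), by positivity, ?_⟩
  intro ε hε hε0
  have e : SS hA ε - (1 - (ε : ℂ) • A) = FC hA fun x => Real.exp (-(ε * x)) - 1 - -(ε * x) := by
    have h1 : FC hA (fun x => Real.exp (-(ε * x)) - 1 - -(ε * x)) =
        FC hA (fun x => Real.exp (-(ε * x))) - FC hA (fun _ => 1) - FC hA (fun x => (-ε) * x) := by
      rw [← FC_sub, ← FC_sub]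
      congr 1
      funext x
      ring
    rw [h1, FC_one, FC_smul hA (-ε) (fun x => x), FC_id]
    unfold SS
    push_cast
    rw [neg_smul]
    abel
  rw [e]
  apply norm_FC
  · positivity
  · intro j
    have h1 : |-(ε * hA.eigenvalues j)| ≤ 1 := by
      rw [abs_neg, abs_mul, abs_of_pos hε]
      have h2 : |hA.eigenvalues j| ≤ |B| + 1 := (hB j).trans ((le_abs_self B).trans (by linarith))
      rw [le_div_iff₀ (by positivity)] at hε0
      calc ε * |hA.eigenvalues j| ≤ ε * (|B| + 1) := mul_le_mul_of_nonneg_left h2 hε.le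
        _ ≤ 1 := hε0
    refine (Real.abs_exp_sub_one_sub_id_le h1).trans ?_
    have h2 : |hA.eigenvalues j| ^ 2 ≤ B ^ 2 := pow_le_pow_left₀ (abs_nonneg _) (hB j) 2
    rw [sq_abs] at h2
    calc (-(ε * hA.eigenvalues j)) ^ 2 = ε ^ 2 * hA.eigenvalues j ^ 2 := by ring
      _ ≤ ε ^ 2 * B ^ 2 := mul_le_mul_of_nonneg_left h2 (sq_nonneg _)
      _ = B ^ 2 * ε ^ 2 := by ring

end semi

section ring

variable {R : Type*} [NormedRing R]

theorem pow_sub_pow_le (x y : R) (K : ℝ) (hK : 1 ≤ K) (hx : ‖x‖ ≤ K) (hy : ‖y‖ ≤ K) (h1 : ‖(1 : R)‖ ≤ 1)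
    (m : ℕ) : ‖x ^ m - y ^ m‖ ≤ m * ‖x - y‖ * K ^ m := by
  have hK0 : 0 ≤ K := by linarith
  have hym : ∀ m : ℕ, ‖y ^ m‖ ≤ K ^ m := by
    intro m
    induction m with
    | zero => simpa using h1
    | succ m ih =>
      rw [pow_succ, pow_succ]
      exact (norm_mul_le _ _).trans (mul_le_mul ih hy (norm_nonneg _) (by positivity))
  induction m with
  | zero => simp
  | succ m ih =>
    have e : x ^ (m + 1) - y ^ (m + 1) = x * (x ^ m - y ^ m) + (x - y) * y ^ m := by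
      rw [pow_succ', pow_succ']
      noncomm_ring
    rw [e]
    have h2 := norm_nonneg (x - y)
    calc ‖x * (x ^ m - y ^ m) + (x - y) * y ^ m‖ ≤ ‖x‖ * ‖x ^ m - y ^ m‖ + ‖x - y‖ * ‖y ^ m‖ :=
          (norm_add_le _ _).trans (add_le_add (norm_mul_le _ _) (norm_mul_le _ _))
      _ ≤ K * (m * ‖x - y‖ * K ^ m) + ‖x - y‖ * K ^ m := by
          refine add_le_add (mul_le_mul hx ih (norm_nonneg _) hK0) ?_
          exact mul_le_mul_of_nonneg_left (hym m) h2
      _ ≤ K * (m * ‖x - y‖ * K ^ m) + ‖x - y‖ * (K ^ m * K) := by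
          refine add_le_add le_rfl (mul_le_mul_of_nonneg_left ?_ h2)
          exact le_mul_of_one_le_right (by positivity) hK
      _ = ((m + 1 : ℕ) : ℝ) * ‖x - y‖ * K ^ (m + 1) := by
          push_cast
          ring

end ring

section limit

variable {n : Type*} [Fintype n] [DecidableEq n]

theorem norm_le_nr (x : n → ℂ) (s : n) : ‖x s‖ ≤ nr x := by
  have h := PiLp.norm_apply_le (p := 2) (WithLp.toLp 2 x : EuclideanSpace ℂ n) s
  exact h

open scoped Matrix.Norms.L2Operator in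
/-- products of first order approximations converge to the semigroup -/
theorem trotter {A : Matrix n n ℂ} (hA : A.IsHermitian) (T : ℝ → Matrix n n ℂ) (C ε₀ : ℝ)
    (hC : 0 ≤ C) (hε₀ : 0 < ε₀)
    (hT : ∀ ε : ℝ, 0 < ε → ε ≤ ε₀ → ‖T ε - (1 - (ε : ℂ) • A)‖ ≤ C * ε ^ 2) (t : ℝ) (ht : 0 < t)
    (x : n → ℂ) :
    Filter.Tendsto (fun m : ℕ => (T (t / ((m : ℝ) + 1)) ^ (m + 1)) *ᵥ x) Filter.atTop
      (nhds (SS hA t *ᵥ x)) := by
  obtain ⟨C', hC', ε₁, hε₁, hS⟩ := SS_euler hA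
  have h1 : ‖(1 : Matrix n n ℂ)‖ ≤ 1 := by
    have h3 := Matrix.l2_opNorm_diagonal (𝕜 := ℂ) (fun _ : n => (1 : ℂ))
    rw [Matrix.diagonal_one] at h3
    rw [h3]
    exact (pi_norm_le_iff_of_nonneg zero_le_one).2 fun _ => by simp
  set a : ℝ := ‖A‖ + C * ε₀ + C' * ε₁ with ha
  have ha0 : 0 ≤ a := by positivity
  -- the bound for one value of `m`
  have key : ∀ m : ℕ, t / ((m : ℝ) + 1) ≤ ε₀ → t / ((m : ℝ) + 1) ≤ ε₁ →
      ‖T (t / ((m : ℝ) + 1)) ^ (m + 1) - SS hA t‖ ≤ (C + C') * t ^ 2 * Real.exp (t * a) / ((m : ℝ) + 1) := by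
    intro m hm0 hm1
    set ε : ℝ := t / ((m : ℝ) + 1) with hε
    have hm : (0 : ℝ) < (m : ℝ) + 1 := by positivity
    have hε0 : 0 < ε := div_pos ht hm
    have hmε : ((m : ℝ) + 1) * ε = t := by rw [hε]; field_simp
    have k1 := hT ε hε0 hm0
    have k2 := hS ε hε0 hm1
    have hbase : ‖(1 : Matrix n n ℂ) - (ε : ℂ) • A‖ ≤ 1 + ε * ‖A‖ := by
      refine (norm_sub_le _ _).trans (add_le_add h1 ?_)
      rw [norm_smul, Complex.norm_real, Real.norm_of_nonneg hε0.le]
    have hT1 : ‖T ε‖ ≤ 1 + ε * a := by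
      have e : T ε = (T ε - (1 - (ε : ℂ) • A)) + (1 - (ε : ℂ) • A) := by abel
      rw [e]
      refine (norm_add_le _ _).trans ((add_le_add k1 hbase).trans ?_)
      have h2 : C * ε ^ 2 ≤ ε * (C * ε₀) := by
        have := mul_le_mul_of_nonneg_left hm0 (mul_nonneg hC hε0.le)
        nlinarith
      have h3 : 0 ≤ ε * (C' * ε₁) := by positivity
      rw [ha]
      nlinarith
    have hS1 : ‖SS hA ε‖ ≤ 1 + ε * a := by
      have e : SS hA ε = (SS hA ε - (1 - (ε : ℂ) • A)) + (1 - (ε : ℂ) • A) := by abel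
      rw [e]
      refine (norm_add_le _ _).trans ((add_le_add k2 hbase).trans ?_)
      have h2 : C' * ε ^ 2 ≤ ε * (C' * ε₁) := by
        have := mul_le_mul_of_nonneg_left hm1 (mul_nonneg hC' hε0.le)
        nlinarith
      have h3 : 0 ≤ ε * (C * ε₀) := by positivity
      rw [ha]
      nlinarith
    have hSt : SS hA t = SS hA ε ^ (m + 1) := by
      rw [SS_pow]
      congr 1
      push_cast
      exact hmε.symm
    have hdiff : ‖T ε - SS hA ε‖ ≤ (C + C') * ε ^ 2 := by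
      have e : T ε - SS hA ε = (T ε - (1 - (ε : ℂ) • A)) - (SS hA ε - (1 - (ε : ℂ) • A)) := by abel
      rw [e]
      refine (norm_sub_le _ _).trans ((add_le_add k1 k2).trans ?_)
      apply le_of_eq
      ring
    rw [hSt]
    refine (pow_sub_pow_le (T ε) (SS hA ε) (1 + ε * a) (by linarith [mul_nonneg hε0.le ha0]) hT1 hS1 h1
      (m + 1)).trans ?_
    have hexp : (1 + ε * a) ^ (m + 1) ≤ Real.exp (t * a) := by
      calc (1 + ε * a) ^ (m + 1) ≤ Real.exp (ε * a) ^ (m + 1) := by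
            refine pow_le_pow_left₀ (by linarith [mul_nonneg hε0.le ha0]) ?_ _
            linarith [Real.add_one_le_exp (ε * a)]
        _ = Real.exp (t * a) := by
            rw [← Real.exp_nat_mul]
            congr 1
            push_cast
            rw [← mul_assoc, hmε]
    calc ((m + 1 : ℕ) : ℝ) * ‖T ε - SS hA ε‖ * (1 + ε * a) ^ (m + 1)
        ≤ ((m + 1 : ℕ) : ℝ) * ((C + C') * ε ^ 2) * Real.exp (t * a) := by
          refine mul_le_mul (mul_le_mul_of_nonneg_left hdiff (by positivity)) hexp ?_ (by positivity)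
          exact pow_nonneg (by linarith [mul_nonneg hε0.le ha0]) _
      _ = (C + C') * t ^ 2 * Real.exp (t * a) / ((m : ℝ) + 1) := by
          rw [hε]
          push_cast
          field_simp
  -- the limit
  have hlim : Filter.Tendsto (fun m : ℕ => (C + C') * t ^ 2 * Real.exp (t * a) / ((m : ℝ) + 1) * nr x)
      Filter.atTop (nhds 0) := by
    have h2 : Filter.Tendsto (fun m : ℕ => (C + C') * t ^ 2 * Real.exp (t * a) / ((m : ℝ) + 1))
        Filter.atTop (nhds 0) :=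
      tendsto_const_nhds.div_atTop (Filter.tendsto_atTop_add_const_right _ _ tendsto_natCast_atTop_atTop)
    simpa using h2.mul_const (nr x)
  have hev : ∀ᶠ m : ℕ in Filter.atTop, t / ((m : ℝ) + 1) ≤ min ε₀ ε₁ := by
    have h2 : Filter.Tendsto (fun m : ℕ => t / ((m : ℝ) + 1)) Filter.atTop (nhds 0) :=
      tendsto_const_nhds.div_atTop (Filter.tendsto_atTop_add_const_right _ _ tendsto_natCast_atTop_atTop)
    exact (h2.eventually (ge_mem_nhds (lt_min hε₀ hε₁)))
  rw [tendsto_pi_nhds]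
  intro s
  rw [tendsto_iff_norm_sub_tendsto_zero]
  refine squeeze_zero' (Filter.Eventually.of_forall fun _ => norm_nonneg _) ?_ hlim
  filter_upwards [hev] with m hm
  have h2 := key m (hm.trans (min_le_left _ _)) (hm.trans (min_le_right _ _))
  have h3 : (T (t / ((m : ℝ) + 1)) ^ (m + 1) *ᵥ x) s - (SS hA t *ᵥ x) s =
      ((T (t / ((m : ℝ) + 1)) ^ (m + 1) - SS hA t) *ᵥ x) s := by
    rw [Matrix.sub_mulVec]
    rfl
  rw [h3]
  exact (norm_le_nr _ s).trans ((nr_mulVec _ x).trans (mul_le_mul_of_nonneg_right h2 (nr_nonneg x)))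

end limit

end Pool.Agent.KS6_99.LY
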