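import Pool.Agent.KS6_99.LY.Pol

/-!
Two variables: gates which preserve the absence of zeros in the closed bidisc.
-/

set_option autoImplicit false
set_option linter.unusedSectionVars false

open scoped BigOperators
open Finset

namespace Pool.Agent.KS6_99.LY

/-- no zeros on the closed bidisc -/
def NV2 (a b c d : ℂ) : Prop :=
  ∀ p q : ℂ, ‖p‖ ≤ 1 → ‖q‖ ≤ 1 → a + p * b + q * c + p * q * d ≠ 0

theorem NV2.swap {a b c d : ℂ} (h : NV2 a b c d) : NV2 a c b d := by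
  intro p q hp hq h0
  apply h q p hq hp
  linear_combination h0

theorem NV2.b_lt {a b c d : ℂ} (h : NV2 a b c d) : ‖b‖ < ‖a‖ := by
  apply aff_lt
  intro p hp h0
  apply h p 0 hp (by simp)
  linear_combination h0

theorem sq_add (x y p : ℂ) (hp : ‖p‖ = 1) :
    ‖x + p * y‖ ^ 2 = ‖x‖ ^ 2 + ‖y‖ ^ 2 + 2 * (p * ((starRingEnd ℂ) x * y)).re := by
  have h1 : p.re * p.re + p.im * p.im = 1 := by
    have := Complex.sq_norm p
    rw [hp, Complex.normSq_apply] at this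
    linarith
  rw [Complex.sq_norm, Complex.sq_norm, Complex.sq_norm, Complex.normSq_apply, Complex.normSq_apply,
    Complex.normSq_apply]
  simp only [Complex.add_re, Complex.add_im, Complex.mul_re, Complex.mul_im, Complex.conj_re,
    Complex.conj_im]
  linear_combination (y.re ^ 2 + y.im ^ 2) * h1

theorem NV2.ineq {a b c d : ℂ} (h : NV2 a b c d) :
    2 * ‖(starRingEnd ℂ) a * b - (starRingEnd ℂ) c * d‖ < ‖a‖ ^ 2 + ‖b‖ ^ 2 - ‖c‖ ^ 2 - ‖d‖ ^ 2 := by
  set w : ℂ := (starRingEnd ℂ) a * b - (starRingEnd ℂ) c * d with hw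
  obtain ⟨p, hp, hpw⟩ : ∃ p : ℂ, ‖p‖ = 1 ∧ (p * w).re = -‖w‖ := by
    by_cases h0 : w = 0
    · exact ⟨1, by simp, by rw [h0]; simp⟩
    · have hn : ‖w‖ ≠ 0 := norm_ne_zero_iff.2 h0
      refine ⟨-((starRingEnd ℂ) w / ‖w‖), ?_, ?_⟩
      · rw [norm_neg, norm_div, Complex.norm_conj, Complex.norm_real, norm_norm, div_self hn]
      · have h1 : -((starRingEnd ℂ) w / ‖w‖) * w = ((-‖w‖ : ℝ) : ℂ) := by
          have h2 : (starRingEnd ℂ) w * w = ((‖w‖ ^ 2 : ℝ) : ℂ) := by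
            rw [Complex.conj_mul']
            push_cast
            rfl
          have h3 : (‖w‖ : ℂ) ≠ 0 := by exact_mod_cast hn
          rw [neg_mul, div_mul_eq_mul_div, h2]
          push_cast
          field_simp
        rw [h1, Complex.ofReal_re]
  have hlt : ‖c + p * d‖ < ‖a + p * b‖ := by
    apply aff_lt
    intro q hq h0
    apply h p q hp.le hq
    linear_combination h0
  have h1 := sq_add a b p hp
  have h2 := sq_add c d p hp
  have h3 : ‖c + p * d‖ ^ 2 < ‖a + p * b‖ ^ 2 := pow_lt_pow_left₀ hlt (norm_nonneg _) two_ne_zero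
  rw [h1, h2] at h3
  have h4 : (p * w).re = (p * ((starRingEnd ℂ) a * b)).re - (p * ((starRingEnd ℂ) c * d)).re := by
    rw [hw, mul_sub, Complex.sub_re]
  linarith

theorem NV2.of {a b c d : ℂ} (hab : ‖b‖ < ‖a‖)
    (h : 2 * ‖(starRingEnd ℂ) a * b - (starRingEnd ℂ) c * d‖ <
      ‖a‖ ^ 2 + ‖b‖ ^ 2 - ‖c‖ ^ 2 - ‖d‖ ^ 2) : NV2 a b c d := by
  set w : ℂ := (starRingEnd ℂ) a * b - (starRingEnd ℂ) c * d with hw
  set η : ℝ := ‖a‖ ^ 2 + ‖b‖ ^ 2 - ‖c‖ ^ 2 - ‖d‖ ^ 2 - 2 * ‖w‖ with hη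
  have hη0 : 0 < η := by rw [hη]; linarith
  have ha : 0 < ‖a‖ := (norm_nonneg _).trans_lt hab
  have hne : ∀ p : ℂ, ‖p‖ ≤ 1 → a + p * b ≠ 0 := fun p hp => aff_ne hab p hp
  have hfr : ∀ p : ℂ, ‖p‖ = 1 → ‖c + p * d‖ ^ 2 ≤ ‖a + p * b‖ ^ 2 - η := by
    intro p hp
    rw [sq_add a b p hp, sq_add c d p hp]
    have h4 : (p * w).re = (p * ((starRingEnd ℂ) a * b)).re - (p * ((starRingEnd ℂ) c * d)).re := by
      rw [hw, mul_sub, Complex.sub_re]
    have h5 : -‖w‖ ≤ (p * w).re := by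
      have h6 := Complex.abs_re_le_norm (p * w)
      rw [norm_mul, hp, one_mul, abs_le] at h6
      exact h6.1
    rw [hη]
    linarith
  -- the constant
  set k : ℝ := Real.sqrt (1 - η / (‖a‖ + ‖b‖) ^ 2) with hk
  have hM : 0 < (‖a‖ + ‖b‖) ^ 2 := by positivity
  have hk1 : k < 1 := by
    rw [hk, Real.sqrt_lt' one_pos]
    have : 0 < η / (‖a‖ + ‖b‖) ^ 2 := by positivity
    linarith
  have hfr2 : ∀ p : ℂ, ‖p‖ = 1 → ‖(c + p * d) / (a + p * b)‖ ≤ k := by
    intro p hp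
    have h1 := hfr p hp
    have h2 : 0 < ‖a + p * b‖ := norm_pos_iff.2 (hne p hp.le)
    have h3 : ‖a + p * b‖ ≤ ‖a‖ + ‖b‖ := by
      refine (norm_add_le _ _).trans ?_
      rw [norm_mul, hp, one_mul]
    rw [norm_div, div_le_iff₀ h2]
    have h4 : ‖c + p * d‖ ^ 2 ≤ (1 - η / (‖a‖ + ‖b‖) ^ 2) * ‖a + p * b‖ ^ 2 := by
      refine h1.trans ?_
      have h5 : η / (‖a‖ + ‖b‖) ^ 2 * ‖a + p * b‖ ^ 2 ≤ η := by
        rw [div_mul_eq_mul_div, div_le_iff₀ hM]
        exact mul_le_mul_of_nonneg_left (pow_le_pow_left₀ h2.le h3 2) hη0.le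
      linarith
    have h6 : 0 ≤ 1 - η / (‖a‖ + ‖b‖) ^ 2 := by
      by_contra hc
      push Not at hc
      have : (1 - η / (‖a‖ + ‖b‖) ^ 2) * ‖a + p * b‖ ^ 2 < 0 := mul_neg_of_neg_of_pos hc (by positivity)
      have h7 : 0 ≤ ‖c + p * d‖ ^ 2 := by positivity
      linarith
    have h7 : k ^ 2 = 1 - η / (‖a‖ + ‖b‖) ^ 2 := Real.sq_sqrt h6
    rw [← h7, ← mul_pow] at h4
    exact le_of_sq_le_sq h4 (mul_nonneg (Real.sqrt_nonneg _) h2.le)
  have hin : ∀ p : ℂ, ‖p‖ ≤ 1 → ‖(c + p * d) / (a + p * b)‖ ≤ k := by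
    intro p hp
    have hcl : closure (Metric.ball (0 : ℂ) 1) = Metric.closedBall 0 1 := closure_ball _ one_ne_zero
    refine Complex.norm_le_of_forall_mem_frontier_norm_le (f := fun p => (c + p * d) / (a + p * b))
      (U := Metric.ball 0 1) Metric.isBounded_ball ?_ ?_ ?_
    · apply DifferentiableOn.diffContOnCl
      rw [hcl]
      intro z hz
      apply DifferentiableAt.differentiableWithinAt
      refine DifferentiableAt.div (by fun_prop) (by fun_prop) ?_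
      exact hne z (by simpa using hz)
    · intro z hz
      rw [frontier_ball _ one_ne_zero] at hz
      exact hfr2 z (by simpa using hz)
    · rw [hcl]
      simpa using hp
  intro p q hp hq h0
  have h1 := hin p hp
  have h2 : 0 < ‖a + p * b‖ := norm_pos_iff.2 (hne p hp)
  rw [norm_div, div_le_iff₀ h2] at h1
  have h3 : ‖c + p * d‖ < ‖a + p * b‖ := by
    refine h1.trans_lt ?_
    nlinarith
  apply aff_ne h3 q hq
  linear_combination h0

theorem sq_diff (α : ℝ) (μ a d : ℂ) : ‖(α : ℂ) * a + μ * d‖ ^ 2 - ‖(α : ℂ) * d + (starRingEnd ℂ) μ * a‖ ^ 2 =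
    (α ^ 2 - ‖μ‖ ^ 2) * (‖a‖ ^ 2 - ‖d‖ ^ 2) := by
  simp only [Complex.sq_norm, Complex.normSq_apply, Complex.add_re, Complex.add_im, Complex.mul_re,
    Complex.mul_im, Complex.conj_re, Complex.conj_im, Complex.ofReal_re, Complex.ofReal_im]
  ring

/-- the gates preserve the absence of zeros -/
theorem NV2.gate {a b c d : ℂ} (h : NV2 a b c d) (α β : ℝ) (μ ν : ℂ) (hβ : 0 < β)
    (hαβ : β + ‖ν‖ ≤ α - ‖μ‖) :
    NV2 ((α : ℂ) * a + μ * d) ((β : ℂ) * b + ν * c) ((β : ℂ) * c + (starRingEnd ℂ) ν * b)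
      ((α : ℂ) * d + (starRingEnd ℂ) μ * a) := by
  have i1 := h.ineq
  have i2 := h.swap.ineq
  have hb := h.b_lt
  have hc := h.swap.b_lt
  have hm := norm_nonneg μ
  have hn := norm_nonneg ν
  have hα : 0 < α := by linarith
  set q := ‖(starRingEnd ℂ) a * b - (starRingEnd ℂ) c * d‖ with hq
  set q' := ‖(starRingEnd ℂ) a * c - (starRingEnd ℂ) b * d‖ with hq'
  have hq0 : 0 ≤ q := norm_nonneg _
  have hq0' : 0 ≤ q' := norm_nonneg _
  have ha : 0 < ‖a‖ := (norm_nonneg _).trans_lt hb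
  have hd : ‖d‖ < ‖a‖ := by
    have h1 : ‖d‖ ^ 2 < ‖a‖ ^ 2 := by linarith
    exact lt_of_pow_lt_pow_left₀ 2 ha.le h1
  have hX := sq_diff α μ a d
  have hY := sq_diff β ν b c
  have hW : ‖(starRingEnd ℂ) ((α : ℂ) * a + μ * d) * ((β : ℂ) * b + ν * c) -
      (starRingEnd ℂ) ((β : ℂ) * c + (starRingEnd ℂ) ν * b) *
        ((α : ℂ) * d + (starRingEnd ℂ) μ * a)‖ ≤
      (α * β + ‖μ‖ * ‖ν‖) * q + (α * ‖ν‖ + ‖μ‖ * β) * q' := by
    have e1 : (starRingEnd ℂ) ((α : ℂ) * a + μ * d) * ((β : ℂ) * b + ν * c) -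
        (starRingEnd ℂ) ((β : ℂ) * c + (starRingEnd ℂ) ν * b) *
          ((α : ℂ) * d + (starRingEnd ℂ) μ * a) =
        ((α * β : ℝ) : ℂ) * ((starRingEnd ℂ) a * b - (starRingEnd ℂ) c * d) +
        ((α : ℂ) * ν) * ((starRingEnd ℂ) a * c - (starRingEnd ℂ) b * d) +
        (-((β : ℂ) * (starRingEnd ℂ) μ)) *
          (starRingEnd ℂ) ((starRingEnd ℂ) a * c - (starRingEnd ℂ) b * d) +
        (-(ν * (starRingEnd ℂ) μ)) *
          (starRingEnd ℂ) ((starRingEnd ℂ) a * b - (starRingEnd ℂ) c * d) := by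
      simp only [map_add, map_sub, map_mul, Complex.conj_ofReal, Complex.conj_conj,
        Complex.ofReal_mul]
      ring
    rw [e1]
    refine (norm_add_le _ _).trans ?_
    refine (add_le_add (norm_add_le _ _) le_rfl).trans ?_
    refine (add_le_add (add_le_add (norm_add_le _ _) le_rfl) le_rfl).trans ?_
    simp only [norm_mul, norm_neg, Complex.norm_conj, Complex.norm_real, Complex.ofReal_mul,
      Real.norm_of_nonneg hα.le, Real.norm_of_nonneg hβ.le]
    rw [← hq, ← hq']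
    apply le_of_eq
    ring
  apply NV2.of
  · have h1 : ‖(β : ℂ) * b + ν * c‖ < (β + ‖ν‖) * ‖a‖ := by
      refine (norm_add_le _ _).trans_lt ?_
      rw [norm_mul, norm_mul, Complex.norm_real, Real.norm_of_nonneg hβ.le]
      have h2 : β * ‖b‖ < β * ‖a‖ := mul_lt_mul_of_pos_left hb hβ
      have h3 : ‖ν‖ * ‖c‖ ≤ ‖ν‖ * ‖a‖ := mul_le_mul_of_nonneg_left hc.le hn
      linarith
    have h2 : (α - ‖μ‖) * ‖a‖ ≤ ‖(α : ℂ) * a + μ * d‖ := by
      have h3 := norm_sub_norm_le ((α : ℂ) * a) (-(μ * d))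
      rw [sub_neg_eq_add, norm_neg, norm_mul, norm_mul, Complex.norm_real,
        Real.norm_of_nonneg hα.le] at h3
      have h4 : ‖μ‖ * ‖d‖ ≤ ‖μ‖ * ‖a‖ := mul_le_mul_of_nonneg_left hd.le hm
      linarith
    have h3 : (β + ‖ν‖) * ‖a‖ ≤ (α - ‖μ‖) * ‖a‖ := mul_le_mul_of_nonneg_right hαβ ha.le
    linarith
  · set X := ‖a‖ ^ 2 - ‖d‖ ^ 2 with hXd
    set Y := ‖b‖ ^ 2 - ‖c‖ ^ 2 with hYd
    set m := ‖μ‖ with hmd
    set n := ‖ν‖ with hnd
    have j1 : 2 * q < X + Y := by linarith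
    have j2 : 2 * q' < X - Y := by linarith
    have k1 : (α * β + m * n) * (2 * q) < (α * β + m * n) * (X + Y) := by
      apply mul_lt_mul_of_pos_left j1
      have := mul_pos hα hβ
      have := mul_nonneg hm hn
      linarith
    have k2 : (α * n + m * β) * (2 * q') ≤ (α * n + m * β) * (X - Y) := by
      apply mul_le_mul_of_nonneg_left j2.le
      have := mul_nonneg hα.le hn
      have := mul_nonneg hm hβ.le
      linarith
    have k3 : 0 ≤ ((α - m) - (β + n)) * ((α + m) * X - (β - n) * Y) := by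
      apply mul_nonneg (by linarith)
      have l1 : 0 < X := by linarith
      have l2 : |Y| ≤ X := by
        rw [abs_le]
        constructor <;> linarith
      have l3 : |β - n| ≤ α + m := by
        rw [abs_le]
        constructor <;> linarith
      have l4 : (β - n) * Y ≤ |β - n| * |Y| := by
        rw [← abs_mul]
        exact le_abs_self _
      have l5 : |β - n| * |Y| ≤ (α + m) * X := mul_le_mul l3 l2 (abs_nonneg _) (by linarith)
      linarith
    nlinarith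

end Pool.Agent.KS6_99.LY
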